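import Pool.Agent.Helper65.Comp.Scal

/-! **Composition.** -/

set_option autoImplicit false

namespace Pool.Agent.Helper65.Comp

open Finset Module Pool.Agent.TH176.Nag Pool.Agent.TH603.Sur Pool.Agent.TH763.DB
open Pool.Agent.TH641.UM Pool.Agent.TH2.NU Pool.Agent.Y205.MD

theorem cond_cl {N : ℕ} {q : Fin N → ℕ} {w : ∀ i, Fin (q i) → ℕ} {κ : Type} [Fintype κ] {e : κ → ℕ} :
    cond (Sum.elim (fun p : Σ i : Fin N, Fin (q i) => w p.1 p.2) e) =
      ∑ i, cond (w i) + cond e := by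
  unfold Pool.Agent.TH603.Sur.cond
  rw [Fintype.sum_sum_type]
  simp only [Sum.elim_inl, Sum.elim_inr]
  rw [Fintype.sum_sigma]

/-- transfer of emptiness from points of multiplicity `b i` to clusters -/
theorem emp_clusters {N : ℕ} {q : Fin N → ℕ} {w : ∀ i, Fin (q i) → ℕ} {b : Fin N → ℕ}
    (hw : ∀ i, Emp (w i) (↑(TriF (b i)) : Set (ℤ × ℤ))) {κ : Type} {e : κ → ℕ} {S : Finset (ℤ × ℤ)}
    (h : Emp (Sum.elim b e : Fin N ⊕ κ → ℕ) (↑S : Set (ℤ × ℤ))) :
    Emp (Sum.elim (fun p : Σ i : Fin N, Fin (q i) => w p.1 p.2) e) (↑S : Set (ℤ × ℤ)) := by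
  have h0 := fun i => exists_Cl0 (hw i)
  choose A B hcl using h0
  obtain ⟨K, _, _, x, y, hx, hy, hf⟩ := h
  refine emp_of_CluB (K := K) hcl (x := fun i => x (Sum.inl i)) (y := fun i => y (Sum.inl i))
    (x' := fun i => x (Sum.inr i)) (y' := fun i => y (Sum.inr i)) (fun i => hx _) (fun i => hy _)
    (fun i => hx _) (fun i => hy _) (D := fun _ => (1, 0)) (E := fun _ => (0, 1)) (fun _ => by simp) ?_
  rw [eq_bot_iff]
  rintro f ⟨⟨hf1, hf2⟩, hf3⟩
  rw [SetLike.mem_coe, Submodule.mem_iInf] at hf2 hf3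
  rw [Submodule.mem_bot]
  apply hf f
  · have := (Finsupp.mem_supported K f).1 hf1
    exact this
  · rintro (i | i)
    · exact (hf3 i).1
    · exact hf2 i

/-- **Composition.**  Clusters `w i` with the same number of conditions, empty in degree `b - 1` and
independent in degree `b`; if `N` points of multiplicity `b` (and spectators) impose independent
conditions on the exponents `S` and the system with `N` points of multiplicity `b + 1` is empty,
then the clusters (and the spectators) have the expected dimension on `S`. -/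
theorem compose {N b μ : ℕ} (hμ : 0 < μ) (hN : 0 < N) {q : Fin N → ℕ} {w : ∀ i, Fin (q i) → ℕ}
    (hwE : ∀ i, Emp (w i) (↑(TriF b) : Set (ℤ × ℤ))) (hwS : ∀ i, Sur (w i) (TZ b))
    (hwc : ∀ i, cond (w i) = (b + 1).choose 2 + μ) {κ : Type} [Fintype κ] {e : κ → ℕ}
    {S : Finset (ℤ × ℤ)} (hpos : ∀ u ∈ S, 0 ≤ u.1 ∧ 0 ≤ u.2)
    (h1 : Sur (Sum.elim (fun _ : Fin N => b) e) (↑S : Set (ℤ × ℤ)))
    (h2 : Emp (Sum.elim (fun _ : Fin N => b + 1) e) (↑S : Set (ℤ × ℤ))) :
    (S.card ≤ cond (Sum.elim (fun p : Σ i : Fin N, Fin (q i) => w p.1 p.2) e) →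
      Emp (Sum.elim (fun p : Σ i : Fin N, Fin (q i) => w p.1 p.2) e) (↑S : Set (ℤ × ℤ))) ∧
    (cond (Sum.elim (fun p : Σ i : Fin N, Fin (q i) => w p.1 p.2) e) ≤ S.card →
      Sur (Sum.elim (fun p : Σ i : Fin N, Fin (q i) => w p.1 p.2) e) (↑S : Set (ℤ × ℤ))) := by
  classical
  have hcl0 := fun i => exists_Cl (hwE i) (hwS i) (le_of_eq (hwc i).symm)
  choose A B I hIc hcl using hcl0
  have hI : ∀ i, I i ⊆ range (b + 1) := by
    intro i k hk
    have := ((hcl i).top k hk).1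
    rw [mem_range]
    omega
  have hc1 := cond_sum' (N := N) (b := b) (e := e)
  have hc2 := cond_cl (w := w) (e := e)
  have hc3 : ∑ i, cond (w i) = N * (b + 1).choose 2 + N * μ := by
    rw [sum_congr rfl fun i _ => hwc i, sum_const, card_univ, Fintype.card_fin, smul_eq_mul, mul_add]
  rw [hc3] at hc2
  obtain ⟨T, hTS, hTc, hTE⟩ := h1
  have hTS' : T ⊆ S := fun u hu => mem_coe.1 (hTS (mem_coe.2 hu))
  have hle : T.card ≤ S.card := card_le_card hTS'
  have hsumI : ∑ i, (I i).card = N * μ := by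
    rw [sum_congr rfl fun i _ => hIc i, sum_const, card_univ, Fintype.card_fin, smul_eq_mul]
  have hsum0 : 0 < ∑ i, (I i).card := by
    rw [hsumI]
    exact Nat.mul_pos hN hμ
  have h0 : crk S (wB (fun _ : Fin N => b) e ∅) ≤ S.card - T.card := by
    apply crk_le
    refine ⟨T, hTS', by omega, ?_⟩
    have : wB (fun _ : Fin N => b) e ∅ = Sum.elim (fun _ : Fin N => b) e := by
      have e1 : lv (fun _ : Fin N => b) ∅ = fun _ => b := funext fun i => lv_not (notMem_empty i)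
      unfold wB
      rw [e1]
    rw [this]
    exact hTE
  have hbd := crk_bound (b := fun _ : Fin N => b) hpos (μ := fun _ => μ) (fun _ => hμ) h0 (by
    intro J k hk
    refine ⟨fun _ => b + 1, fun i => lv_le _ _ _, fun i hi => absurd rfl hi, h2, ?_⟩
    rw [← sum_sub_distrib]
    have e1 : ∑ i : Fin N, ((((b + 1 + 1).choose 2 : ℕ) : ℝ) -
        (((lv (fun _ : Fin N => b) J i + 1).choose 2 : ℕ) : ℝ)) = ∑ i ∈ Jᶜ, ((b : ℝ) + 1) := by
      rw [← sum_add_sum_compl J]
      have e2 : ∑ i ∈ J, ((((b + 1 + 1).choose 2 : ℕ) : ℝ) -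
        (((lv (fun _ : Fin N => b) J i + 1).choose 2 : ℕ) : ℝ)) = 0 := by
        refine sum_eq_zero fun i hi => ?_
        rw [lv_mem hi, sub_self]
      rw [e2, zero_add]
      refine sum_congr rfl fun i hi => ?_
      rw [lv_not (mem_compl.1 hi), choose_succ]
      ring
    rw [e1, sum_const, sum_const, nsmul_eq_mul, nsmul_eq_mul]
    apply le_of_eq
    ring)
  obtain ⟨K, _, _, x, y, x', y', D, E, hx, hy, hx', hy', hDE, hfr⟩ :=
    exists_cluB (b := fun _ : Fin N => b) (I := I) hI hsum0 hpos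
      (c0 := S.card - T.card) (by
        intro J
        simp only [hIc]
        exact hbd J)
  rw [hsumI] at hfr
  obtain ⟨r, hr⟩ : ∃ r : ℕ, r = N * μ := ⟨_, rfl⟩
  rw [← hr] at hfr hc2
  obtain ⟨c, hc⟩ : ∃ c : ℕ, c = S.card - T.card - r := ⟨_, rfl⟩
  rw [← hc] at hfr
  have hform : ∀ S' : Finset (ℤ × ℤ), Sys S' x' y' e ⊓
      ⨅ i, CluB (x i) (y i) (D i) (E i) b (I i) =
      Finsupp.supported K K (↑S' : Set (ℤ × ℤ)) ⊓
        ((⨅ j, Mul (x' j) (y' j) (e j)) ⊓
          ⨅ i, CluB (x i) (y i) (D i) (E i) b (I i)) := by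
    intro S'
    unfold Sys
    rw [inf_assoc]
  rw [hform] at hfr
  obtain ⟨T', hT'S, hT'c, hT'⟩ := exists_sub S _ hfr (by omega)
  rw [← hform] at hT'
  have hE : Emp (Sum.elim (fun p : Σ i : Fin N, Fin (q i) => w p.1 p.2) e)
      (↑T' : Set (ℤ × ℤ)) := emp_of_CluB hcl hx hy hx' hy' hDE hT'
  constructor
  · intro hcard
    have : T' = S := by
      apply eq_of_subset_of_card_le hT'S
      omega
    rw [← this]
    exact hE
  · intro hcard
    exact ⟨T', by exact_mod_cast hT'S, by omega, hE⟩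

end Pool.Agent.Helper65.Comp
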