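import Pool.Agent.Helper65.Comp.Energy

/-! Decomposition of a multiset into few classes of groups with equal sums. -/

set_option autoImplicit false

namespace Pool.Agent.Helper65.Comp

open Finset

/-- many disjoint groups of `k + 2` elements with a common sum -/
theorem exists_bundle {v : Multiset ℕ} {f : ℕ → ℕ} {M k A R : ℕ} (hM : ∀ a ∈ v, f a ≤ M)
    (hA : 1 ≤ A) (hR : (k + 2) * M + 1 < R ^ (k + 1))
    (hn : 4 * (k + 2) ^ 3 * A * R ≤ Multiset.card v) :
    ∃ (c : ℕ) (Gs : Multiset (Multiset ℕ)), Gs.sum ≤ v ∧ Multiset.card Gs = A ∧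
      ∀ W ∈ Gs, Multiset.card W = k + 2 ∧ (W.map f).sum = c := by
  classical
  obtain ⟨n, w, hw⟩ : ∃ (n : ℕ) (w : Fin n → ℕ), (univ : Finset (Fin n)).val.map w = v := by
    obtain ⟨l, rfl⟩ := Quot.exists_rep v
    refine ⟨l.length, l.get, ?_⟩
    rw [Fin.univ_val_map, List.ofFn_get]
    rfl
  have hcard : Fintype.card (Fin n) = Multiset.card v := by
    rw [← hw]
    simp
  have hMw : ∀ y, f (w y) ≤ M := by
    intro y
    apply hM
    rw [← hw]
    exact Multiset.mem_map_of_mem w (mem_univ y)
  obtain ⟨q, hq⟩ : ∃ q, q = (k + 2) * M + 1 := ⟨_, rfl⟩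
  haveI : NeZero q := ⟨by omega⟩
  obtain ⟨t, ht⟩ := En.exists_target (fun y : Fin n => ((f (w y) : ℕ) : ZMod q)) (k := k) (A := A)
    (R := R) hA (by rw [hq]; exact hR) (by rw [hcard]; exact hn)
  have key : ∀ m ≤ A, ∃ (U : Finset (Fin n)) (Gs : Multiset (Multiset ℕ)), U.card = (k + 2) * m ∧
      Gs.sum = U.val.map w ∧ Multiset.card Gs = m ∧
      ∀ W ∈ Gs, Multiset.card W = k + 2 ∧ (W.map f).sum = t.val := by
    intro m
    induction m with
    | zero => exact fun _ => ⟨∅, 0, by simp, by simp, by simp, by simp⟩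
    | succ m ih =>
      intro hm
      obtain ⟨U, Gs, h1, h2, h3, h4⟩ := ih (by omega)
      obtain ⟨V, hV1, hV2, hV3⟩ := ht U (by rw [h1]; exact Nat.mul_le_mul_left _ (by omega))
      refine ⟨V.disjUnion U hV3, (V.val.map w) ::ₘ Gs, ?_, ?_, ?_, ?_⟩
      · rw [card_disjUnion, hV1, h1]
        ring
      · rw [Multiset.sum_cons, h2, ← Multiset.map_add]
        rfl
      · rw [Multiset.card_cons, h3]
      · intro W hW
        rcases Multiset.mem_cons.1 hW with rfl | hW
        · refine ⟨by rw [Multiset.card_map]; exact hV1, ?_⟩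
          rw [Multiset.map_map]
          have e1 : (Multiset.map (f ∘ w) V.val).sum = ∑ y ∈ V, f (w y) := rfl
          rw [e1]
          have e2 : ((∑ y ∈ V, f (w y) : ℕ) : ZMod q) = t := by
            push_cast
            exact hV2
          rw [← e2, ZMod.val_natCast_of_lt]
          have e3 : ∑ y ∈ V, f (w y) ≤ V.card * M := by
            rw [← smul_eq_mul]
            exact sum_le_card_nsmul _ _ _ fun y _ => hMw y
          rw [hV1] at e3
          omega
        · exact h4 W hW
  obtain ⟨U, Gs, -, h2, h3, h4⟩ := key A le_rfl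
  refine ⟨t.val, Gs, ?_, h3, h4⟩
  rw [h2, ← hw]
  exact Multiset.map_le_map (val_le_iff.2 (subset_univ U))

/-- **Greedy decomposition.** -/
theorem greedy {f : ℕ → ℕ} {M k R : ℕ} (hR : (k + 2) * M + 1 < R ^ (k + 1)) :
    ∀ (i : ℕ) (v : Multiset ℕ), (∀ a ∈ v, f a ≤ M) →
      Multiset.card v < 2 ^ i * (4 * (k + 2) ^ 3 * R) →
      ∃ (Gs : Multiset (Multiset ℕ)) (e : Multiset ℕ) (C : Finset ℕ), Gs.sum + e = v ∧
        Multiset.card e ≤ 4 * (k + 2) ^ 3 * R ∧
        (∀ W ∈ Gs, Multiset.card W = k + 2 ∧ (W.map f).sum ∈ C) ∧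
        C.card ≤ 4 * (k + 2) ^ 2 * R * i := by
  classical
  obtain ⟨L, hL⟩ : ∃ L, L = 4 * (k + 2) ^ 3 * R := ⟨_, rfl⟩
  obtain ⟨L', hL'⟩ : ∃ L', L' = 4 * (k + 2) ^ 2 * R := ⟨_, rfl⟩
  have hLL : L = (k + 2) * L' := by
    rw [hL, hL']
    ring
  rw [← hL, ← hL']
  intro i
  induction i with
  | zero =>
    intro v _ hv
    exact ⟨0, v, ∅, by simp, by rw [pow_zero, one_mul] at hv; exact hv.le, by simp, by simp⟩
  | succ i ih =>
    have inner : ∀ j : ℕ, ∀ v : Multiset ℕ, (∀ a ∈ v, f a ≤ M) →
        Multiset.card v < 2 ^ i * L + j * (2 ^ i * (k + 2)) →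
        ∃ (Gs : Multiset (Multiset ℕ)) (e : Multiset ℕ) (C : Finset ℕ), Gs.sum + e = v ∧
          Multiset.card e ≤ L ∧ (∀ W ∈ Gs, Multiset.card W = k + 2 ∧ (W.map f).sum ∈ C) ∧
          C.card ≤ L' * i + j := by
      intro j
      induction j with
      | zero =>
        intro v h1 h2
        exact ih v h1 (by simpa using h2)
      | succ j ihj =>
        intro v h1 h2
        rcases Nat.lt_or_ge (Multiset.card v) (2 ^ i * L) with h3 | h3
        · obtain ⟨Gs, e, C, g1, g2, g3, g4⟩ := ih v h1 h3
          exact ⟨Gs, e, C, g1, g2, g3, by omega⟩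
        · obtain ⟨c, G0, b1, b2, b3⟩ := exists_bundle (A := 2 ^ i) h1 (Nat.one_le_two_pow) hR
            (by
              refine le_trans (le_of_eq ?_) h3
              rw [hL]
              ring)
          have hc0 : Multiset.card G0.sum = 2 ^ i * (k + 2) := by
            have : ∀ Gs : Multiset (Multiset ℕ), (∀ W ∈ Gs, Multiset.card W = k + 2) →
                Multiset.card Gs.sum = Multiset.card Gs * (k + 2) := by
              intro Gs
              induction Gs using Multiset.induction_on with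
              | empty => simp
              | cons W Gs ih2 =>
                intro hW
                rw [Multiset.sum_cons, Multiset.card_add, Multiset.card_cons,
                  hW W (Multiset.mem_cons_self _ _),
                  ih2 fun V hV => hW V (Multiset.mem_cons_of_mem hV)]
                ring
            rw [this G0 fun W hW => (b3 W hW).1, b2]
          obtain ⟨v', rfl⟩ := Multiset.le_iff_exists_add.1 b1
          rw [Multiset.card_add, hc0] at h2
          obtain ⟨Gs, e, C, g1, g2, g3, g4⟩ := ihj v'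
            (fun a ha => h1 a (Multiset.mem_add.2 (Or.inr ha))) (by
              have e1 : (j + 1) * (2 ^ i * (k + 2)) = j * (2 ^ i * (k + 2)) + 2 ^ i * (k + 2) := by
                ring
              rw [e1] at h2
              omega)
          refine ⟨G0 + Gs, e, insert c C, ?_, g2, ?_, ?_⟩
          · rw [Multiset.sum_add, add_assoc, g1]
          · intro W hW
            rcases Multiset.mem_add.1 hW with hW | hW
            · exact ⟨(b3 W hW).1, by rw [(b3 W hW).2]; exact mem_insert_self _ _⟩
            · exact ⟨(g3 W hW).1, mem_insert_of_mem (g3 W hW).2⟩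
          · exact (card_insert_le _ _).trans (by omega)
    intro v h1 h2
    obtain ⟨Gs, e, C, g1, g2, g3, g4⟩ := inner L' v h1 (by
      rw [pow_succ] at h2
      calc Multiset.card v < 2 ^ i * 2 * L := h2
        _ = 2 ^ i * L + 2 ^ i * L := by ring
        _ = 2 ^ i * L + L' * (2 ^ i * (k + 2)) := by
            congr 1
            rw [hLL]
            ring)
    refine ⟨Gs, e, C, g1, g2, g3, g4.trans (le_of_eq (by ring))⟩

end Pool.Agent.Helper65.Comp
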