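import Pool.Agent.Helper65.Comp.Main3

/-! Closure under composition. -/

set_option autoImplicit false

namespace Pool.Agent.Helper65.Comp

open Finset Module Pool.Agent.TH176.Nag Pool.Agent.TH603.Sur Pool.Agent.TH763.DB
open Pool.Agent.TH641.UM Pool.Agent.TH2.NU Pool.Agent.TH545.SD

/-- one group -/
theorem GE.cluster {d b : ℕ} {W e : Multiset ℕ} (hb : 1 ≤ b) (h1 : (b + 1).choose 2 ≤ co W)
    (h2 : co W ≤ (b + 2).choose 2) (g1 : GE (b - 1) W) (g2 : GE b W) (h : GE d (b ::ₘ e))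
    (h' : GE d ((b + 1) ::ₘ e)) : GE d (W + e) := by
  rw [← Multiset.singleton_add] at h h'
  exact GE.of (GD.compose1 ⟨hb, h1, h2, @GE.gd _ _ g1, @GE.gd _ _ g2⟩ (@GE.gd _ _ h) (@GE.gd _ _ h'))

/-- groups with equal numbers of conditions -/
theorem GE.clusters {d b c N : ℕ} (hN : 1 ≤ N) {W : Fin N → Multiset ℕ} {e : Multiset ℕ}
    (hb : 1 ≤ b) (hc : ∀ i, co (W i) = c) (h1 : (b + 1).choose 2 ≤ c)
    (h2 : c ≤ (b + 2).choose 2) (g1 : ∀ i, GE (b - 1) (W i)) (g2 : ∀ i, GE b (W i))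
    (h : GE d (Multiset.replicate N b + e)) (h' : GE d (Multiset.replicate N (b + 1) + e)) :
    GE d (∑ i, W i + e) := by
  rw [← Multiset.nsmul_singleton] at h h'
  exact GE.of (GD.compose hN (fun i => ⟨hb, by rw [hc]; exact h1, by rw [hc]; exact h2,
    @GE.gd _ _ (g1 i), @GE.gd _ _ (g2 i)⟩) hc (@GE.gd _ _ h) (@GE.gd _ _ h'))

end Pool.Agent.Helper65.Comp
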