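import Pool.Agent.Helper65.Comp.Lam
import Pool.Agent.TH603.Sur.Forms

/-! The data of a cluster: dual functionals of low degree and leading forms of degree `b`. -/

set_option autoImplicit false

namespace Pool.Agent.Helper65.Comp

open Finset Module Pool.Agent.TH176.Nag Pool.Agent.TH603.Sur Pool.Agent.TH763.DB

/-- a submodule containing all products of descending products contains `PF K w` -/
theorem PF_le_of_desc2 {K : Type} [Field K] {w : ℕ} {V : Submodule K (K × K → K)}
    (hV : ∀ a b : ℕ, a + b < w →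
      (fun u : K × K => (∏ t ∈ range a, (u.1 - (t : K))) * ∏ t ∈ range b, (u.2 - (t : K))) ∈ V) :
    PF K w ≤ V := by
  have key : ∀ c a b : ℕ, a + b + c < w →
      (fun u : K × K => (u.1 ^ c * ∏ t ∈ range a, (u.1 - (t : K))) * ∏ t ∈ range b, (u.2 - (t : K))) ∈ V := by
    intro c
    induction c with
    | zero => intro a b h; simpa using hV a b (by omega)
    | succ c ih =>
      intro a b h
      have h1 := ih (a + 1) b (by omega)
      have h2 := V.smul_mem (a : K) (ih a b (by omega))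
      convert V.add_mem h1 h2 using 2
      simp only [Pi.smul_apply, smul_eq_mul, Pi.add_apply]
      rw [prod_range_succ]; ring
  apply PF_le_of_desc
  intro a b hab
  simpa using key a 0 b (by omega)

theorem LM_of_desc2 {K : Type} [Field K] {f : (ℤ × ℤ) →₀ K} {x y : K} {w : ℕ}
    (h : ∀ a b : ℕ, a + b < w → pr f x y
      (fun u : K × K => (∏ t ∈ range a, (u.1 - (t : K))) * ∏ t ∈ range b, (u.2 - (t : K))) = 0) :
    LM f x y w := by
  intro P hP
  have : PF K w ≤ LinearMap.ker (prL f x y) := by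
    apply PF_le_of_desc2
    intro a b hab
    exact h a b hab
  exact this hP

section
variable {K : Type} [Field K] [CharZero K]

theorem coeff_Xe (a : K) (i k : ℕ) : PowerSeries.coeff k (PowerSeries.X ^ i * ee a) =
    if i ≤ k then a ^ (k - i) * ((k - i).factorial : K)⁻¹ else 0 := by
  rw [PowerSeries.coeff_X_pow_mul']
  split_ifs with h
  · unfold ee
    rw [PowerSeries.coeff_rescale, PowerSeries.coeff_exp]
    simp
  · rfl

theorem desc_mv (a : K) (i k : ℕ) : (∏ t ∈ range i, ((k : K) - (t : K))) * a ^ k =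
    (k.factorial : K) * a ^ i * PowerSeries.coeff k (PowerSeries.X ^ i * ee a) := by
  have h0 : (∏ t ∈ range i, ((k : K) - (t : K))) = (i.factorial : K) * (k.choose i : K) := by
    rw [← descPochhammer_eval_eq_prod_range, descPochhammer_eval_eq_descFactorial,
      Nat.descFactorial_eq_factorial_mul_choose]
    push_cast
    rfl
  rw [h0, coeff_Xe]
  split_ifs with h
  · have h1 : (k.choose i : K) * (i.factorial : K) * ((k - i).factorial : K) = (k.factorial : K) := by
      exact_mod_cast congrArg (fun n : ℕ => (n : K)) (Nat.choose_mul_factorial_mul_factorial h)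
    have h2 : ((k - i).factorial : K) ≠ 0 := Nat.cast_ne_zero.2 (Nat.factorial_ne_zero _)
    have h3 : a ^ k = a ^ i * a ^ (k - i) := by rw [← pow_add, Nat.add_sub_cancel' h]
    rw [← h1, h3]
    field_simp
  · rw [Nat.choose_eq_zero_of_lt (not_le.1 h)]
    simp

/-- emptiness makes the matrix of the values injective -/
theorem inj_of_emp {q : ℕ} {w : Fin q → ℕ} {A B : Fin q → K} (hA : ∀ j, A j ≠ 0) (hB : ∀ j, B j ≠ 0)
    {T : Finset (ℤ × ℤ)} (hpos : ∀ u ∈ T, 0 ≤ u.1 ∧ 0 ≤ u.2)
    (hT : ∀ f : (ℤ × ℤ) →₀ K, (↑f.support : Set (ℤ × ℤ)) ⊆ (↑T : Set (ℤ × ℤ)) →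
      (∀ j, LM f (A j) (B j) (w j)) → f = 0)
    (g : T → K) (hg : ∀ r : RR w, ∑ u : T, g u * mv w A B r u.1.1.toNat u.1.2.toNat = 0) : g = 0 := by
  classical
  obtain ⟨f, hf⟩ : ∃ f : (ℤ × ℤ) →₀ K, f = Finsupp.onFinset T
      (fun u => if h : u ∈ T then g ⟨u, h⟩ * (((u.1.toNat.factorial : K))⁻¹ *
        ((u.2.toNat.factorial : K))⁻¹) else 0) (by
        intro u hu
        by_contra hnot
        exact hu (dif_neg hnot)) := ⟨_, rfl⟩
  have hfS : f.support ⊆ T := by rw [hf]; exact Finsupp.support_onFinset_subset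
  have hfu : ∀ u : T, f u = g u * (((u.1.1.toNat.factorial : K))⁻¹ *
        ((u.1.2.toNat.factorial : K))⁻¹) := by
    intro u
    rw [hf, Finsupp.onFinset_apply, dif_pos u.2]
  have h0 : f = 0 := by
    apply hT f (by exact_mod_cast hfS)
    intro j
    apply LM_of_desc2
    intro a b hab
    rw [pr_eq_sum hfS, ← Finset.sum_coe_sort T]
    have h1 := hg ⟨j, ⟨a, by omega⟩, ⟨b, by simp only; omega⟩⟩
    have h2 : ∀ u : T, f u * ((∏ t ∈ range a, (((u : ℤ × ℤ).1 : K) - (t : K))) *
        ∏ t ∈ range b, (((u : ℤ × ℤ).2 : K) - (t : K))) * (A j ^ (u : ℤ × ℤ).1 * B j ^ (u : ℤ × ℤ).2) =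
        (A j ^ a * B j ^ b) * (g u * mv w A B (⟨j, ⟨a, by omega⟩, ⟨b, by simp only; omega⟩⟩ : RR w)
          u.1.1.toNat u.1.2.toNat) := by
      rintro ⟨⟨u1, u2⟩, hu⟩
      obtain ⟨p1, p2⟩ := hpos _ hu
      rw [hfu]
      simp only at p1 p2 ⊢
      lift u1 to ℕ using p1
      lift u2 to ℕ using p2
      simp only [Int.toNat_natCast, Int.cast_natCast, zpow_natCast]
      unfold mv
      have e1 := desc_mv (A j) a u1
      have e2 := desc_mv (B j) b u2
      have n1 : ((u1.factorial : ℕ) : K) ≠ 0 := Nat.cast_ne_zero.2 (Nat.factorial_ne_zero _)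
      have n2 : ((u2.factorial : ℕ) : K) ≠ 0 := Nat.cast_ne_zero.2 (Nat.factorial_ne_zero _)
      calc g ⟨((u1 : ℤ), (u2 : ℤ)), hu⟩ * ((u1.factorial : K)⁻¹ * (u2.factorial : K)⁻¹) *
            ((∏ t ∈ range a, ((u1 : K) - (t : K))) * ∏ t ∈ range b, ((u2 : K) - (t : K))) *
            (A j ^ u1 * B j ^ u2) =
          g ⟨((u1 : ℤ), (u2 : ℤ)), hu⟩ * ((u1.factorial : K)⁻¹ * (u2.factorial : K)⁻¹) *
            (((∏ t ∈ range a, ((u1 : K) - (t : K))) * A j ^ u1) *
              ((∏ t ∈ range b, ((u2 : K) - (t : K))) * B j ^ u2)) := by ring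
        _ = _ := by
          rw [e1, e2]
          field_simp
    rw [sum_congr rfl fun u _ => h2 u, ← mul_sum, h1, mul_zero]
  funext u
  have h1 := hfu u
  rw [h0, Finsupp.coe_zero, Pi.zero_apply] at h1
  have n1 : ((u.1.1.toNat.factorial : ℕ) : K) ≠ 0 := Nat.cast_ne_zero.2 (Nat.factorial_ne_zero _)
  have n2 : ((u.1.2.toNat.factorial : ℕ) : K) ≠ 0 := Nat.cast_ne_zero.2 (Nat.factorial_ne_zero _)
  rw [Pi.zero_apply]
  exact (mul_eq_zero.1 h1.symm).resolve_right (mul_ne_zero (inv_ne_zero n1) (inv_ne_zero n2))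

/-- duality: an injective matrix has a surjective transpose -/
theorem dual_surj {R ι : Type} [Fintype R] [Fintype ι] (M : R → ι → K)
    (h : ∀ g : ι → K, (∀ r, ∑ u, g u * M r u = 0) → g = 0) (t : ι → K) :
    ∃ c : R → K, ∀ u, ∑ r, c r * M r u = t u := by
  classical
  obtain ⟨Φ, hΦ⟩ : ∃ Φ : (ι → K) →ₗ[K] (R → K), ∀ g r, Φ g r = ∑ u, g u * M r u := by
    refine ⟨{ toFun := fun g r => ∑ u, g u * M r u, map_add' := ?_, map_smul' := ?_ }, fun _ _ => rfl⟩
    · intro g g'
      funext r
      simp only [Pi.add_apply, add_mul, sum_add_distrib]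
    · intro a g
      funext r
      simp only [Pi.smul_apply, smul_eq_mul, RingHom.id_apply, mul_sum, mul_assoc]
  have hinj : Function.Injective Φ := by
    rw [injective_iff_map_eq_zero]
    intro g hg
    apply h
    intro r
    rw [← hΦ, hg, Pi.zero_apply]
  obtain ⟨τ, hτ⟩ : ∃ τ : Dual K (ι → K), ∀ g, τ g = ∑ u, t u * g u := by
    refine ⟨{ toFun := fun g => ∑ u, t u * g u, map_add' := ?_, map_smul' := ?_ }, fun _ => rfl⟩
    · intro g g'
      simp only [Pi.add_apply, mul_add, sum_add_distrib]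
    · intro a g
      simp only [Pi.smul_apply, smul_eq_mul, RingHom.id_apply, mul_sum]
      exact sum_congr rfl fun u _ => by ring
  obtain ⟨φ, hφ⟩ := LinearMap.dualMap_surjective_of_injective hinj τ
  refine ⟨fun r => φ (Pi.single r 1), fun u => ?_⟩
  have h1 : τ (Pi.single u 1) = t u := by
    rw [hτ]
    simp [Pi.single_apply]
  rw [← h1, ← hφ, LinearMap.dualMap_apply]
  have h2 : Φ (Pi.single u 1) = ∑ r, M r u • (Pi.single r 1 : R → K) := by
    funext r
    rw [hΦ, Finset.sum_apply]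
    simp [Pi.single_apply]
  rw [h2, map_sum]
  refine sum_congr rfl fun r _ => ?_
  rw [map_smul, smul_eq_mul, mul_comm]

/-- a square injective matrix has an injective transpose -/
theorem dual_inj {R ι : Type} [Fintype R] [Fintype ι] (M : R → ι → K)
    (hc : Fintype.card R = Fintype.card ι)
    (h : ∀ g : ι → K, (∀ r, ∑ u, g u * M r u = 0) → g = 0) (c : R → K)
    (hc0 : ∀ u, ∑ r, c r * M r u = 0) : c = 0 := by
  classical
  obtain ⟨Φ, hΦ⟩ : ∃ Φ : (ι → K) →ₗ[K] (R → K), ∀ g r, Φ g r = ∑ u, g u * M r u := by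
    refine ⟨{ toFun := fun g r => ∑ u, g u * M r u, map_add' := ?_, map_smul' := ?_ }, fun _ _ => rfl⟩
    · intro g g'
      funext r
      simp only [Pi.add_apply, add_mul, sum_add_distrib]
    · intro a g
      funext r
      simp only [Pi.smul_apply, smul_eq_mul, RingHom.id_apply, mul_sum, mul_assoc]
  have hinj : Function.Injective Φ := by
    rw [injective_iff_map_eq_zero]
    intro g hg
    apply h
    intro r
    rw [← hΦ, hg, Pi.zero_apply]
  have hsur := (LinearMap.injective_iff_surjective_of_finrank_eq_finrank (by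
    rw [Module.finrank_fintype_fun_eq_card, Module.finrank_fintype_fun_eq_card, hc])).1 hinj
  funext r
  obtain ⟨g, hg⟩ := hsur (Pi.single r 1)
  have h1 : ∑ s, c s * Φ g s = 0 := by
    simp only [hΦ, mul_sum]
    rw [sum_comm]
    refine sum_eq_zero fun u _ => ?_
    have h2 := hc0 u
    calc ∑ s, c s * (g u * M s u) = g u * ∑ s, c s * M s u := by
          rw [mul_sum]
          exact sum_congr rfl fun s _ => by ring
      _ = 0 := by rw [h2, mul_zero]
  rw [hg] at h1
  simpa [Pi.single_apply] using h1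

end

end Pool.Agent.Helper65.Comp
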