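import Pool.Agent.Helper65.Comp.Clu
import Pool.Agent.TH641.UM.Ones

/-! Existence of the data of a cluster. -/

set_option autoImplicit false

namespace Pool.Agent.Helper65.Comp

open Finset Module Pool.Agent.TH176.Nag Pool.Agent.TH603.Sur Pool.Agent.TH763.DB
open Pool.Agent.TH641.UM

/-- the exponents of degree less than `b` -/
noncomputable def TriF (b : ℕ) : Finset (ℤ × ℤ) :=
  ((range b ×ˢ range b).filter (fun p => p.1 + p.2 < b)).image (fun p => ((p.1 : ℤ), (p.2 : ℤ)))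

theorem mem_TriF {b : ℕ} {u : ℤ × ℤ} : u ∈ TriF b ↔ 0 ≤ u.1 ∧ 0 ≤ u.2 ∧ u.1 + u.2 < b := by
  unfold TriF
  rw [mem_image]
  constructor
  · rintro ⟨⟨k, l⟩, h, rfl⟩
    rw [mem_filter] at h
    simp only at h ⊢
    omega
  · rintro ⟨h1, h2, h3⟩
    refine ⟨(u.1.toNat, u.2.toNat), ?_, ?_⟩
    · rw [mem_filter, mem_product, mem_range, mem_range]
      simp only
      omega
    · simp only
      ext
      · simp only
        omega
      · simp only
        omega

theorem coe_TriF_succ (d : ℕ) : (↑(TriF (d + 1)) : Set (ℤ × ℤ)) = TZ d := by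
  ext u
  rw [mem_coe, mem_TriF]
  unfold TZ
  rw [Set.mem_ofPred_eq]
  push_cast
  constructor
  · rintro ⟨h1, h2, h3⟩
    exact ⟨h1, h2, by omega⟩
  · rintro ⟨h1, h2, h3⟩
    exact ⟨h1, h2, by omega⟩

theorem card_TriF (b : ℕ) : (TriF b).card = (b + 1).choose 2 := by
  rcases Nat.eq_zero_or_pos b with rfl | hb
  · rfl
  · obtain ⟨d, rfl⟩ := Nat.exists_eq_succ_of_ne_zero hb.ne'
    have h1 : TriF (d + 1) = TF d := by
      apply Finset.coe_injective
      rw [coe_TriF_succ, coe_TF]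
    rw [Nat.succ_eq_add_one, h1, card_TF]

theorem card_RR {q : ℕ} (w : Fin q → ℕ) : Fintype.card (RR w) = cond w := by
  rw [Fintype.card_sigma]
  unfold Pool.Agent.TH603.Sur.cond
  refine sum_congr rfl fun j _ => ?_
  rw [Fintype.card_sigma]
  simp only [Fintype.card_fin]
  rw [Fin.sum_univ_eq_sum_range (fun i => w j - i) (w j)]
  have : ∀ n : ℕ, ∑ i ∈ range n, (n - i) = (n + 1).choose 2 := by
    intro n
    induction n with
    | zero => simp
    | succ n ih =>
      rw [sum_range_succ', Nat.choose_succ_succ' (n + 1) 1, Nat.choose_one_right]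
      have : ∑ k ∈ range n, (n + 1 - (k + 1)) = ∑ i ∈ range n, (n - i) :=
        sum_congr rfl fun i _ => by omega
      rw [this, ih, Nat.sub_zero, Nat.add_comm]
  exact this (w j)

section
variable {K : Type} [Field K] [CharZero K]

/-- emptiness at given points -/
def EmpAt {q : ℕ} (w : Fin q → ℕ) (A B : Fin q → K) (T : Finset (ℤ × ℤ)) : Prop :=
  ∀ f : (ℤ × ℤ) →₀ K, (↑f.support : Set (ℤ × ℤ)) ⊆ (↑T : Set (ℤ × ℤ)) →
      (∀ j, LM f (A j) (B j) (w j)) → f = 0

theorem low_of_emp {q : ℕ} {w : Fin q → ℕ} {A B : Fin q → K} (hA : ∀ j, A j ≠ 0)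
    (hB : ∀ j, B j ≠ 0) {b : ℕ} (hE : EmpAt w A B (TriF b)) {k l : ℕ} (hkl : k + l < b) :
    ∃ c : RR w → K, ∀ k' l', k' + l' < b → Lam w A B c k' l' = if k' = k ∧ l' = l then 1 else 0 := by
  classical
  obtain ⟨c, hc⟩ := dual_surj (R := RR w) (ι := TriF b)
    (fun r u => mv w A B r u.1.1.toNat u.1.2.toNat)
    (fun g hg => inj_of_emp hA hB (fun u hu => ⟨(mem_TriF.1 hu).1, (mem_TriF.1 hu).2.1⟩) hE g hg)
    (fun u => if u.1.1.toNat = k ∧ u.1.2.toNat = l then 1 else 0)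
  refine ⟨c, fun k' l' h' => ?_⟩
  have h1 := hc ⟨((k' : ℤ), (l' : ℤ)), mem_TriF.2 ⟨by positivity, by positivity, by
    simp only; exact_mod_cast h'⟩⟩
  simp only [Int.toNat_natCast] at h1
  exact h1

theorem Lam_add {q : ℕ} {w : Fin q → ℕ} {A B : Fin q → K} (c c' : RR w → K) (k l : ℕ) :
    Lam w A B (c + c') k l = Lam w A B c k l + Lam w A B c' k l := by
  unfold Lam
  simp only [Pi.add_apply, add_mul, sum_add_distrib]

theorem Lam_smul {q : ℕ} {w : Fin q → ℕ} {A B : Fin q → K} (a : K) (c : RR w → K) (k l : ℕ) :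
    Lam w A B (a • c) k l = a * Lam w A B c k l := by
  unfold Lam
  simp only [Pi.smul_apply, smul_eq_mul, mul_sum, mul_assoc]

theorem top_of_emp {q : ℕ} {w : Fin q → ℕ} {A B : Fin q → K} (hA : ∀ j, A j ≠ 0)
    (hB : ∀ j, B j ≠ 0) {b μ : ℕ} {T : Finset (ℤ × ℤ)} (hTb : T ⊆ TriF (b + 1))
    (hTc : T.card = cond w) (hE : EmpAt w A B T) (hμ : (b + 1).choose 2 + μ ≤ cond w) :
    ∃ I : Finset ℕ, I.card = μ ∧ ∀ k ∈ I, k ≤ b ∧ ∃ c : RR w → K,
      (∀ k' l', k' + l' < b → Lam w A B c k' l' = 0) ∧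
      Lam w A B c k (b - k) = 1 ∧ ∀ k', k < k' → k' ≤ b → Lam w A B c k' (b - k') = 0 := by
  classical
  obtain ⟨Ψ, hΨ⟩ : ∃ Ψ : (RR w → K) →ₗ[K] (TriF b → K),
      ∀ c u, Ψ c u = Lam w A B c u.1.1.toNat u.1.2.toNat := by
    refine ⟨{ toFun := fun c u => Lam w A B c u.1.1.toNat u.1.2.toNat
              map_add' := ?_
              map_smul' := ?_ }, fun _ _ => rfl⟩
    · intro c c'
      funext u
      exact Lam_add _ _ _ _
    · intro a c
      funext u
      exact Lam_smul _ _ _ _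
  have hker : ∀ c ∈ LinearMap.ker Ψ, ∀ k' l', k' + l' < b → Lam w A B c k' l' = 0 := by
    intro c hc k' l' h'
    have h1 := congrFun (LinearMap.mem_ker.1 hc) ⟨((k' : ℤ), (l' : ℤ)), mem_TriF.2
      ⟨by positivity, by positivity, by simp only; exact_mod_cast h'⟩⟩
    rw [hΨ] at h1
    simpa only [Int.toNat_natCast, Pi.zero_apply] using h1
  have hdim : μ ≤ finrank K (LinearMap.ker Ψ) := by
    have h1 := LinearMap.finrank_range_add_finrank_ker Ψ
    rw [Module.finrank_fintype_fun_eq_card, card_RR] at h1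
    have h2 : finrank K (LinearMap.range Ψ) ≤ (b + 1).choose 2 := by
      have h3 := Submodule.finrank_le (LinearMap.range Ψ)
      rw [Module.finrank_fintype_fun_eq_card, Fintype.card_coe, card_TriF] at h3
      exact h3
    omega
  obtain ⟨I0, hI0⟩ : ∃ I0 : Finset ℕ, I0 = (range (b + 1)).filter fun k =>
      ∃ c ∈ LinearMap.ker Ψ, Lam w A B c k (b - k) ≠ 0 ∧
        ∀ k', k < k' → k' ≤ b → Lam w A B c k' (b - k') = 0 := ⟨_, rfl⟩
  -- the leading coefficients
  obtain ⟨Θ, hΘ⟩ : ∃ Θ : LinearMap.ker Ψ →ₗ[K] (I0 → K), ∀ c k, Θ c k = Lam w A B c.1 k.1 (b - k.1) := by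
    refine ⟨{ toFun := fun c k => Lam w A B c.1 k.1 (b - k.1)
              map_add' := ?_
              map_smul' := ?_ }, fun _ _ => rfl⟩
    · intro c c'
      funext u
      exact Lam_add _ _ _ _
    · intro a c
      funext u
      exact Lam_smul _ _ _ _
  have hinj : Function.Injective Θ := by
    rw [injective_iff_map_eq_zero]
    intro c hc
    have htop : ∀ k ≤ b, Lam w A B c.1 k (b - k) = 0 := by
      by_contra hcon
      push Not at hcon
      obtain ⟨k1, hk1, hk1'⟩ := hcon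
      obtain ⟨F, hF⟩ : ∃ F : Finset ℕ, F = (range (b + 1)).filter fun k => Lam w A B c.1 k (b - k) ≠ 0 :=
        ⟨_, rfl⟩
      have hne : F.Nonempty := ⟨k1, by rw [hF, mem_filter, mem_range]; exact ⟨by omega, hk1'⟩⟩
      have hmax := F.max'_mem hne
      set k0 := F.max' hne with hk0
      have h1 : k0 ∈ (range (b + 1)).filter fun k => Lam w A B c.1 k (b - k) ≠ 0 := by rw [← hF]; exact hmax
      rw [mem_filter, mem_range] at h1
      have h2 : k0 ∈ I0 := by
        rw [hI0, mem_filter, mem_range]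
        refine ⟨h1.1, c.1, c.2, h1.2, fun k' hk' hk'b => ?_⟩
        by_contra hne'
        have h3 : k' ∈ F := by rw [hF, mem_filter, mem_range]; exact ⟨by omega, hne'⟩
        have h4 := F.le_max' k' h3
        omega
      have h3 := congrFun hc ⟨k0, h2⟩
      rw [hΘ] at h3
      exact h1.2 h3
    apply Subtype.ext
    have h5 : EmpAt w A B T := hE
    refine dual_inj (R := RR w) (ι := T) (fun r u => mv w A B r u.1.1.toNat u.1.2.toNat)
      (by rw [card_RR, Fintype.card_coe, hTc])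
      (fun g hg => inj_of_emp hA hB (fun u hu => ⟨(mem_TriF.1 (hTb hu)).1, (mem_TriF.1 (hTb hu)).2.1⟩)
        hE g hg) c.1 ?_
    intro u
    have h6 : Lam w A B c.1 u.1.1.toNat u.1.2.toNat = 0 := by
      obtain ⟨p1, p2, p3⟩ := mem_TriF.1 (hTb u.2)
      rcases lt_or_ge (u.1.1.toNat + u.1.2.toNat) b with h7 | h7
      · exact hker c.1 c.2 _ _ h7
      · have e1 : u.1.2.toNat = b - u.1.1.toNat := by
          push_cast at p3
          omega
        rw [e1]
        apply htop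
        push_cast at p3
        omega
    exact h6
  have hcard : μ ≤ I0.card := by
    have h1 := LinearMap.finrank_le_finrank_of_injective hinj
    rw [Module.finrank_fintype_fun_eq_card, Fintype.card_coe] at h1
    omega
  obtain ⟨I, hI, hIc⟩ := exists_subset_card_eq hcard
  refine ⟨I, hIc, fun k hk => ?_⟩
  have h1 := hI hk
  rw [hI0, mem_filter, mem_range] at h1
  obtain ⟨h2, c, hc, h3, h4⟩ := h1
  refine ⟨by omega, (Lam w A B c k (b - k))⁻¹ • c, ?_, ?_, ?_⟩
  · intro k' l' h'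
    rw [Lam_smul, hker c hc k' l' h', mul_zero]
  · rw [Lam_smul]
    exact inv_mul_cancel₀ h3
  · intro k' h5 h6
    rw [Lam_smul, h4 k' h5 h6, mul_zero]

end

/-- the data of a cluster -/
structure Cl {q : ℕ} (w : Fin q → ℕ) (b : ℕ) (I : Finset ℕ) (A B : Fin q → ℚ) : Prop where
  low : ∀ k l, k + l < b → ∃ c : RR w → ℚ, ∀ k' l', k' + l' < b →
    Lam w A B c k' l' = if k' = k ∧ l' = l then 1 else 0
  top : ∀ k ∈ I, k ≤ b ∧ ∃ c : RR w → ℚ, (∀ k' l', k' + l' < b → Lam w A B c k' l' = 0) ∧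
    Lam w A B c k (b - k) = 1 ∧ ∀ k', k < k' → k' ≤ b → Lam w A B c k' (b - k') = 0

theorem exists_pt {σ : Type} {F : MvPolynomial σ ℚ} (hF : F ≠ 0) :
    ∃ P : σ → ℚ, MvPolynomial.eval P F ≠ 0 := by
  by_contra hcon
  push Not at hcon
  exact hF (MvPolynomial.funext fun v => by rw [hcon v, map_zero])

/-- **The data of a cluster** exist as soon as the cluster is empty in degree `b - 1` and
independent in degree `b`. -/
theorem exists_Cl {q : ℕ} {w : Fin q → ℕ} {b μ : ℕ} (h1 : Emp w (↑(TriF b) : Set (ℤ × ℤ)))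
    (h2 : Sur w (TZ b)) (hμ : (b + 1).choose 2 + μ ≤ cond w) :
    ∃ (A B : Fin q → ℚ) (I : Finset ℕ), I.card = μ ∧ Cl w b I A B := by
  obtain ⟨T, hT, hTc, hTE⟩ := h2
  have hTb : T ⊆ TriF (b + 1) := by
    intro u hu
    have := hT (mem_coe.2 hu)
    rw [← coe_TriF_succ] at this
    exact mem_coe.1 this
  obtain ⟨F, hF, hF'⟩ := Emp_open (TriF b).finite_toSet
    (fun u hu => ⟨(mem_TriF.1 (mem_coe.1 hu)).1, (mem_TriF.1 (mem_coe.1 hu)).2.1⟩) h1
  obtain ⟨G, hG, hG'⟩ := Emp_open T.finite_toSet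
    (fun u hu => ⟨(mem_TriF.1 (hTb (mem_coe.1 hu))).1, (mem_TriF.1 (hTb (mem_coe.1 hu))).2.1⟩) hTE
  obtain ⟨P, hP⟩ := exists_pt (mul_ne_zero hF hG)
  rw [map_mul] at hP
  have hPF : MvPolynomial.aeval P F ≠ 0 := by
    rw [MvPolynomial.aeval_eq_eval]
    exact left_ne_zero_of_mul hP
  have hPG : MvPolynomial.aeval P G ≠ 0 := by
    rw [MvPolynomial.aeval_eq_eval]
    exact right_ne_zero_of_mul hP
  obtain ⟨h3, h4⟩ := hF' P hPF
  obtain ⟨-, h5⟩ := hG' P hPG
  obtain ⟨I, hI, hI'⟩ := top_of_emp (K := ℚ) (w := w) (A := fun j => P (j, 0)) (B := fun j => P (j, 1))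
    (fun j => h3 _) (fun j => h3 _) hTb hTc (fun f hf hL => h5 f hf hL) hμ
  refine ⟨fun j => P (j, 0), fun j => P (j, 1), I, hI, ⟨fun k l hkl => ?_, hI'⟩⟩
  exact low_of_emp (K := ℚ) (w := w) (A := fun j => P (j, 0)) (B := fun j => P (j, 1))
    (fun j => h3 _) (fun j => h3 _) (fun f hf hL => h4 f hf hL) hkl

/-- the data in degree less than `b` only -/
theorem exists_Cl0 {q : ℕ} {w : Fin q → ℕ} {b : ℕ} (h1 : Emp w (↑(TriF b) : Set (ℤ × ℤ))) :
    ∃ (A B : Fin q → ℚ), Cl w b ∅ A B := by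
  obtain ⟨F, hF, hF'⟩ := Emp_open (TriF b).finite_toSet
    (fun u hu => ⟨(mem_TriF.1 (mem_coe.1 hu)).1, (mem_TriF.1 (mem_coe.1 hu)).2.1⟩) h1
  obtain ⟨P, hP⟩ := exists_pt hF
  have hPF : MvPolynomial.aeval P F ≠ 0 := by
    rw [MvPolynomial.aeval_eq_eval]
    exact hP
  obtain ⟨h3, h4⟩ := hF' P hPF
  refine ⟨fun j => P (j, 0), fun j => P (j, 1), ⟨fun k l hkl => ?_, fun k hk => absurd hk (notMem_empty k)⟩⟩
  exact low_of_emp (K := ℚ) (w := w) (A := fun j => P (j, 0)) (B := fun j => P (j, 1))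
    (fun j => h3 _) (fun j => h3 _) (fun f hf hL => h4 f hf hL) hkl

/-- the values over a field of characteristic zero -/
theorem Lam_cast {K : Type} [Field K] [CharZero K] {q : ℕ} {w : Fin q → ℕ} (A B : Fin q → ℚ)
    (c : RR w → ℚ) (k l : ℕ) :
    Lam w (fun j => (A j : K)) (fun j => (B j : K)) (fun r => (c r : K)) k l =
      ((Lam w A B c k l : ℚ) : K) := by
  unfold Lam mv
  push_cast
  refine sum_congr rfl fun r _ => ?_
  congr 1
  rw [coeff_Xe, coeff_Xe, coeff_Xe, coeff_Xe]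
  split_ifs <;> push_cast <;> rfl

end Pool.Agent.Helper65.Comp
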