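import Mathlib

/-! Disjoint sets of equal cardinality and equal sum: additive energies. -/

set_option autoImplicit false

namespace Pool.Agent.Helper65.Comp.En

open Finset

section

variable {Y : Type} [Fintype Y] [DecidableEq Y] {q : ℕ} [NeZero q]

/-- the number of `k`-tuples with a given sum -/
def T (a : Y → ZMod q) (k : ℕ) (t : ZMod q) : ℕ :=
  ∑ f : Fin k → Y, if ∑ i, a (f i) = t then 1 else 0

theorem T_zero (a : Y → ZMod q) (t : ZMod q) : T a 0 t = if t = 0 then 1 else 0 := by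
  unfold T
  simp [eq_comm]

/-- splitting off a coordinate -/
theorem split {k : ℕ} (i : Fin (k + 1)) (F : (Fin (k + 1) → Y) → ℕ) :
    ∑ f, F f = ∑ y : Y, ∑ g : Fin k → Y, F (i.insertNth y g) := by
  rw [← (Fin.insertNthEquiv (fun _ => Y) i).sum_comp, Fintype.sum_prod_type]
  rfl

theorem T_ins (a : Y → ZMod q) {k : ℕ} (i : Fin (k + 1)) (y : Y) (t : ZMod q) :
    (∑ g : Fin k → Y, if ∑ l, a ((i.insertNth y g : Fin (k + 1) → Y) l) = t then 1 else 0) =
      T a k (t - a y) := by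
  unfold T
  refine sum_congr rfl fun g _ => ?_
  rw [Fin.sum_univ_succAbove _ i]
  simp only [Fin.insertNth_apply_same, Fin.insertNth_apply_succAbove]
  congr 1
  exact propext ⟨fun h => by rw [← h]; ring, fun h => by rw [h]; ring⟩

theorem T_succ (a : Y → ZMod q) (k : ℕ) (t : ZMod q) :
    T a (k + 1) t = ∑ y, T a k (t - a y) := by
  have h := split (0 : Fin (k + 1)) (fun f : Fin (k + 1) → Y => if ∑ l, a (f l) = t then 1 else 0)
  rw [show T a (k + 1) t = ∑ f : Fin (k + 1) → Y, if ∑ i, a (f i) = t then 1 else 0 from rfl, h]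
  exact sum_congr rfl fun y _ => T_ins a 0 y t

/-- tuples with a coordinate in a set -/
theorem cnt1 (a : Y → ZMod q) {k : ℕ} (i : Fin (k + 1)) (U : Finset Y) (t : ZMod q) :
    (∑ f : Fin (k + 1) → Y, if ∑ l, a (f l) = t ∧ f i ∈ U then 1 else 0) =
      ∑ y ∈ U, T a k (t - a y) := by
  rw [split i]
  have h : ∀ y, (∑ g : Fin k → Y, if ∑ l, a ((i.insertNth y g : Fin (k + 1) → Y) l) = t ∧
      (i.insertNth y g : Fin (k + 1) → Y) i ∈ U then 1 else 0) =
      if y ∈ U then T a k (t - a y) else 0 := by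
    intro y
    simp only [Fin.insertNth_apply_same]
    by_cases hy : y ∈ U
    · simp only [hy, and_true, if_true]
      exact T_ins a i y t
    · simp [hy]
  rw [sum_congr rfl fun y _ => h y, ← sum_filter, filter_mem_eq_inter, univ_inter]

/-- tuples with two equal coordinates -/
theorem cnt2 (a : Y → ZMod q) {k : ℕ} {i j : Fin (k + 2)} (hij : i ≠ j) (t : ZMod q) :
    (∑ f : Fin (k + 2) → Y, if ∑ l, a (f l) = t ∧ f i = f j then 1 else 0) =
      ∑ y, T a k (t - a y - a y) := by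
  obtain ⟨j', rfl⟩ := Fin.exists_succAbove_eq (Ne.symm hij)
  rw [split i]
  refine sum_congr rfl fun y _ => ?_
  have h : ∀ g : Fin (k + 1) → Y, (if ∑ l, a ((i.insertNth y g : Fin (k + 2) → Y) l) = t ∧
      (i.insertNth y g : Fin (k + 2) → Y) i = (i.insertNth y g : Fin (k + 2) → Y) (i.succAbove j')
      then 1 else 0) = if ∑ l, a (g l) = t - a y ∧ g j' ∈ ({y} : Finset Y) then 1 else 0 := by
    intro g
    rw [Fin.sum_univ_succAbove _ i]
    simp only [Fin.insertNth_apply_same, Fin.insertNth_apply_succAbove, mem_singleton]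
    congr 1
    exact propext ⟨fun h => ⟨by rw [← h.1]; ring, h.2.symm⟩, fun h => ⟨by rw [h.1]; ring, h.2.symm⟩⟩
  rw [sum_congr rfl fun g _ => h g, cnt1, sum_singleton]

/-- the additive energy -/
noncomputable def E (a : Y → ZMod q) (k : ℕ) : ℝ := ∑ t, (T a k t : ℝ) ^ 2

theorem E_zero (a : Y → ZMod q) : E a 0 = 1 := by
  unfold E
  simp [T_zero]

theorem shift (F : ZMod q → ℝ) (c : ZMod q) : ∑ t, F (t - c) = ∑ t, F t :=
  (Equiv.subRight c).sum_comp F

theorem total (a : Y → ZMod q) (k : ℕ) : ∑ t, T a k t = Fintype.card Y ^ k := by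
  unfold T
  rw [sum_comm]
  simp

theorem lower (a : Y → ZMod q) (k : ℕ) : ((Fintype.card Y : ℝ) ^ k) ^ 2 ≤ q * E a k := by
  have h := sq_sum_le_card_mul_sum_sq (s := (univ : Finset (ZMod q))) (f := fun t => (T a k t : ℝ))
  rw [card_univ, ZMod.card] at h
  have h2 : ∑ t, (T a k t : ℝ) = (Fintype.card Y : ℝ) ^ k := by
    rw [← Nat.cast_sum, total]
    push_cast
    rfl
  rw [h2] at h
  exact h

theorem conv (a : Y → ZMod q) (k : ℕ) : E a (k + 1) ^ 2 ≤ E a k * E a (k + 2) := by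
  obtain ⟨D, hD⟩ : ∃ D : ZMod q → ℝ, ∀ s, D s = ∑ y, (T a (k + 1) (s + a y) : ℝ) :=
    ⟨_, fun _ => rfl⟩
  have h1 : E a (k + 1) = ∑ s, (T a k s : ℝ) * D s := by
    have e1 : E a (k + 1) = ∑ y, ∑ s, (T a (k + 1) s : ℝ) * (T a k (s - a y) : ℝ) := by
      unfold E
      rw [sum_comm]
      refine sum_congr rfl fun s _ => ?_
      rw [sq, ← mul_sum]
      congr 1
      rw [T_succ]
      push_cast
      rfl
    rw [e1]
    have e2 : ∀ y, ∑ s, (T a (k + 1) s : ℝ) * (T a k (s - a y) : ℝ) =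
        ∑ s, (T a k s : ℝ) * (T a (k + 1) (s + a y) : ℝ) := by
      intro y
      have := shift (fun s => (T a k s : ℝ) * (T a (k + 1) (s + a y) : ℝ)) (a y)
      rw [← this]
      refine sum_congr rfl fun s _ => ?_
      rw [sub_add_cancel, mul_comm]
    rw [sum_congr rfl fun y _ => e2 y, sum_comm]
    refine sum_congr rfl fun s _ => ?_
    rw [hD, mul_sum]
  have h2 : ∑ s, D s ^ 2 = E a (k + 2) := by
    have e1 : E a (k + 2) = ∑ y, ∑ z, ∑ s, (T a (k + 1) (s - a z) : ℝ) * (T a (k + 1) (s - a y) : ℝ) := by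
      unfold E
      have : ∀ s, ((T a (k + 2) s : ℕ) : ℝ) ^ 2 =
          ∑ y, ∑ z, (T a (k + 1) (s - a z) : ℝ) * (T a (k + 1) (s - a y) : ℝ) := by
        intro s
        rw [T_succ, sq]
        push_cast
        rw [sum_mul_sum]
        rw [sum_comm]
      rw [sum_congr rfl fun s _ => this s, sum_comm]
      refine sum_congr rfl fun y _ => ?_
      rw [sum_comm]
    have e2 : ∑ s, D s ^ 2 = ∑ y, ∑ z, ∑ s, (T a (k + 1) (s + a y) : ℝ) * (T a (k + 1) (s + a z) : ℝ) := by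
      have : ∀ s, D s ^ 2 = ∑ y, ∑ z, (T a (k + 1) (s + a y) : ℝ) * (T a (k + 1) (s + a z) : ℝ) := by
        intro s
        rw [hD, sq, sum_mul_sum]
      rw [sum_congr rfl fun s _ => this s, sum_comm]
      refine sum_congr rfl fun y _ => ?_
      rw [sum_comm]
    rw [e1, e2]
    refine sum_congr rfl fun y _ => sum_congr rfl fun z _ => ?_
    have := shift (fun s => (T a (k + 1) (s + a y) : ℝ) * (T a (k + 1) (s + a z) : ℝ)) (a y + a z)
    rw [← this]
    refine sum_congr rfl fun s _ => ?_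
    rw [show s - (a y + a z) + a y = s - a z by ring, show s - (a y + a z) + a z = s - a y by ring]
  have h3 := sum_mul_sq_le_sq_mul_sq (univ : Finset (ZMod q)) (fun s => (T a k s : ℝ)) D
  rw [← h1, h2] at h3
  exact h3

theorem E_nonneg (a : Y → ZMod q) (k : ℕ) : 0 ≤ E a k := sum_nonneg fun _ _ => sq_nonneg _

theorem E_pos (a : Y → ZMod q) (k : ℕ) (hY : 0 < Fintype.card Y) : 0 < E a k := by
  have h := lower a k
  have h1 : (0 : ℝ) < Fintype.card Y := by exact_mod_cast hY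
  have h2 : 0 < (q : ℝ) * E a k := lt_of_lt_of_le (by positivity) h
  exact pos_of_mul_pos_right h2 (by positivity)

theorem pow_conv (a : Y → ZMod q) (hY : 0 < Fintype.card Y) (k : ℕ) :
    E a k ^ (k + 1) ≤ E a (k + 1) ^ k := by
  induction k with
  | zero => simp [E_zero]
  | succ k ih =>
    have h0 := E_pos a k hY
    have h1 := E_pos a (k + 1) hY
    have h2 := E_pos a (k + 2) hY
    have h3 : (E a (k + 1) ^ 2) ^ (k + 1) ≤ (E a k * E a (k + 2)) ^ (k + 1) :=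
      pow_le_pow_left₀ (by positivity) (conv a k) _
    rw [mul_pow] at h3
    have h4 : (E a (k + 1) ^ 2) ^ (k + 1) ≤ E a (k + 1) ^ k * E a (k + 2) ^ (k + 1) :=
      h3.trans (mul_le_mul_of_nonneg_right ih (by positivity))
    have h5 : (E a (k + 1) ^ 2) ^ (k + 1) = E a (k + 1) ^ k * E a (k + 1) ^ (k + 1 + 1) := by
      rw [← pow_mul, ← pow_add]
      congr 1
      ring
    rw [h5] at h4
    exact le_of_mul_le_mul_left h4 (by positivity)

/-- the ratio of consecutive energies -/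
theorem ratio (a : Y → ZMod q) (hY : 0 < Fintype.card Y) (k : ℕ) :
    ((Fintype.card Y : ℝ) ^ (k + 1)) ^ 2 ≤ q * (E a (k + 1) / E a k) ^ (k + 1) := by
  have h0 := E_pos a k hY
  have h1 := E_pos a (k + 1) hY
  refine (lower a (k + 1)).trans ?_
  apply mul_le_mul_of_nonneg_left _ (by positivity)
  rw [div_pow, le_div_iff₀ (by positivity)]
  have := pow_conv a hY k
  calc E a (k + 1) * E a k ^ (k + 1) ≤ E a (k + 1) * E a (k + 1) ^ k :=
        mul_le_mul_of_nonneg_left this h1.le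
    _ = E a (k + 1) ^ (k + 1) := by ring

/-- if the `k`-sets with sum `t` meet a set `U`, there are few tuples -/
theorem upper (a : Y → ZMod q) {k : ℕ} {t : ZMod q} {U : Finset Y}
    (hU : ∀ V : Finset Y, V.card = k + 2 → ∑ y ∈ V, a y = t → ¬ Disjoint V U) :
    T a (k + 2) t ≤ (k + 2) * ∑ y ∈ U, T a (k + 1) (t - a y) +
      (k + 2) ^ 2 * ∑ y, T a k (t - a y - a y) := by
  classical
  have key : ∀ f : Fin (k + 2) → Y, (if ∑ l, a (f l) = t then 1 else 0) ≤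
      (∑ i : Fin (k + 2), if ∑ l, a (f l) = t ∧ f i ∈ U then 1 else 0) +
      ∑ p ∈ (univ : Finset (Fin (k + 2) × Fin (k + 2))).filter (fun p => p.1 ≠ p.2),
        if ∑ l, a (f l) = t ∧ f p.1 = f p.2 then 1 else 0 := by
    intro f
    by_cases ht : ∑ l, a (f l) = t
    · rw [if_pos ht]
      by_cases hf : Function.Injective f
      · have hV := hU (univ.image f) (by rw [card_image_of_injective _ hf]; simp)
          (by rw [sum_image fun x _ y _ h => hf h]; exact ht)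
        rw [not_disjoint_iff] at hV
        obtain ⟨y, hy1, hy2⟩ := hV
        obtain ⟨i, -, rfl⟩ := mem_image.1 hy1
        have : 1 ≤ ∑ i : Fin (k + 2), if ∑ l, a (f l) = t ∧ f i ∈ U then 1 else 0 := by
          refine le_trans ?_ (single_le_sum (f := fun i => if ∑ l, a (f l) = t ∧ f i ∈ U then 1 else 0)
            (fun _ _ => Nat.zero_le _) (mem_univ i))
          simp only [ht, hy2, and_self, if_true, le_refl]
        omega
      · unfold Function.Injective at hf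
        push Not at hf
        obtain ⟨i, j, h1, h2⟩ := hf
        have : 1 ≤ ∑ p ∈ (univ : Finset (Fin (k + 2) × Fin (k + 2))).filter (fun p => p.1 ≠ p.2),
            if ∑ l, a (f l) = t ∧ f p.1 = f p.2 then 1 else 0 := by
          refine le_trans ?_ (single_le_sum
            (f := fun p : Fin (k + 2) × Fin (k + 2) => if ∑ l, a (f l) = t ∧ f p.1 = f p.2 then 1 else 0)
            (fun _ _ => Nat.zero_le _) (a := (i, j)) (mem_filter.2 ⟨mem_univ _, h2⟩))
          simp only [ht, h1, and_self, if_true, le_refl]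
        omega
    · rw [if_neg ht]
      exact Nat.zero_le _
  have h1 : T a (k + 2) t ≤ ∑ f : Fin (k + 2) → Y,
      ((∑ i : Fin (k + 2), if ∑ l, a (f l) = t ∧ f i ∈ U then 1 else 0) +
      ∑ p ∈ (univ : Finset (Fin (k + 2) × Fin (k + 2))).filter (fun p => p.1 ≠ p.2),
        if ∑ l, a (f l) = t ∧ f p.1 = f p.2 then 1 else 0) := sum_le_sum fun f _ => key f
  refine h1.trans ?_
  rw [sum_add_distrib]
  apply Nat.add_le_add
  · rw [sum_comm]
    rw [sum_congr rfl fun i _ => cnt1 a i U t]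
    simp
  · rw [sum_comm]
    have h2 : ∀ p ∈ (univ : Finset (Fin (k + 2) × Fin (k + 2))).filter (fun p => p.1 ≠ p.2),
        (∑ f : Fin (k + 2) → Y, if ∑ l, a (f l) = t ∧ f p.1 = f p.2 then 1 else 0) =
          ∑ y, T a k (t - a y - a y) := by
      intro p hp
      exact cnt2 a (mem_filter.1 hp).2 t
    rw [sum_congr rfl h2, sum_const, smul_eq_mul]
    apply Nat.mul_le_mul_right
    refine (card_filter_le _ _).trans ?_
    simp [sq]

/-- the recursive inequality of the energies -/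
theorem rec (a : Y → ZMod q) {k A : ℕ} {U : ZMod q → Finset Y} (hA : ∀ t, (U t).card ≤ (k + 2) * A)
    (hU : ∀ t, ∀ V : Finset Y, V.card = k + 2 → ∑ y ∈ V, a y = t → ¬ Disjoint V (U t)) :
    E a (k + 2) ≤ 2 * ((k + 2 : ℝ) ^ 3 * A * Fintype.card Y) * E a (k + 1) +
      2 * ((k + 2 : ℝ) ^ 2 * Fintype.card Y) ^ 2 * E a k := by
  have h1 : ∀ t, ((T a (k + 2) t : ℕ) : ℝ) ^ 2 ≤
      2 * ((k + 2 : ℝ) ^ 3 * A) * ∑ y, (T a (k + 1) (t - a y) : ℝ) ^ 2 +
      2 * ((k + 2 : ℝ) ^ 4 * Fintype.card Y) * ∑ y, (T a k (t - a y - a y) : ℝ) ^ 2 := by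
    intro t
    have h2 : ((T a (k + 2) t : ℕ) : ℝ) ≤ (k + 2) * ∑ y ∈ U t, (T a (k + 1) (t - a y) : ℝ) +
      (k + 2) ^ 2 * ∑ y, (T a k (t - a y - a y) : ℝ) := by
      exact_mod_cast upper a (hU t)
    have h3 := sq_sum_le_card_mul_sum_sq (s := U t) (f := fun y => (T a (k + 1) (t - a y) : ℝ))
    have h4 := sq_sum_le_card_mul_sum_sq (s := (univ : Finset Y))
      (f := fun y => (T a k (t - a y - a y) : ℝ))
    have h5 : ∑ y ∈ U t, (T a (k + 1) (t - a y) : ℝ) ^ 2 ≤ ∑ y, (T a (k + 1) (t - a y) : ℝ) ^ 2 :=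
      sum_le_sum_of_subset_of_nonneg (subset_univ _) fun _ _ _ => sq_nonneg _
    have h6 : ((U t).card : ℝ) ≤ (k + 2) * A := by exact_mod_cast hA t
    have h7 : 0 ≤ ∑ y, (T a (k + 1) (t - a y) : ℝ) ^ 2 := sum_nonneg fun _ _ => sq_nonneg _
    have h8 : 0 ≤ ∑ y ∈ U t, (T a (k + 1) (t - a y) : ℝ) ^ 2 := sum_nonneg fun _ _ => sq_nonneg _
    obtain ⟨x, hx⟩ : ∃ x, x = ∑ y ∈ U t, (T a (k + 1) (t - a y) : ℝ) := ⟨_, rfl⟩
    obtain ⟨z, hz⟩ : ∃ z, z = ∑ y, (T a k (t - a y - a y) : ℝ) := ⟨_, rfl⟩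
    rw [← hx] at h2 h3
    rw [← hz, card_univ] at h4
    rw [← hz] at h2
    have hT0 : (0 : ℝ) ≤ T a (k + 2) t := by positivity
    have h9 : x ^ 2 ≤ (k + 2) * A * ∑ y, (T a (k + 1) (t - a y) : ℝ) ^ 2 := by
      refine h3.trans ?_
      exact (mul_le_mul_of_nonneg_right h6 h8).trans (mul_le_mul_of_nonneg_left h5 (by positivity))
    have h10 : ((T a (k + 2) t : ℕ) : ℝ) ^ 2 ≤ 2 * ((k + 2) * x) ^ 2 + 2 * ((k + 2) ^ 2 * z) ^ 2 := by
      have h11 := pow_le_pow_left₀ hT0 h2 2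
      refine h11.trans ?_
      nlinarith [sq_nonneg ((k + 2 : ℝ) * x - (k + 2) ^ 2 * z)]
    refine h10.trans ?_
    have h12 : 2 * ((k + 2 : ℝ) * x) ^ 2 ≤
        2 * ((k + 2 : ℝ) ^ 3 * A) * ∑ y, (T a (k + 1) (t - a y) : ℝ) ^ 2 := by
      have : 2 * (k + 2 : ℝ) ^ 2 * x ^ 2 ≤ 2 * (k + 2 : ℝ) ^ 2 *
          ((k + 2) * A * ∑ y, (T a (k + 1) (t - a y) : ℝ) ^ 2) :=
        mul_le_mul_of_nonneg_left h9 (by positivity)
      calc 2 * ((k + 2 : ℝ) * x) ^ 2 = 2 * (k + 2 : ℝ) ^ 2 * x ^ 2 := by ring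
        _ ≤ _ := this
        _ = _ := by ring
    have h13 : 2 * ((k + 2 : ℝ) ^ 2 * z) ^ 2 ≤
        2 * ((k + 2 : ℝ) ^ 4 * Fintype.card Y) * ∑ y, (T a k (t - a y - a y) : ℝ) ^ 2 := by
      have : 2 * (k + 2 : ℝ) ^ 4 * z ^ 2 ≤ 2 * (k + 2 : ℝ) ^ 4 *
          (Fintype.card Y * ∑ y, (T a k (t - a y - a y) : ℝ) ^ 2) :=
        mul_le_mul_of_nonneg_left h4 (by positivity)
      calc 2 * ((k + 2 : ℝ) ^ 2 * z) ^ 2 = 2 * (k + 2 : ℝ) ^ 4 * z ^ 2 := by ring
        _ ≤ _ := this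
        _ = _ := by ring
    exact add_le_add h12 h13
  have h2 : E a (k + 2) ≤ ∑ t, (2 * ((k + 2 : ℝ) ^ 3 * A) * ∑ y, (T a (k + 1) (t - a y) : ℝ) ^ 2 +
      2 * ((k + 2 : ℝ) ^ 4 * Fintype.card Y) * ∑ y, (T a k (t - a y - a y) : ℝ) ^ 2) :=
    sum_le_sum fun t _ => h1 t
  refine h2.trans (le_of_eq ?_)
  rw [sum_add_distrib, ← mul_sum, ← mul_sum]
  have h3 : ∑ t, ∑ y, (T a (k + 1) (t - a y) : ℝ) ^ 2 = Fintype.card Y * E a (k + 1) := by
    rw [sum_comm, sum_congr rfl fun y _ => shift (fun t => (T a (k + 1) t : ℝ) ^ 2) (a y), sum_const,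
      card_univ, nsmul_eq_mul]
    rfl
  have h4 : ∑ t, ∑ y, (T a k (t - a y - a y) : ℝ) ^ 2 = Fintype.card Y * E a k := by
    have : ∀ y, ∑ t, (T a k (t - a y - a y) : ℝ) ^ 2 = E a k := by
      intro y
      have e := shift (fun t => (T a k t : ℝ) ^ 2) (a y + a y)
      rw [show E a k = ∑ t, (T a k t : ℝ) ^ 2 from rfl, ← e]
      exact sum_congr rfl fun t _ => by rw [sub_sub]
    rw [sum_comm, sum_congr rfl fun y _ => this y, sum_const, card_univ, nsmul_eq_mul]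
  rw [h3, h4]
  ring

/-- **Many disjoint sets with a common sum.** -/
theorem exists_target (a : Y → ZMod q) {k A R : ℕ} (hA : 1 ≤ A) (hR : q < R ^ (k + 1))
    (hn : 4 * (k + 2) ^ 3 * A * R ≤ Fintype.card Y) :
    ∃ t : ZMod q, ∀ U : Finset Y, U.card ≤ (k + 2) * A →
      ∃ V : Finset Y, V.card = k + 2 ∧ ∑ y ∈ V, a y = t ∧ Disjoint V U := by
  by_contra hcon
  push Not at hcon
  choose U hU1 hU2 using hcon
  have hq : 0 < q := Nat.pos_of_ne_zero (NeZero.ne q)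
  have hR1 : 1 ≤ R := by
    rcases Nat.eq_zero_or_pos R with h | h
    · subst h
      simp at hR
    · exact h
  have hY : 0 < Fintype.card Y := by
    have : 0 < 4 * (k + 2) ^ 3 * A * R := by positivity
    omega
  have h1 := rec a hU1 hU2
  have e0 := E_pos a k hY
  have e1 := E_pos a (k + 1) hY
  have e2 := E_pos a (k + 2) hY
  have hc := conv a k
  obtain ⟨n, hn'⟩ : ∃ n : ℝ, n = Fintype.card Y := ⟨_, rfl⟩
  have hn0 : 0 < n := by rw [hn']; exact_mod_cast hY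
  have hnR : 4 * (k + 2 : ℝ) ^ 3 * A * R ≤ n := by rw [hn']; exact_mod_cast hn
  have hqR : (q : ℝ) < (R : ℝ) ^ (k + 1) := by exact_mod_cast hR
  have hA' : (1 : ℝ) ≤ A := by exact_mod_cast hA
  have hR' : (1 : ℝ) ≤ R := by exact_mod_cast hR1
  have hk : (0 : ℝ) ≤ k := by positivity
  have hq' : (0 : ℝ) < q := by exact_mod_cast hq
  rw [← hn'] at h1
  rcases le_total (2 * ((k + 2 : ℝ) ^ 2 * n) ^ 2 * E a k) (E a (k + 2) / 2) with h2 | h2
  · -- the first term dominates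
    have h3 : E a (k + 2) ≤ 4 * ((k + 2 : ℝ) ^ 3 * A * n) * E a (k + 1) := by linarith
    have h4 : E a (k + 2) / E a (k + 1) ≤ 4 * ((k + 2 : ℝ) ^ 3 * A * n) := by
      rw [div_le_iff₀ e1]
      exact h3
    have h5 := ratio a hY (k + 1)
    rw [← hn'] at h5
    have h6 : (n ^ (k + 2)) ^ 2 ≤ q * (4 * ((k + 2 : ℝ) ^ 3 * A * n)) ^ (k + 2) :=
      h5.trans (mul_le_mul_of_nonneg_left (pow_le_pow_left₀ (by positivity) h4 _) hq'.le)
    have h7 : n ^ (k + 2) * n ^ (k + 2) ≤ (q * (4 * (k + 2 : ℝ) ^ 3 * A) ^ (k + 2)) * n ^ (k + 2) := by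
      calc n ^ (k + 2) * n ^ (k + 2) = (n ^ (k + 2)) ^ 2 := by ring
        _ ≤ _ := h6
        _ = (q * (4 * (k + 2 : ℝ) ^ 3 * A) ^ (k + 2)) * n ^ (k + 2) := by
            rw [show 4 * ((k + 2 : ℝ) ^ 3 * A * n) = (4 * (k + 2 : ℝ) ^ 3 * A) * n by ring, mul_pow]
            ring
    have h8 := le_of_mul_le_mul_right h7 (by positivity)
    have h9 : (4 * (k + 2 : ℝ) ^ 3 * A * R) ^ (k + 2) ≤ n ^ (k + 2) :=
      pow_le_pow_left₀ (by positivity) hnR _
    rw [mul_pow] at h9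
    have h10 : (R : ℝ) ^ (k + 1) ≤ (R : ℝ) ^ (k + 2) := pow_le_pow_right₀ hR' (by omega)
    have h11 : 0 < (4 * (k + 2 : ℝ) ^ 3 * A) ^ (k + 2) := by positivity
    have h12 : (4 * (k + 2 : ℝ) ^ 3 * A) ^ (k + 2) * (R : ℝ) ^ (k + 2) ≤
        (4 * (k + 2 : ℝ) ^ 3 * A) ^ (k + 2) * q := by
      rw [mul_comm _ (q : ℝ)]
      exact h9.trans h8
    have h13 := le_of_mul_le_mul_left h12 h11
    linarith
  · -- the second term dominates
    have h3 : E a (k + 2) ≤ 4 * ((k + 2 : ℝ) ^ 2 * n) ^ 2 * E a k := by linarith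
    have h4 : (E a (k + 1) / E a k) ^ 2 ≤ (2 * ((k + 2 : ℝ) ^ 2 * n)) ^ 2 := by
      rw [div_pow, div_le_iff₀ (by positivity)]
      calc E a (k + 1) ^ 2 ≤ E a k * E a (k + 2) := hc
        _ ≤ E a k * (4 * ((k + 2 : ℝ) ^ 2 * n) ^ 2 * E a k) := mul_le_mul_of_nonneg_left h3 e0.le
        _ = _ := by ring
    have h5 : E a (k + 1) / E a k ≤ 2 * ((k + 2 : ℝ) ^ 2 * n) :=
      (pow_le_pow_iff_left₀ (by positivity) (by positivity) (by norm_num)).1 h4
    have h6 := ratio a hY k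
    rw [← hn'] at h6
    have h7 : (n ^ (k + 1)) ^ 2 ≤ q * (2 * ((k + 2 : ℝ) ^ 2 * n)) ^ (k + 1) :=
      h6.trans (mul_le_mul_of_nonneg_left (pow_le_pow_left₀ (by positivity) h5 _) hq'.le)
    have h8 : n ^ (k + 1) * n ^ (k + 1) ≤ (q * (2 * (k + 2 : ℝ) ^ 2) ^ (k + 1)) * n ^ (k + 1) := by
      calc n ^ (k + 1) * n ^ (k + 1) = (n ^ (k + 1)) ^ 2 := by ring
        _ ≤ _ := h7
        _ = (q * (2 * (k + 2 : ℝ) ^ 2) ^ (k + 1)) * n ^ (k + 1) := by
            rw [show 2 * ((k + 2 : ℝ) ^ 2 * n) = (2 * (k + 2 : ℝ) ^ 2) * n by ring, mul_pow]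
            ring
    have h9 := le_of_mul_le_mul_right h8 (by positivity)
    have h10 : 2 * (k + 2 : ℝ) ^ 2 * R ≤ n := by
      refine le_trans ?_ hnR
      have : 2 * (k + 2 : ℝ) ^ 2 ≤ 4 * (k + 2 : ℝ) ^ 3 * A := by
        have h11 : (k + 2 : ℝ) ^ 2 ≤ (k + 2 : ℝ) ^ 3 := pow_le_pow_right₀ (by linarith) (by norm_num)
        have h12 : (0 : ℝ) < (k + 2) ^ 2 := by positivity
        nlinarith
      exact mul_le_mul_of_nonneg_right this (by positivity)
    have h11 : (2 * (k + 2 : ℝ) ^ 2 * R) ^ (k + 1) ≤ n ^ (k + 1) :=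
      pow_le_pow_left₀ (by positivity) h10 _
    rw [mul_pow] at h11
    have h12 : (2 * (k + 2 : ℝ) ^ 2) ^ (k + 1) * (R : ℝ) ^ (k + 1) ≤
        (2 * (k + 2 : ℝ) ^ 2) ^ (k + 1) * q := by
      rw [mul_comm _ (q : ℝ)]
      exact h11.trans h9
    have h13 := le_of_mul_le_mul_left h12 (by positivity)
    linarith

end

end Pool.Agent.Helper65.Comp.En
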