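import Pool.Agent.Helper65.Comp.Asm
import Pool.Agent.TH545.SD.Dh

/-! Composition for systems with the expected dimension. -/

set_option autoImplicit false

namespace Pool.Agent.Helper65.Comp

open Finset Module Pool.Agent.TH176.Nag Pool.Agent.TH603.Sur Pool.Agent.TH763.DB
open Pool.Agent.TH641.UM Pool.Agent.TH2.NU Pool.Agent.TH545.SD

theorem ms_sigma {N : ℕ} {q : Fin N → ℕ} (w : ∀ i, Fin (q i) → ℕ) :
    ms (fun p : Σ i : Fin N, Fin (q i) => w p.1 p.2) = ∑ i, ms (w i) := by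
  unfold ms
  rw [Fintype.sum_sigma]

/-- transfer of independence from points of multiplicity `b i + 1` to clusters -/
theorem sur_clusters {N : ℕ} {q : Fin N → ℕ} {w : ∀ i, Fin (q i) → ℕ} {b : Fin N → ℕ}
    (hw : ∀ i, Sur (w i) (TZ (b i))) {κ : Type} [Fintype κ] {e : κ → ℕ} {S : Set (ℤ × ℤ)}
    (h : Sur (Sum.elim (fun i => b i + 1) e : Fin N ⊕ κ → ℕ) S) :
    Sur (Sum.elim (fun p : Σ i : Fin N, Fin (q i) => w p.1 p.2) e) S := by
  classical
  obtain ⟨T, hTS, hTc, hTE⟩ := h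
  have hcw : ∀ i, cond (w i) ≤ (b i + 1 + 1).choose 2 := by
    intro i
    obtain ⟨T0, h1, h2, -⟩ := hw i
    rw [← h2, show (b i + 1 + 1) = b i + 2 from rfl, ← card_TF]
    apply card_le_card
    intro u hu
    rw [← mem_coe, coe_TF]
    exact h1 (mem_coe.2 hu)
  obtain ⟨s, hs⟩ : ∃ s : Fin N → ℕ, ∀ i, cond (w i) + s i = (b i + 1 + 1).choose 2 :=
    ⟨fun i => (b i + 1 + 1).choose 2 - cond (w i), fun i => by have := hcw i; simp only; omega⟩
  obtain ⟨w', hw'⟩ : ∃ w' : ∀ i, Fin (q i + s i) → ℕ, ∀ i, w' i = Fin.append (w i) (fun _ => 1) :=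
    ⟨fun i => Fin.append (w i) (fun _ => 1), fun _ => rfl⟩
  have hmw' : ∀ i, ms (w' i) = ms (w i) + s i • {1} := by
    intro i
    rw [hw']
    unfold ms
    rw [Fin.sum_univ_add]
    simp
  have hE : ∀ i, Emp (w' i) (↑(TriF (b i + 1)) : Set (ℤ × ℤ)) := by
    intro i
    rw [coe_TriF_succ]
    refine Emp_of_ms ?_ (Emp_ones (hw i) (le_of_eq (hs i).symm))
    rw [ms_sum, ms_fin, hmw']
  have h1 := emp_clusters (w := w') (b := fun i => b i + 1) hE (e := e) hTE
  have h2 : Emp (Sum.elim (Sum.elim (fun p : Σ i : Fin N, Fin (q i) => w p.1 p.2) e)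
      (fun _ : Fin (∑ i, s i) => 1)) (↑T : Set (ℤ × ℤ)) := by
    refine Emp_of_ms (le_of_eq ?_) h1
    rw [ms_sum, ms_sum, ms_sum, ms_sigma, ms_sigma, ms_fin, Finset.sum_congr rfl fun i _ => hmw' i,
      sum_add_distrib, ← Finset.sum_smul]
    abel
  have h3 : cond (Sum.elim (fun p : Σ i : Fin N, Fin (q i) => w p.1 p.2) e) + ∑ i, s i ≤ T.card := by
    rw [hTc, cond_cl, Pool.Agent.Y205.MD.cond_elim, ← sum_congr rfl fun i _ => hs i, sum_add_distrib]
    omega
  exact (Sur_of_Emp _ h3 h2).mono hTS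

/-- **Composition**, all cases. -/
theorem compose_full {N b c : ℕ} (hN : 0 < N) {q : Fin N → ℕ} {w : ∀ i, Fin (q i) → ℕ}
    (hc1 : (b + 1).choose 2 ≤ c)
    (hwE : ∀ i, Emp (w i) (↑(TriF b) : Set (ℤ × ℤ))) (hwS : ∀ i, Sur (w i) (TZ b))
    (hwc : ∀ i, cond (w i) = c) {κ : Type} [Fintype κ] {e : κ → ℕ}
    {S : Finset (ℤ × ℤ)} (hpos : ∀ u ∈ S, 0 ≤ u.1 ∧ 0 ≤ u.2)
    (h1E : S.card ≤ cond (Sum.elim (fun _ : Fin N => b) e) →
      Emp (Sum.elim (fun _ : Fin N => b) e) (↑S : Set (ℤ × ℤ)))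
    (h1S : cond (Sum.elim (fun _ : Fin N => b) e) ≤ S.card →
      Sur (Sum.elim (fun _ : Fin N => b) e) (↑S : Set (ℤ × ℤ)))
    (h2E : S.card ≤ cond (Sum.elim (fun _ : Fin N => b + 1) e) →
      Emp (Sum.elim (fun _ : Fin N => b + 1) e) (↑S : Set (ℤ × ℤ)))
    (h2S : cond (Sum.elim (fun _ : Fin N => b + 1) e) ≤ S.card →
      Sur (Sum.elim (fun _ : Fin N => b + 1) e) (↑S : Set (ℤ × ℤ))) :
    (S.card ≤ cond (Sum.elim (fun p : Σ i : Fin N, Fin (q i) => w p.1 p.2) e) →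
      Emp (Sum.elim (fun p : Σ i : Fin N, Fin (q i) => w p.1 p.2) e) (↑S : Set (ℤ × ℤ))) ∧
    (cond (Sum.elim (fun p : Σ i : Fin N, Fin (q i) => w p.1 p.2) e) ≤ S.card →
      Sur (Sum.elim (fun p : Σ i : Fin N, Fin (q i) => w p.1 p.2) e) (↑S : Set (ℤ × ℤ))) := by
  have hc := cond_sum' (N := N) (b := b) (e := e)
  have hcc := cond_cl (w := w) (e := e)
  have hs : ∑ i, cond (w i) = N * c := by
    rw [sum_congr rfl fun i _ => hwc i, sum_const, card_univ, Fintype.card_fin, smul_eq_mul]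
  rw [hs] at hcc
  -- independence and emptiness from independence
  have fin : Sur (Sum.elim (fun p : Σ i : Fin N, Fin (q i) => w p.1 p.2) e) (↑S : Set (ℤ × ℤ)) →
      (S.card ≤ cond (Sum.elim (fun p : Σ i : Fin N, Fin (q i) => w p.1 p.2) e) →
      Emp (Sum.elim (fun p : Σ i : Fin N, Fin (q i) => w p.1 p.2) e) (↑S : Set (ℤ × ℤ))) ∧
    (cond (Sum.elim (fun p : Σ i : Fin N, Fin (q i) => w p.1 p.2) e) ≤ S.card →
      Sur (Sum.elim (fun p : Σ i : Fin N, Fin (q i) => w p.1 p.2) e) (↑S : Set (ℤ × ℤ))) := by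
    intro hS
    refine ⟨fun h3 => ?_, fun _ => hS⟩
    obtain ⟨T, hT, hTc, hTE⟩ := hS
    have hTS : T ⊆ S := fun u hu => mem_coe.1 (hT (mem_coe.2 hu))
    have : T = S := eq_of_subset_of_card_le hTS (by omega)
    rw [← this]
    exact hTE
  rcases Nat.eq_or_lt_of_le hc1 with hμ | hμ
  · -- exact clusters
    rw [← hμ] at hcc
    rw [hcc, ← hc]
    refine ⟨fun h => emp_clusters (b := fun _ => b) hwE (h1E h), fun h => ?_⟩
    obtain ⟨T, hT, hTc, hTE⟩ := h1S h
    exact ⟨T, hT, by rw [hTc, hcc, hc], emp_clusters (b := fun _ => b) hwE hTE⟩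
  · have hNc : N * (b + 1).choose 2 < N * c := Nat.mul_lt_mul_of_pos_left hμ hN
    rcases le_or_gt S.card (cond (Sum.elim (fun _ : Fin N => b) e)) with h | h
    · exact ⟨fun _ => emp_clusters (b := fun _ => b) hwE (h1E h), fun h3 => absurd h3 (by omega)⟩
    · rcases le_or_gt (cond (Sum.elim (fun _ : Fin N => b + 1) e)) S.card with h' | h'
      · exact fin (sur_clusters (b := fun _ => b) hwS (h2S h'))
      · obtain ⟨μ, hμ'⟩ := Nat.exists_eq_add_of_lt hμ
        exact compose (μ := μ + 1) (by omega) hN hwE hwS (fun i => by rw [hwc i, hμ']; ring) hpos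
          (h1S h.le) (h2E h'.le)

/-- The multiset `W` has the size `b`. -/
def Sz (b : ℕ) (W : Multiset ℕ) : Prop :=
  1 ≤ b ∧ (b + 1).choose 2 ≤ co W ∧ co W ≤ (b + 2).choose 2 ∧ GD (b - 1) W ∧ GD b W

theorem Sz.emp {b : ℕ} {W : Multiset ℕ} (h : Sz b W) {ι : Type} [Fintype ι] {w : ι → ℕ}
    (hw : ms w = W) : Emp w (↑(TriF b) : Set (ℤ × ℤ)) := by
  obtain ⟨h1, h2, h3, h4, h5⟩ := h
  obtain ⟨d, rfl⟩ := Nat.exists_eq_succ_of_ne_zero (by omega : b ≠ 0)
  rw [Nat.succ_eq_add_one, coe_TriF_succ]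
  have h6 := h4 w hw
  rw [Nat.succ_eq_add_one, Nat.add_sub_cancel] at h6
  apply h6.1
  rw [cond_ms, hw]
  exact h2

theorem Sz.sur {b : ℕ} {W : Multiset ℕ} (h : Sz b W) {ι : Type} [Fintype ι] {w : ι → ℕ}
    (hw : ms w = W) : Sur w (TZ b) := by
  obtain ⟨h1, h2, h3, h4, h5⟩ := h
  apply (h5 w hw).2
  rw [cond_ms, hw]
  exact h3

theorem GD.compose {d b N c : ℕ} (hN : 1 ≤ N) {W : Fin N → Multiset ℕ} (hW : ∀ i, Sz b (W i))
    (hc : ∀ i, co (W i) = c) {e : Multiset ℕ} (h1 : GD d (N • {b} + e))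
    (h2 : GD d (N • {b + 1} + e)) : GD d (∑ i, W i + e) := by
  obtain ⟨s, u, hu⟩ := Pool.Agent.TH545.SD.exists_fam e
  have hf := fun i => Pool.Agent.TH545.SD.exists_fam (W i)
  choose q w hw using hf
  have hms : ms (Sum.elim (fun p : Σ i : Fin N, Fin (q i) => w p.1 p.2) u) = ∑ i, W i + e := by
    rw [ms_sum, hu, ms_sigma, Finset.sum_congr rfl fun i _ => hw i]
  rw [← hms]
  apply GD_of
  have g1 := h1 (Sum.elim (fun _ : Fin N => b) u) (by rw [ms_sum, ms_fin, hu])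
  have g2 := h2 (Sum.elim (fun _ : Fin N => b + 1) u) (by rw [ms_sum, ms_fin, hu])
  have hc1 : (b + 1).choose 2 ≤ c := by
    rw [← hc ⟨0, hN⟩]
    exact (hW _).2.1
  have key := compose_full (N := N) (b := b) (c := c) (w := w) (e := u) (S := TF d) (by omega) hc1
    (fun i => (hW i).emp (hw i)) (fun i => (hW i).sur (hw i))
    (fun i => by rw [cond_ms, hw i]; exact hc i)
    (fun v hv => by
      have : v ∈ TZ d := by rw [← coe_TF]; exact mem_coe.2 hv
      exact ⟨this.1, this.2.1⟩)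
  rw [coe_TF, card_TF] at key
  exact key g1.1 g1.2 g2.1 g2.2

theorem GD.compose1 {d b : ℕ} {W : Multiset ℕ} (hW : Sz b W) {e : Multiset ℕ}
    (h1 : GD d ({b} + e)) (h2 : GD d ({b + 1} + e)) : GD d (W + e) := by
  have h : GD d (∑ _i : Fin 1, W + e) := GD.compose (N := 1) (b := b) (c := co W) le_rfl
    (W := fun _ => W) (fun _ => hW) (fun _ => rfl) (e := e) (d := d)
    (by rw [one_smul]; exact @h1) (by rw [one_smul]; exact @h2)
  have e1 : W + e = ∑ _i : Fin 1, W + e := by simp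
  rw [e1]
  exact @h

/-- **Composition** with clusters of arbitrary sizes. -/
theorem GD.composeS {d N : ℕ} {b : Fin N → ℕ} {W : Fin N → Multiset ℕ} (hW : ∀ i, Sz (b i) (W i))
    {e : Multiset ℕ} (h : ∀ ε : Fin N → ℕ, (∀ i, ε i ≤ 1) → GD d (∑ i, {b i + ε i} + e)) :
    GD d (∑ i, W i + e) := by
  classical
  have key : ∀ J : Finset (Fin N), ∀ ε : Fin N → ℕ, (∀ i, ε i ≤ 1) →
      GD d (∑ i ∈ J, W i + ∑ i ∈ Jᶜ, {b i + ε i} + e) := by
    intro J
    induction J using Finset.induction_on with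
    | empty =>
      intro ε hε
      rw [sum_empty, zero_add, compl_empty]
      exact @h ε hε
    | insert k J hk ih =>
      intro ε hε
      have hJc : Jᶜ = insert k (insert k J)ᶜ := by
        ext i
        simp only [mem_compl, mem_insert]
        by_cases hi : i = k
        · subst hi; simp [hk]
        · simp [hi]
      have hkc : k ∉ (insert k J)ᶜ := by simp
      have aux : ∀ δ : ℕ, δ ≤ 1 → GD d ({b k + δ} + (∑ i ∈ J, W i +
          ∑ i ∈ (insert k J)ᶜ, {b i + ε i} + e)) := by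
        intro δ hδ
        have hε' : ∀ i, Function.update ε k δ i ≤ 1 := by
          intro i
          by_cases hi : i = k
          · subst hi
            rw [Function.update_self]
            exact hδ
          · rw [Function.update_of_ne hi]
            exact hε i
        have h0 : ∑ i ∈ J, W i + ∑ i ∈ Jᶜ, ({b i + Function.update ε k δ i} : Multiset ℕ) + e =
            {b k + δ} + (∑ i ∈ J, W i + ∑ i ∈ (insert k J)ᶜ, {b i + ε i} + e) := by
          rw [hJc, sum_insert hkc, Function.update_self]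
          have : ∑ i ∈ (insert k J)ᶜ, ({b i + Function.update ε k δ i} : Multiset ℕ) =
              ∑ i ∈ (insert k J)ᶜ, {b i + ε i} := by
            refine sum_congr rfl fun i hi => ?_
            rw [Function.update_of_ne]
            rintro rfl
            exact hkc hi
          rw [this]
          abel
        rw [← h0]
        exact @ih _ hε'
      have h3 : GD d (W k + (∑ i ∈ J, W i + ∑ i ∈ (insert k J)ᶜ, {b i + ε i} + e)) :=
        GD.compose1 (hW k) (aux 0 (by omega)) (aux 1 le_rfl)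
      have e1 : ∑ i ∈ insert k J, W i + ∑ i ∈ (insert k J)ᶜ, {b i + ε i} + e =
          W k + (∑ i ∈ J, W i + ∑ i ∈ (insert k J)ᶜ, {b i + ε i} + e) := by
        rw [sum_insert hk]
        abel
      rw [e1]
      exact @h3
  have h4 : GD d (∑ i, W i + ∑ i ∈ univᶜ, {b i + 0} + e) := key univ (fun _ => 0) (fun _ => by omega)
  rw [compl_univ, sum_empty, add_zero] at h4
  exact @h4

/-- one-sided: emptiness -/
theorem EmpM_compose {N : ℕ} {b : Fin N → ℕ} {W : Fin N → Multiset ℕ} {e : Multiset ℕ} {d : ℕ}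
    (hW : ∀ i, EmpM (W i) (↑(TriF (b i)) : Set (ℤ × ℤ))) (h : EmpM (∑ i, {b i} + e) (TZ d)) :
    EmpM (∑ i, W i + e) (TZ d) := by
  obtain ⟨s, u, hu⟩ := Pool.Agent.TH545.SD.exists_fam e
  have hf := fun i => Pool.Agent.TH545.SD.exists_fam (W i)
  choose q w hw using hf
  have hms : ms (Sum.elim (fun p : Σ i : Fin N, Fin (q i) => w p.1 p.2) u) = ∑ i, W i + e := by
    rw [ms_sum, hu, ms_sigma, Finset.sum_congr rfl fun i _ => hw i]
  rw [EmpM_iff hms]
  have hms2 : ms (Sum.elim b u) = ∑ i, {b i} + e := by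
    rw [ms_sum, hu]
    rfl
  rw [EmpM_iff hms2] at h
  have h2 := emp_clusters (w := w) (b := b) (fun i => (EmpM_iff (hw i) _).1 (hW i)) (e := u) (S := TF d)
    (by rw [coe_TF]; exact h)
  rw [coe_TF] at h2
  exact h2

end Pool.Agent.Helper65.Comp
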