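import Pool.Agent.TH2.NU.Coll

/-! Collision of clusters with arbitrary multiplicities, all clusters at once. -/

set_option autoImplicit false

namespace Pool.Agent.Helper65.Comp

open Finset Pool.Agent.TH176.Nag Pool.Agent.TH603.Sur Pool.Agent.TH763.DB

/-- the index set of the conditions imposed by points of multiplicities `w j` -/
abbrev RR {q : ℕ} (w : Fin q → ℕ) : Type := Σ j : Fin q, Σ i : Fin (w j), Fin (w j - i)

theorem RR_lt {q : ℕ} {w : Fin q → ℕ} (r : RR w) : (r.2.1 : ℕ) + (r.2.2 : ℕ) < w r.1 := by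
  have h1 := r.2.1.2
  have h2 := r.2.2.2
  omega

section
variable {K : Type} [Field K] [CharZero K]

/-- the values of the conditions at the monomial of exponent `(k, l)`, divided by `k! l!` -/
noncomputable def mv {q : ℕ} (w : Fin q → ℕ) (A B : Fin q → K) (r : RR w) (k l : ℕ) : K :=
  PowerSeries.coeff k (PowerSeries.X ^ (r.2.1 : ℕ) * ee (A r.1)) *
    PowerSeries.coeff l (PowerSeries.X ^ (r.2.2 : ℕ) * ee (B r.1))

/-- the value of the combination with the coefficients `c` -/
noncomputable def Lam {q : ℕ} (w : Fin q → ℕ) (A B : Fin q → K) (c : RR w → K) (k l : ℕ) : K :=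
  ∑ r, c r * mv w A B r k l

theorem rescale_Xe (s a : K) (i : ℕ) :
    PowerSeries.rescale s (PowerSeries.X ^ i * ee a) = PowerSeries.X ^ i * (PowerSeries.C (s ^ i) * ee (a * s)) := by
  rw [map_mul, map_pow, PowerSeries.rescale_X]
  have h : PowerSeries.rescale s (ee a) = ee (a * s) := by
    unfold ee
    rw [PowerSeries.rescale_rescale]
  rw [h, mul_pow, ← map_pow]
  ring

/-- the limit conditions -/
theorem limit_W {q : ℕ} {w : Fin q → ℕ} {A B : Fin q → K} {S : Finset (ℤ × ℤ)}
    {G : ℤ × ℤ → PowerSeries K} {z : ℤ × ℤ → K} {f g : ℤ × ℤ → K}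
    (h : ∀ j, ∀ i i', i + i' < w j → ∑ u ∈ S, G u * (PowerSeries.C (z u * (f u ^ i * g u ^ i')) *
      ee (A j * f u + B j * g u)) = 0)
    (c : RR w → K) {n : ℕ} (hc : ∀ k l, k + l < n → Lam w A B c k l = 0) :
    ∑ u ∈ S, PowerSeries.constantCoeff (G u) *
      (z u * ∑ kl ∈ antidiagonal n, Lam w A B c kl.1 kl.2 * (f u ^ kl.1 * g u ^ kl.2)) = 0 := by
  obtain ⟨Ψ, hΨ⟩ : ∃ Ψ : ℤ × ℤ → PowerSeries K, Ψ = fun u => ∑ r : RR w, PowerSeries.C (c r) *
      (PowerSeries.rescale (f u) (PowerSeries.X ^ (r.2.1 : ℕ) * ee (A r.1)) *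
        PowerSeries.rescale (g u) (PowerSeries.X ^ (r.2.2 : ℕ) * ee (B r.1))) := ⟨_, rfl⟩
  -- the coefficients
  have hco : ∀ u m, PowerSeries.coeff m (Ψ u) =
      ∑ kl ∈ antidiagonal m, Lam w A B c kl.1 kl.2 * (f u ^ kl.1 * g u ^ kl.2) := by
    intro u m
    have h1 : ∀ (a : K) (P Q : PowerSeries K), PowerSeries.coeff m (PowerSeries.C a *
        (PowerSeries.rescale (f u) P * PowerSeries.rescale (g u) Q)) =
        ∑ kl ∈ antidiagonal m, a * (PowerSeries.coeff kl.1 P * PowerSeries.coeff kl.2 Q) *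
          (f u ^ kl.1 * g u ^ kl.2) := by
      intro a P Q
      rw [PowerSeries.coeff_C_mul, PowerSeries.coeff_mul, mul_sum]
      refine sum_congr rfl fun kl _ => ?_
      rw [PowerSeries.coeff_rescale, PowerSeries.coeff_rescale]
      ring
    rw [hΨ]
    simp only
    rw [map_sum]
    simp only [h1]
    rw [sum_comm]
    refine sum_congr rfl fun kl _ => ?_
    unfold Lam mv
    rw [sum_mul]
  -- the sum vanishes
  have h0 : ∑ u ∈ S, G u * PowerSeries.C (z u) * Ψ u = 0 := by
    rw [hΨ]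
    simp only [mul_sum]
    rw [sum_comm]
    refine sum_eq_zero fun r _ => ?_
    have h1 := h r.1 (r.2.1 : ℕ) (r.2.2 : ℕ) (RR_lt r)
    have h2 : ∀ u ∈ S, G u * PowerSeries.C (z u) * (PowerSeries.C (c r) *
        (PowerSeries.rescale (f u) (PowerSeries.X ^ (r.2.1 : ℕ) * ee (A r.1)) *
          PowerSeries.rescale (g u) (PowerSeries.X ^ (r.2.2 : ℕ) * ee (B r.1)))) =
        (PowerSeries.C (c r) * PowerSeries.X ^ ((r.2.1 : ℕ) + (r.2.2 : ℕ))) *
        (G u * (PowerSeries.C (z u * (f u ^ (r.2.1 : ℕ) * g u ^ (r.2.2 : ℕ))) *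
          ee (A r.1 * f u + B r.1 * g u))) := by
      intro u _
      rw [rescale_Xe, rescale_Xe, ← ee_add, pow_add]
      simp only [map_mul]
      ring
    rw [sum_congr rfl h2, ← mul_sum, h1, mul_zero]
  -- divisibility
  have hdiv : ∀ u, ∃ Φ : PowerSeries K, Ψ u = PowerSeries.X ^ n * Φ ∧
      PowerSeries.constantCoeff Φ =
        ∑ kl ∈ antidiagonal n, Lam w A B c kl.1 kl.2 * (f u ^ kl.1 * g u ^ kl.2) := by
    intro u
    have h2 : (PowerSeries.X : PowerSeries K) ^ n ∣ Ψ u := by
      rw [PowerSeries.X_pow_dvd_iff]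
      intro j hj
      rw [hco]
      refine sum_eq_zero fun kl hkl => ?_
      rw [HasAntidiagonal.mem_antidiagonal] at hkl
      rw [hc _ _ (by omega), zero_mul]
    obtain ⟨Φ, hΦ⟩ := h2
    refine ⟨Φ, hΦ, ?_⟩
    have h3 := PowerSeries.coeff_X_pow_mul Φ n 0
    rw [zero_add, ← hΦ, hco] at h3
    rw [← PowerSeries.coeff_zero_eq_constantCoeff_apply, ← h3]
  choose Φ hΦ hΦ' using hdiv
  have key2 : (PowerSeries.X : PowerSeries K) ^ n * ∑ u ∈ S, G u * PowerSeries.C (z u) * Φ u = 0 := by
    rw [← h0, mul_sum]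
    refine sum_congr rfl fun u _ => ?_
    rw [hΦ]
    ring
  have key3 := (mul_eq_zero.1 key2).resolve_left (pow_ne_zero _ PowerSeries.X_ne_zero)
  have key4 := congrArg PowerSeries.constantCoeff key3
  rw [map_zero, map_sum] at key4
  rw [← key4]
  refine sum_congr rfl fun u _ => ?_
  rw [map_mul, map_mul, PowerSeries.constantCoeff_C, hΦ']
  ring

/-- the limit conditions at `(x, y)` -/
noncomputable def LimK {q : ℕ} (w : Fin q → ℕ) (A B : Fin q → K) (x y : K) (D E : K × K) :
    Submodule K ((ℤ × ℤ) →₀ K) :=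
  ⨅ (c : RR w → K) (n : ℕ) (_ : ∀ k l, k + l < n → Lam w A B c k l = 0),
    Ker x y (fun u => ∑ kl ∈ antidiagonal n, Lam w A B c kl.1 kl.2 * qq D E kl.1 kl.2 u)

end

/-- **Collision** of clusters of arbitrary multiplicities. -/
theorem collideW {N : ℕ} {κ : Type} {q : Fin N → ℕ} {w : ∀ i, Fin (q i) → ℕ} {e : κ → ℕ} {K : Type}
    [Field K] [CharZero K] (A B : ∀ i, Fin (q i) → K)
    (x y : Fin N → K) (x' y' : κ → K)
    (hx : ∀ i, x i ≠ 0) (hy : ∀ i, y i ≠ 0) (hx' : ∀ i, x' i ≠ 0) (hy' : ∀ i, y' i ≠ 0)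
    (D E : Fin N → K × K) (S : Finset (ℤ × ℤ))
    (h : Sys S x' y' e ⊓ ⨅ i, LimK (w i) (A i) (B i) (x i) (y i) (D i) (E i) = ⊥) :
    Emp (Sum.elim (fun p : Σ i : Fin N, Fin (q i) => w p.1 p.2) e) (↑S : Set (ℤ × ℤ)) := by
  classical
  have hcz : CharZero (LL K) := by
    have h1 : Function.Injective ((io K).comp (PowerSeries.C (R := K))) :=
      ((io K).comp (PowerSeries.C (R := K))).injective
    exact charZero_of_injective_ringHom h1
  have hCne : ∀ z : K, z ≠ 0 → io K (PowerSeries.C z) ≠ 0 := by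
    intro z hz h0
    apply hz
    have := ((io K).comp (PowerSeries.C (R := K))).injective (by
      rw [map_zero]; exact h0 : ((io K).comp (PowerSeries.C (R := K))) z =
        ((io K).comp (PowerSeries.C (R := K))) 0)
    exact this
  refine ⟨LL K, inferInstance, hcz,
    Sum.elim (fun p : Σ i : Fin N, Fin (q i) => io K (PowerSeries.C (x p.1) *
      ee (A p.1 p.2 * (D p.1).1 + B p.1 p.2 * (E p.1).1)))
      (fun j => io K (PowerSeries.C (x' j) * ee ((0 : K) * 1 + 0 * 0))),
    Sum.elim (fun p : Σ i : Fin N, Fin (q i) => io K (PowerSeries.C (y p.1) *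
      ee (A p.1 p.2 * (D p.1).2 + B p.1 p.2 * (E p.1).2)))
      (fun j => io K (PowerSeries.C (y' j) * ee ((0 : K) * 0 + 0 * 1))), ?_, ?_, ?_⟩
  · rintro (p | j)
    · simp only [Sum.elim_inl, map_mul]
      exact mul_ne_zero (hCne _ (hx _)) (io_ee_ne _)
    · simp only [Sum.elim_inr, map_mul]
      exact mul_ne_zero (hCne _ (hx' _)) (io_ee_ne _)
  · rintro (p | j)
    · simp only [Sum.elim_inl, map_mul]
      exact mul_ne_zero (hCne _ (hy _)) (io_ee_ne _)
    · simp only [Sum.elim_inr, map_mul]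
      exact mul_ne_zero (hCne _ (hy' _)) (io_ee_ne _)
  · intro f hfS hfL
    by_contra hf0
    have hfS' : f.support ⊆ S := by
      intro u hu
      exact mem_coe.1 (hfS (mem_coe.2 hu))
    obtain ⟨b, hb⟩ := IsLocalization.exist_integer_multiples (nonZeroDivisors (PowerSeries K)) S
      (fun u => f u)
    have hb' : ∀ u ∈ S, ∃ g : PowerSeries K, io K g = io K (b : PowerSeries K) * f u := by
      intro u hu
      obtain ⟨g, hg⟩ := hb u hu
      refine ⟨g, ?_⟩
      have h1 : (b • f u : LL K) = io K (b : PowerSeries K) * f u := by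
        rw [Submonoid.smul_def, Algebra.smul_def]
      rw [← h1]
      exact hg
    choose! G hG using hb'
    have hbne : io K (b : PowerSeries K) ≠ 0 := by
      intro h0
      have h1 : (b : PowerSeries K) = 0 := io_inj (by rw [h0, map_zero])
      exact nonZeroDivisors.coe_ne_zero b h1
    obtain ⟨u0, hu0⟩ := Finsupp.support_nonempty_iff.2 hf0
    have hu0S := hfS' hu0
    have hG0 : G u0 ≠ 0 := by
      intro h0
      have h1 := hG u0 hu0S
      rw [h0, map_zero] at h1
      exact (mul_ne_zero hbne (Finsupp.mem_support_iff.1 hu0)) h1.symm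
    obtain ⟨v, H, hH, u1, hu1, hne⟩ := norm_fam G ⟨u0, hu0S, hG0⟩
    have hXne : io K ((PowerSeries.X : PowerSeries K) ^ v) ≠ 0 := by
      intro h0
      have h1 : (PowerSeries.X : PowerSeries K) ^ v = 0 := io_inj (by rw [h0, map_zero])
      exact pow_ne_zero _ PowerSeries.X_ne_zero h1
    obtain ⟨c, hc⟩ : ∃ c : LL K, c = io K (b : PowerSeries K) *
      (io K ((PowerSeries.X : PowerSeries K) ^ v))⁻¹ := ⟨_, rfl⟩
    have hFH : ∀ u ∈ S, (c • f) u = io K (H u) := by
      intro u hu
      rw [Finsupp.smul_apply, smul_eq_mul, hc]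
      have h1 := hG u hu
      rw [hH u hu, map_mul] at h1
      rw [mul_right_comm, ← h1]
      field_simp
    have hFS : (c • f).support ⊆ S := (Finsupp.support_smul).trans hfS'
    have hFL : ∀ (X Y : LL K) (w : ℕ), LM f X Y w → LM (c • f) X Y w := by
      intro X Y w hL P hP
      rw [pr_smul_left, hL P hP, mul_zero]
    -- the limit
    obtain ⟨g, hg⟩ : ∃ g : (ℤ × ℤ) →₀ K, g = Finsupp.onFinset S
        (fun u => if u ∈ S then PowerSeries.constantCoeff (H u) else 0) (by
          intro u hu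
          by_contra hnot
          exact hu (if_neg hnot)) := ⟨_, rfl⟩
    have hgS : g.support ⊆ S := by rw [hg]; exact Finsupp.support_onFinset_subset
    have hgu : ∀ u ∈ S, g u = PowerSeries.constantCoeff (H u) := by
      intro u hu
      rw [hg, Finsupp.onFinset_apply, if_pos hu]
    have hgne : g ≠ 0 := by
      intro h0
      apply hne
      rw [← hgu u1 hu1, h0, Finsupp.zero_apply]
    apply hgne
    have hmem : g ∈ Sys S x' y' e ⊓ ⨅ i, LimK (w i) (A i) (B i) (x i) (y i) (D i) (E i) := by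
      refine ⟨⟨?_, ?_⟩, ?_⟩
      · rw [SetLike.mem_coe, Finsupp.mem_supported]
        intro u hu
        exact mem_coe.2 (hgS (mem_coe.1 hu))
      · rw [SetLike.mem_coe, Submodule.mem_iInf]
        intro j
        rw [mem_Mul]
        apply LM_of_mono
        intro a b' hab
        have h1 := sum_zero (D := ((1 : K), (0 : K))) (E := ((0 : K), (1 : K))) (hx' j) (hy' j) hFS hFH
          (hFL _ _ _ (hfL (Sum.inr j))) hab
        have h2 := congrArg PowerSeries.constantCoeff h1
        rw [map_zero, map_sum] at h2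
        rw [pr_eq_sum hgS, ← h2]
        refine sum_congr rfl fun u hu => ?_
        rw [map_mul, map_mul, ee_const, PowerSeries.constantCoeff_C, hgu u hu]
        unfold lin
        simp only [one_mul, zero_mul, add_zero, zero_add, mul_one]
        ring
      · rw [SetLike.mem_coe, Submodule.mem_iInf]
        intro i
        unfold LimK
        simp only [Submodule.mem_iInf]
        intro c n hcn
        rw [mem_Ker, pr_eq_sum hgS]
        have h1 := limit_W (S := S) (G := H) (z := fun u => x i ^ u.1 * y i ^ u.2)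
          (f := fun u => lin (D i) ((u.1 : K), (u.2 : K))) (g := fun u => lin (E i) ((u.1 : K), (u.2 : K)))
          (w := w i) (A := A i) (B := B i) (fun j p p' hpp => sum_zero (hx i) (hy i) hFS hFH
            (hFL _ _ _ (hfL (Sum.inl ⟨i, j⟩))) hpp) c hcn
        rw [← h1]
        refine sum_congr rfl fun u hu => ?_
        rw [hgu u hu]
        unfold qq
        ring
    rw [h] at hmem
    exact (Submodule.mem_bot K).1 hmem

end Pool.Agent.Helper65.Comp
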