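import Pool.Agent.Helper65.Comp.Ne
import Pool.Agent.Helper65.Comp.Bund
import Pool.Agent.Y205.FW.Inf
import Pool.Agent.Y205.AV.Main

/-! The decomposition of a vector and the reduction to few distinct values. -/

set_option autoImplicit false

namespace Pool.Agent.Helper65.Comp

open Finset Module Pool.Agent.TH176.Nag Pool.Agent.TH603.Sur Pool.Agent.TH763.DB
open Pool.Agent.TH641.UM Pool.Agent.TH2.NU Pool.Agent.TH545.SD

/-- the sum of the squares -/
def sq2 (v : Multiset ℕ) : ℕ := (v.map fun a => a ^ 2).sum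

theorem sq2_add (v w : Multiset ℕ) : sq2 (v + w) = sq2 v + sq2 w := by
  unfold sq2
  rw [Multiset.map_add, Multiset.sum_add]

/-- the value `x` is admissible for the group `W` -/
def Q0 (D : Finset ℕ) (μ : ℕ) (x : ℕ) (W : Multiset ℕ) : Prop :=
  x ∈ D ∧ 1 ≤ x ∧ x ≤ μ ∧ sq2 W ≤ 6 * x ^ 2

/-- decomposition into groups with sizes in `D` -/
def Dec (D : Finset ℕ) (μ : ℕ) (v : Multiset ℕ) : Prop :=
  ∃ (Gs : Multiset (Multiset ℕ)) (e : Multiset ℕ), Gs.sum + e = v ∧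
    (∀ W ∈ Gs, ∃ b, Sz b W ∧ Q0 D μ b W ∧ Q0 D μ (b + 1) W) ∧ ∀ a ∈ e, a ∈ D ∧ 1 ≤ a ∧ a ≤ μ

theorem Dec.mono {D D' : Finset ℕ} (hD : D ⊆ D') {μ : ℕ} {v : Multiset ℕ} (h : Dec D μ v) :
    Dec D' μ v := by
  obtain ⟨Gs, e, h1, h2, h3⟩ := h
  refine ⟨Gs, e, h1, fun W hW => ?_, fun a ha => ⟨hD (h3 a ha).1, (h3 a ha).2⟩⟩
  obtain ⟨b, g1, g2, g3⟩ := h2 W hW
  exact ⟨b, g1, ⟨hD g2.1, g2.2⟩, ⟨hD g3.1, g3.2⟩⟩

theorem Dec.add {D : Finset ℕ} {μ : ℕ} {v v' : Multiset ℕ} (h : Dec D μ v) (h' : Dec D μ v') :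
    Dec D μ (v + v') := by
  obtain ⟨Gs, e, h1, h2, h3⟩ := h
  obtain ⟨Gs', e', h1', h2', h3'⟩ := h'
  refine ⟨Gs + Gs', e + e', ?_, ?_, ?_⟩
  · rw [← h1, ← h1', Multiset.sum_add]
    abel
  · intro W hW
    rcases Multiset.mem_add.1 hW with hW | hW
    · exact h2 W hW
    · exact h2' W hW
  · intro a ha
    rcases Multiset.mem_add.1 ha with ha | ha
    · exact h3 a ha
    · exact h3' a ha

theorem Dec.zero {D : Finset ℕ} {μ : ℕ} : Dec D μ 0 :=
  ⟨0, 0, by simp, by simp, by simp⟩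

theorem Dec.small {D : Finset ℕ} {μ : ℕ} {v : Multiset ℕ} (h : ∀ a ∈ v, a ∈ D ∧ 1 ≤ a ∧ a ≤ μ) :
    Dec D μ v := ⟨0, v, by simp, by simp, h⟩

/-- few distinct values -/
theorem few_values {D : Finset ℕ} {r μ d : ℕ} {u : Multiset ℕ} (hu : ∀ a ∈ u, a ∈ D ∧ 1 ≤ a ∧ a ≤ μ)
    (hr : D.card ≤ r) (h0 : 0 < sq2 u) (hQ : 40000 * r * μ ^ 2 ≤ sq2 u) : GE d u := by
  obtain ⟨s, w, hw⟩ := Pool.Agent.TH545.SD.exists_fam u
  have hmem : ∀ i, w i ∈ u := by
    intro i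
    rw [← hw]
    exact mem_ms w i
  have hs : 0 < s := by
    by_contra h
    have hs0 : s = 0 := by omega
    subst hs0
    have : u = 0 := by
      rw [← hw]
      rfl
    rw [this] at h0
    simp [sq2] at h0
  have hsq : sq2 u = ∑ p, w p ^ 2 := by
    rw [← hw]
    exact sum_map_ms w fun a => a ^ 2
  obtain ⟨F, hF, hF'⟩ := Pool.Agent.Y205.FW.inf_all (w := w) (μ := μ) (r := r) hs
    (fun p => (hu _ (hmem p)).2.1) (fun p => (hu _ (hmem p)).2.2)
    ((card_le_card fun x hx => by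
      obtain ⟨p, -, rfl⟩ := mem_image.1 hx
      exact (hu _ (hmem p)).1).trans hr) (by rw [← hsq]; exact hQ)
  rw [← hw]
  exact GE.of (GD_of_expDim ⟨F, hF, fun P hP => hF' P hP d⟩)

/-- **The reduction.** -/
theorem Dec.ge {D : Finset ℕ} {r μ d : ℕ} {v : Multiset ℕ} (h : Dec D μ v) (hr : D.card ≤ r)
    (h0 : 0 < sq2 v) (hQ : 240000 * r * μ ^ 2 ≤ sq2 v) : GE d v := by
  obtain ⟨Gs, e, rfl, h2, h3⟩ := h
  refine composeM (Q := Q0 D μ) Gs e h2 fun B hB => ?_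
  have hB1 : ∀ x ∈ B, x ∈ D ∧ 1 ≤ x ∧ x ≤ μ := by
    intro x hx
    obtain ⟨W, -, g1, g2, g3, -⟩ := Multiset.exists_mem_of_rel_of_mem hB hx
    exact ⟨g1, g2, g3⟩
  have hB2 : ∀ (B : Multiset ℕ) (Gs : Multiset (Multiset ℕ)), Multiset.Rel (Q0 D μ) B Gs →
      sq2 Gs.sum ≤ 6 * sq2 B := by
    intro B Gs hB
    induction hB with
    | zero => simp [sq2]
    | @cons x W B Gs h1 _ ih =>
      rw [Multiset.sum_cons, sq2_add, ← Multiset.singleton_add, sq2_add]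
      have : sq2 {x} = x ^ 2 := by simp [sq2]
      rw [this]
      have := h1.2.2.2
      omega
  have h4 := hB2 B Gs hB
  have h5 : sq2 (Gs.sum + e) ≤ 6 * sq2 (B + e) := by
    rw [sq2_add, sq2_add]
    omega
  refine few_values (D := D) (r := r) (μ := μ) ?_ hr (by omega) ?_
  · intro a ha
    rcases Multiset.mem_add.1 ha with ha | ha
    · exact hB1 a ha
    · exact h3 a ha
  · have : 240000 * r * μ ^ 2 = 6 * (40000 * r * μ ^ 2) := by ring
    omega

/-- the class of a value -/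
def cls (τ a : ℕ) : ℕ := Nat.sqrt (τ ^ 2 * a)

theorem cls_div {τ a : ℕ} (hτ : 1 ≤ τ) : cls τ a / τ = Nat.sqrt a := by
  unfold cls
  obtain ⟨s, hs⟩ : ∃ s, s = Nat.sqrt (τ ^ 2 * a) := ⟨_, rfl⟩
  rw [← hs]
  have h1 : s * s ≤ τ ^ 2 * a := by rw [hs]; exact Nat.sqrt_le _
  apply le_antisymm
  · rw [Nat.le_sqrt]
    have h2 : s / τ * τ ≤ s := Nat.div_mul_le_self s τ
    have h3 : (s / τ * τ) * (s / τ * τ) ≤ τ ^ 2 * a := (Nat.mul_le_mul h2 h2).trans h1
    have h4 : τ ^ 2 * (s / τ * (s / τ)) ≤ τ ^ 2 * a := by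
      calc τ ^ 2 * (s / τ * (s / τ)) = (s / τ * τ) * (s / τ * τ) := by ring
        _ ≤ _ := h3
    exact Nat.le_of_mul_le_mul_left h4 (by positivity)
  · rw [Nat.le_div_iff_mul_le (by omega), hs, Nat.le_sqrt]
    have h2 : Nat.sqrt a * Nat.sqrt a ≤ a := Nat.sqrt_le a
    calc Nat.sqrt a * τ * (Nat.sqrt a * τ) = τ ^ 2 * (Nat.sqrt a * Nat.sqrt a) := by ring
      _ ≤ _ := Nat.mul_le_mul_left _ h2

/-- the values in a class are nearly equal -/
theorem cls_near {j τ a b s : ℕ} (hτ : τ = 4 * 3 ^ j) (ha : τ ^ 2 ≤ a) (hab : a ≤ b)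
    (has : cls τ a = s) (hbs : cls τ b = s) :
    b ≤ a + 2 * s / τ ^ 2 ∧ 3 ^ j * (2 * s / τ ^ 2 + 2) ^ 2 ≤ a := by
  have hτ1 : 1 ≤ τ := by
    rw [hτ]
    have : 0 < 3 ^ j := by positivity
    omega
  unfold cls at has hbs
  have h1 : s * s ≤ τ ^ 2 * a := by rw [← has]; exact Nat.sqrt_le _
  have h2 : τ ^ 2 * b < (s + 1) * (s + 1) := by rw [← hbs]; exact Nat.lt_succ_sqrt _
  have hT : 0 < τ ^ 2 := by positivity
  have h3 : τ ^ 2 ≤ s := by
    rw [← has, Nat.le_sqrt]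
    exact Nat.mul_le_mul_left _ ha
  obtain ⟨K, hK⟩ : ∃ K, K = 2 * s / τ ^ 2 := ⟨_, rfl⟩
  rw [← hK]
  have h4 : τ ^ 2 * K ≤ 2 * s := by rw [hK]; exact Nat.mul_div_le _ _
  constructor
  · have h5 : b - a ≤ K := by
      rw [hK, Nat.le_div_iff_mul_le hT]
      have h6 : τ ^ 2 * (b - a) ≤ 2 * s := by
        rw [Nat.mul_sub]
        have : (s + 1) * (s + 1) = s * s + 2 * s + 1 := by ring
        omega
      linarith
    omega
  · have h5 : τ ^ 2 * (K + 2) ≤ 4 * s := by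
      rw [Nat.mul_add]
      omega
    have h6 : (τ ^ 2 * (K + 2)) * (τ ^ 2 * (K + 2)) ≤ 4 * s * (4 * s) := Nat.mul_le_mul h5 h5
    have h7 : 4 * s * (4 * s) ≤ 16 * (τ ^ 2 * a) := by
      calc 4 * s * (4 * s) = 16 * (s * s) := by ring
        _ ≤ _ := Nat.mul_le_mul_left _ h1
    have h8 : τ ^ 2 * (τ ^ 2 * (K + 2) ^ 2) ≤ τ ^ 2 * (16 * a) := by
      calc τ ^ 2 * (τ ^ 2 * (K + 2) ^ 2) = (τ ^ 2 * (K + 2)) * (τ ^ 2 * (K + 2)) := by ring
        _ ≤ 16 * (τ ^ 2 * a) := h6.trans h7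
        _ = τ ^ 2 * (16 * a) := by ring
    have h9 := Nat.le_of_mul_le_mul_left h8 hT
    have h10 : τ ^ 2 = 16 * (3 ^ j) ^ 2 := by
      rw [hτ]
      ring
    rw [h10] at h9
    have h11 : (3 ^ j) ^ 2 * (K + 2) ^ 2 ≤ a := by
      apply Nat.le_of_mul_le_mul_left (c := 16) _ (by norm_num)
      calc 16 * ((3 ^ j) ^ 2 * (K + 2) ^ 2) = 16 * (3 ^ j) ^ 2 * (K + 2) ^ 2 := by ring
        _ ≤ _ := h9
    have h12 : 3 ^ j ≤ (3 ^ j) ^ 2 := by
      have : 1 ≤ 3 ^ j := Nat.one_le_pow _ _ (by norm_num)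
      nlinarith
    exact (Nat.mul_le_mul_right _ h12).trans h11

/-- a choice of the size of a group -/
theorem exists_sizeFn : ∃ z : ℕ → ℕ, ∀ c, 1 ≤ c →
    1 ≤ z c ∧ (z c + 1).choose 2 ≤ c ∧ c ≤ (z c + 2).choose 2 := by
  classical
  have h : ∀ c : ℕ, ∃ b, 1 ≤ c → 1 ≤ b ∧ (b + 1).choose 2 ≤ c ∧ c ≤ (b + 2).choose 2 := by
    intro c
    by_cases hc : 1 ≤ c
    · obtain ⟨b, hb⟩ := exists_size c hc
      exact ⟨b, fun _ => hb⟩
    · exact ⟨0, fun h => absurd h hc⟩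
  choose z hz using h
  exact ⟨z, hz⟩

/-- **One class.** -/
theorem class_dec {j τ s μ k R i : ℕ} (hτ : τ = 4 * 3 ^ j) (hk : k + 2 = 9 ^ j)
    (hR : (k + 2) * (μ + 1).choose 2 + 1 < R ^ (k + 1)) {v : Multiset ℕ}
    (hv : ∀ a ∈ v, τ ^ 2 ≤ a ∧ a ≤ μ ∧ cls τ a = s)
    (hn : Multiset.card v < 2 ^ i * (4 * (k + 2) ^ 3 * R)) :
    ∃ D : Finset ℕ, D.card ≤ 4 * (k + 2) ^ 2 * R * (2 * i + (k + 2)) ∧
      Dec D (3 ^ j * (μ + 1)) v := by
  classical
  obtain ⟨z, hz⟩ := exists_sizeFn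
  have hτ1 : 1 ≤ τ ^ 2 := by
    rw [hτ]
    have : 0 < 3 ^ j := by positivity
    exact Nat.one_le_pow _ _ (by omega)
  obtain ⟨Gs, e, C, h1, h2, h3, h4⟩ := greedy (f := fun a => (a + 1).choose 2) hR i v
    (fun a ha => Nat.choose_le_choose 2 (by have := (hv a ha).2.1; omega)) hn
  obtain ⟨L, hL⟩ : ∃ L, L = 3 ^ j := ⟨_, rfl⟩
  have hL1 : 1 ≤ L := by rw [hL]; exact Nat.one_le_pow _ _ (by norm_num)
  have hL9 : k + 2 = L ^ 2 := by
    rw [hk, hL, ← pow_mul, mul_comm, pow_mul]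
    norm_num
  rw [← hL]
  refine ⟨C.image z ∪ C.image (fun c => z c + 1) ∪ e.toFinset, ?_, Gs, e, h1, ?_, ?_⟩
  · have g1 := card_union_le (C.image z ∪ C.image (fun c => z c + 1)) e.toFinset
    have g2 := card_union_le (C.image z) (C.image (fun c => z c + 1))
    have g3 := card_image_le (s := C) (f := z)
    have g4 := card_image_le (s := C) (f := fun c => z c + 1)
    have g5 := Multiset.toFinset_card_le e
    have g6 : 4 * (k + 2) ^ 2 * R * (2 * i + (k + 2)) =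
        4 * (k + 2) ^ 2 * R * i + 4 * (k + 2) ^ 2 * R * i + 4 * (k + 2) ^ 3 * R := by ring
    omega
  · intro W hW
    obtain ⟨g1, g2⟩ := h3 W hW
    have hWv : ∀ a ∈ W, a ∈ v := by
      intro a ha
      rw [← h1]
      obtain ⟨G', rfl⟩ := Multiset.exists_cons_of_mem hW
      rw [Multiset.sum_cons]
      exact Multiset.mem_add.2 (Or.inl (Multiset.mem_add.2 (Or.inl ha)))
    have hco : (W.map fun a => (a + 1).choose 2).sum = co W := rfl
    rw [hco] at g2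
    have c2 := co_upper (v := W) (h := μ) fun a ha => (hv a (hWv a ha)).2.1
    have c1 := co_lower (v := W) (h := 1) fun a ha => hτ1.trans (hv a (hWv a ha)).1
    rw [g1] at c1 c2
    have hc1 : 1 ≤ co W := by omega
    obtain ⟨b1, b2, b3⟩ := hz _ hc1
    rw [hL9] at c2
    have g3 := size_upper hL1 c2 b2
    have hsq : sq2 W ≤ 2 * co W := by
      rw [two_co]
      unfold sq2
      apply Multiset.sum_map_le_sum_map
      intro a _
      nlinarith
    have hb6 : (z (co W) + 1) * (z (co W) + 2) ≤ 6 * z (co W) ^ 2 := by nlinarith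
    have h2c := Pool.Agent.TH2.NU.two_choose (z (co W) + 1)
    rw [show z (co W) + 1 + 1 = z (co W) + 2 from rfl] at h2c
    have hq1 : sq2 W ≤ 6 * z (co W) ^ 2 := by omega
    have hq2 : sq2 W ≤ 6 * (z (co W) + 1) ^ 2 := by nlinarith
    -- the group has the expected dimension
    have hN : ∀ d, GE d W := by
      obtain ⟨a0, ha0, hmin⟩ : ∃ a0 ∈ W, ∀ a ∈ W, a0 ≤ a := by
        have hne : W.toFinset.Nonempty := by
          rw [Multiset.toFinset_nonempty, ← Multiset.card_pos, g1]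
          omega
        obtain ⟨a0, h5, h6⟩ := W.toFinset.exists_min_image id hne
        exact ⟨a0, Multiset.mem_toFinset.1 h5, fun a ha => h6 a (Multiset.mem_toFinset.2 ha)⟩
      have ha0v := hv a0 (hWv a0 ha0)
      refine NE j a0 (2 * s / τ ^ 2) W (by rw [g1, hk]) (fun a ha => ⟨hmin a ha, ?_⟩) ?_
      · exact (cls_near hτ ha0v.1 (hmin a ha) ha0v.2.2 (hv a (hWv a ha)).2.2).1
      · exact (cls_near hτ ha0v.1 le_rfl ha0v.2.2 ha0v.2.2).2
    refine ⟨z (co W), ⟨b1, b2, b3, @GE.gd _ _ (hN _), @GE.gd _ _ (hN _)⟩,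
      ⟨?_, b1, by omega, hq1⟩, ⟨?_, by omega, g3, hq2⟩⟩
    · exact mem_union_left _ (mem_union_left _ (mem_image_of_mem z g2))
    · exact mem_union_left _ (mem_union_right _ (mem_image_of_mem (fun c => z c + 1) g2))
  · intro a ha
    have hav : a ∈ v := by
      rw [← h1]
      exact Multiset.mem_add.2 (Or.inr ha)
    have g1 := hv a hav
    refine ⟨mem_union_right _ (Multiset.mem_toFinset.2 ha), hτ1.trans g1.1, ?_⟩
    have : μ + 1 ≤ L * (μ + 1) := Nat.le_mul_of_pos_left _ hL1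
    omega

/-- **All vectors**, in terms of natural numbers. -/
theorem main_nat {j τ μ k R i r : ℕ} (hτ : τ = 4 * 3 ^ j) (hk : k + 2 = 9 ^ j)
    (hR : (k + 2) * (μ + 1).choose 2 + 1 < R ^ (k + 1)) {v : Multiset ℕ}
    (hv : ∀ a ∈ v, 1 ≤ a ∧ a ≤ μ) (hn : Multiset.card v < 2 ^ i * (4 * (k + 2) ^ 3 * R))
    (hr : (v.map Nat.sqrt).toFinset.card ≤ r) (h0 : 0 < sq2 v)
    (hQ : 240000 * (τ ^ 2 + τ * r * (4 * (k + 2) ^ 2 * R * (2 * i + (k + 2)))) *
      (3 ^ j * (μ + 1)) ^ 2 ≤ sq2 v) (d : ℕ) : GE d v := by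
  classical
  have hτ1 : 1 ≤ τ := by
    rw [hτ]
    have : 0 < 3 ^ j := by positivity
    omega
  obtain ⟨L, hL⟩ : ∃ L, L = 4 * (k + 2) ^ 2 * R * (2 * i + (k + 2)) := ⟨_, rfl⟩
  rw [← hL] at hQ
  obtain ⟨S, hS⟩ : ∃ S : Finset ℕ, S = (v.map (cls τ)).toFinset := ⟨_, rfl⟩
  have hScard : S.card ≤ τ * r := by
    have h1 : S.card ≤ τ * (S.image (· / τ)).card := by
      apply card_le_mul_card_image
      intro p _
      have h2 : S.filter (fun x => x / τ = p) ⊆ Finset.Ico (p * τ) (p * τ + τ) := by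
        intro x hx
        have h3 := (mem_filter.1 hx).2
        rw [Finset.mem_Ico, ← h3]
        have h4 := Nat.div_add_mod x τ
        have h5 := Nat.mod_lt x (show 0 < τ by omega)
        have h6 : x / τ * τ = τ * (x / τ) := mul_comm _ _
        constructor <;> omega
      exact (card_le_card h2).trans (by simp)
    refine h1.trans (Nat.mul_le_mul_left _ (le_trans (card_le_card ?_) hr))
    intro p hp
    obtain ⟨x, hx, rfl⟩ := mem_image.1 hp
    rw [hS, Multiset.mem_toFinset] at hx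
    obtain ⟨a, ha, rfl⟩ := Multiset.mem_map.1 hx
    rw [Multiset.mem_toFinset, cls_div hτ1]
    exact Multiset.mem_map_of_mem _ ha
  -- the classes
  have hD : ∀ s, ∃ D : Finset ℕ, D.card ≤ L ∧
      Dec D (3 ^ j * (μ + 1)) (v.filter fun a => τ ^ 2 ≤ a ∧ cls τ a = s) := by
    intro s
    rw [hL]
    apply class_dec hτ hk hR
    · intro a ha
      rw [Multiset.mem_filter] at ha
      exact ⟨ha.2.1, (hv a ha.1).2, ha.2.2⟩
    · exact lt_of_le_of_lt (Multiset.card_le_card (Multiset.filter_le _ _)) hn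
  choose D hD1 hD2 using hD
  have hsum : ∀ S' : Finset ℕ, Dec (S'.biUnion D) (3 ^ j * (μ + 1))
      (v.filter fun a => τ ^ 2 ≤ a ∧ cls τ a ∈ S') := by
    intro S'
    induction S' using Finset.induction_on with
    | empty =>
      have : (v.filter fun a => τ ^ 2 ≤ a ∧ cls τ a ∈ (∅ : Finset ℕ)) = 0 := by
        rw [Multiset.filter_eq_nil]
        intro a _ h
        simp at h
      rw [this]
      exact Dec.zero
    | insert s S' hs ih =>
      have e1 : (v.filter fun a => τ ^ 2 ≤ a ∧ cls τ a ∈ insert s S') =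
          (v.filter fun a => τ ^ 2 ≤ a ∧ cls τ a = s) +
            (v.filter fun a => τ ^ 2 ≤ a ∧ cls τ a ∈ S') := by
        rw [Multiset.filter_add_filter]
        have e2 : (v.filter fun a => (τ ^ 2 ≤ a ∧ cls τ a = s) ∧ (τ ^ 2 ≤ a ∧ cls τ a ∈ S')) = 0 := by
          rw [Multiset.filter_eq_nil]
          rintro a _ ⟨⟨_, h1⟩, _, h2⟩
          rw [h1] at h2
          exact hs h2
        rw [e2, add_zero]
        apply Multiset.filter_congr
        intro a _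
        rw [mem_insert]
        tauto
      rw [e1]
      exact ((hD2 s).mono (by rw [biUnion_insert]; exact subset_union_left)).add
        (ih.mono (by rw [biUnion_insert]; exact subset_union_right))
  have hall : Dec (Finset.range (τ ^ 2) ∪ S.biUnion D) (3 ^ j * (μ + 1)) v := by
    have e1 : v = (v.filter fun a => a < τ ^ 2) + (v.filter fun a => τ ^ 2 ≤ a ∧ cls τ a ∈ S) := by
      have e2 : (v.filter fun a => τ ^ 2 ≤ a ∧ cls τ a ∈ S) = v.filter fun a => ¬ a < τ ^ 2 := by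
        apply Multiset.filter_congr
        intro a ha
        rw [not_lt]
        refine ⟨fun h => h.1, fun h => ⟨h, ?_⟩⟩
        rw [hS, Multiset.mem_toFinset]
        exact Multiset.mem_map_of_mem _ ha
      rw [e2, Multiset.filter_add_not]
    have h1 : Dec (Finset.range (τ ^ 2) ∪ S.biUnion D) (3 ^ j * (μ + 1))
        (v.filter fun a => a < τ ^ 2) := by
      apply Dec.small
      intro a ha
      rw [Multiset.mem_filter] at ha
      have h2 := hv a ha.1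
      refine ⟨mem_union_left _ (Finset.mem_range.2 ha.2), h2.1, ?_⟩
      have : μ + 1 ≤ 3 ^ j * (μ + 1) := Nat.le_mul_of_pos_left _ (by positivity)
      omega
    have h2 := h1.add ((hsum S).mono subset_union_right)
    rw [← e1] at h2
    exact h2
  refine hall.ge ?_ h0 hQ
  refine (card_union_le _ _).trans ?_
  rw [card_range]
  apply Nat.add_le_add_left
  refine card_biUnion_le.trans ?_
  calc ∑ s ∈ S, (D s).card ≤ S.card • L := sum_le_card_nsmul _ _ _ fun s _ => hD1 s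
    _ = S.card * L := rfl
    _ ≤ _ := Nat.mul_le_mul_right _ hScard

end Pool.Agent.Helper65.Comp
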