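import Pool.Agent.Helper65.Comp.Main1

/-! The explicit bound. -/

set_option autoImplicit false

namespace Pool.Agent.Helper65.Comp

open Finset Module Pool.Agent.TH176.Nag Pool.Agent.TH603.Sur Pool.Agent.TH763.DB
open Pool.Agent.TH641.UM Pool.Agent.TH2.NU Pool.Agent.TH545.SD

theorem exists_pow9 (x : ℕ) (hx : 1 ≤ x) : ∃ j : ℕ, x ≤ 9 ^ j ∧ 9 ^ j ≤ 9 * x := by
  induction x, hx using Nat.le_induction with
  | base => exact ⟨0, by norm_num, by norm_num⟩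
  | succ x hx ih =>
    obtain ⟨j, h1, h2⟩ := ih
    rcases Nat.lt_or_ge x (9 ^ j) with h | h
    · exact ⟨j, h, by omega⟩
    · refine ⟨j + 1, ?_, ?_⟩
      · rw [pow_succ]
        omega
      · rw [pow_succ]
        omega

/-- **Few clusters**, small sum. -/
theorem main_num {μ r : ℕ} (hμ : 1 ≤ μ) (hr1 : 1 ≤ r) {v : Multiset ℕ}
    (hv : ∀ a ∈ v, 1 ≤ a ∧ a ≤ μ) (hr : (v.map Nat.sqrt).toFinset.card ≤ r)
    (hQ : 10 ^ 17 * r * μ ^ 2 * (Nat.log 2 μ + 1) ^ 5 ≤ sq2 v)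
    (hn : Multiset.card v < 25000 * (μ + 1) ^ 2) (d : ℕ) : GE d v := by
  obtain ⟨ℓ, hℓ⟩ : ∃ ℓ, ℓ = Nat.log 2 μ + 1 := ⟨_, rfl⟩
  have hℓ1 : 1 ≤ ℓ := by omega
  have hμℓ : μ < 2 ^ ℓ := by
    rw [hℓ]
    exact Nat.lt_pow_succ_log_self (by norm_num) μ
  rw [← hℓ] at hQ
  obtain ⟨j, hj1, hj2⟩ := exists_pow9 (2 * ℓ + 4) (by omega)
  obtain ⟨k, hk⟩ : ∃ k, k + 2 = 9 ^ j := ⟨9 ^ j - 2, by omega⟩
  obtain ⟨s, hs⟩ : ∃ s, s = 3 ^ j := ⟨_, rfl⟩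
  have hs1 : 1 ≤ s := by rw [hs]; exact Nat.one_le_pow _ _ (by norm_num)
  have hG : k + 2 = s ^ 2 := by
    rw [hk, hs, ← pow_mul, mul_comm, pow_mul]
    norm_num
  have h4 : (2 ^ ℓ) * (2 ^ ℓ) = 4 ^ ℓ := by
    rw [← mul_pow]
    norm_num
  have hμ2 : (μ + 1) ^ 2 ≤ 4 ^ ℓ := by
    rw [← h4, sq]
    exact Nat.mul_le_mul hμℓ hμℓ
  have hpos4 : 0 < 4 ^ ℓ := by positivity
  have hR : (k + 2) * (μ + 1).choose 2 + 1 < 4 ^ (k + 1) := by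
    have e1 : (μ + 1).choose 2 ≤ 4 ^ ℓ := by
      have := Pool.Agent.TH2.NU.two_choose μ
      nlinarith
    have e2 : (4 : ℕ) ^ (k + 1) = 2 ^ k * 2 ^ (k + 2) := by
      rw [← pow_add, show (4 : ℕ) = 2 ^ 2 by norm_num, ← pow_mul]
      congr 1
      ring
    have e3 : 2 ^ (2 * ℓ + 2) ≤ 2 ^ k := Nat.pow_le_pow_right (by norm_num) (by omega)
    have e4 : 2 ^ (2 * ℓ + 2) = 4 * 4 ^ ℓ := by
      rw [pow_add, pow_mul]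
      norm_num
      ring
    have e5 : k + 2 < 2 ^ (k + 2) := Nat.lt_two_pow_self
    rw [e2]
    calc (k + 2) * (μ + 1).choose 2 + 1 ≤ (k + 2) * 4 ^ ℓ + 1 :=
          Nat.add_le_add_right (Nat.mul_le_mul_left _ e1) 1
      _ < (4 * 4 ^ ℓ) * (k + 2) := by nlinarith
      _ ≤ 2 ^ k * 2 ^ (k + 2) := Nat.mul_le_mul (by rw [← e4]; exact e3) e5.le
  have hi : Multiset.card v < 2 ^ (2 * ℓ + 3) * (4 * (k + 2) ^ 3 * 4) := by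
    have e4 : 2 ^ (2 * ℓ + 3) = 8 * 4 ^ ℓ := by
      rw [pow_add, pow_mul]
      norm_num
      ring
    rw [e4]
    have e5 : 6 ^ 3 ≤ (k + 2) ^ 3 := Nat.pow_le_pow_left (by omega) 3
    calc Multiset.card v < 25000 * (μ + 1) ^ 2 := hn
      _ ≤ 25000 * 4 ^ ℓ := Nat.mul_le_mul_left _ hμ2
      _ ≤ 8 * 4 ^ ℓ * (4 * 6 ^ 3 * 4) := by
          have : 8 * 4 ^ ℓ * (4 * 6 ^ 3 * 4) = 27648 * 4 ^ ℓ := by ring
          omega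
      _ ≤ _ := Nat.mul_le_mul_left _ (by omega)
  have h0 : 0 < sq2 v := by
    refine lt_of_lt_of_le ?_ hQ
    positivity
  refine main_nat (τ := 4 * 3 ^ j) rfl hk hR hv hi hr h0 ?_ d
  refine le_trans ?_ hQ
  rw [← hs, hG]
  have f1 : s ^ 2 ≤ 54 * ℓ := by
    rw [← hG, hk]
    omega
  have f2 : (4 * s) ^ 2 + 4 * s * r * (4 * (s ^ 2) ^ 2 * 4 * (2 * (2 * ℓ + 3) + s ^ 2)) ≤
      208 * r * s ^ 7 := by
    have g1 : 2 * (2 * ℓ + 3) + s ^ 2 ≤ 3 * s ^ 2 := by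
      have : 2 * ℓ + 4 ≤ s ^ 2 := by rw [← hG, hk]; exact hj1
      omega
    have g2 : 4 * s * r * (4 * (s ^ 2) ^ 2 * 4 * (2 * (2 * ℓ + 3) + s ^ 2)) ≤
        4 * s * r * (4 * (s ^ 2) ^ 2 * 4 * (3 * s ^ 2)) :=
      Nat.mul_le_mul_left _ (Nat.mul_le_mul_left _ g1)
    have g3 : 4 * s * r * (4 * (s ^ 2) ^ 2 * 4 * (3 * s ^ 2)) = 192 * r * s ^ 7 := by ring
    have g4 : (4 * s) ^ 2 ≤ 16 * r * s ^ 7 := by
      have : s ^ 2 ≤ s ^ 7 := Nat.pow_le_pow_right hs1 (by norm_num)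
      have h5 : s ^ 7 ≤ r * s ^ 7 := Nat.le_mul_of_pos_left _ hr1
      calc (4 * s) ^ 2 = 16 * s ^ 2 := by ring
        _ ≤ 16 * (r * s ^ 7) := Nat.mul_le_mul_left _ (this.trans h5)
        _ = _ := by ring
    have g5 : 208 * r * s ^ 7 = 16 * r * s ^ 7 + 192 * r * s ^ 7 := by ring
    omega
  have f3 : (s * (μ + 1)) ^ 2 ≤ 4 * s ^ 2 * μ ^ 2 := by
    have : s * (μ + 1) ≤ 2 * (s * μ) := by nlinarith
    calc (s * (μ + 1)) ^ 2 ≤ (2 * (s * μ)) ^ 2 := Nat.pow_le_pow_left this 2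
      _ = _ := by ring
  have f4 : s ^ 9 ≤ (54 * ℓ) ^ 5 := by
    calc s ^ 9 ≤ s ^ 10 := Nat.pow_le_pow_right hs1 (by norm_num)
      _ = (s ^ 2) ^ 5 := by ring
      _ ≤ _ := Nat.pow_le_pow_left f1 5
  calc 240000 * ((4 * s) ^ 2 + 4 * s * r * (4 * (s ^ 2) ^ 2 * 4 * (2 * (2 * ℓ + 3) + s ^ 2))) *
        (s * (μ + 1)) ^ 2 ≤ 240000 * (208 * r * s ^ 7) * (4 * s ^ 2 * μ ^ 2) :=
        Nat.mul_le_mul (Nat.mul_le_mul_left _ f2) f3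
    _ = 199680000 * r * μ ^ 2 * s ^ 9 := by ring
    _ ≤ 199680000 * r * μ ^ 2 * (54 * ℓ) ^ 5 := Nat.mul_le_mul_left _ f4
    _ = 91686071992320000 * r * μ ^ 2 * ℓ ^ 5 := by ring
    _ ≤ 10 ^ 17 * r * μ ^ 2 * ℓ ^ 5 := by
        have : 91686071992320000 * r * μ ^ 2 * ℓ ^ 5 = 91686071992320000 * (r * μ ^ 2 * ℓ ^ 5) := by
          ring
        rw [this]
        calc 91686071992320000 * (r * μ ^ 2 * ℓ ^ 5) ≤ 10 ^ 17 * (r * μ ^ 2 * ℓ ^ 5) :=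
              Nat.mul_le_mul_right _ (by norm_num)
          _ = _ := by ring

end Pool.Agent.Helper65.Comp
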