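import Pool.Agent.Helper65.Comp.Main2
import Pool.Agent.Y205.AV.Large

/-! Vectors with few clusters. -/

set_option autoImplicit false

namespace Pool.Agent.Helper65.Comp

open Finset Module Pool.Agent.TH176.Nag Pool.Agent.TH603.Sur Pool.Agent.TH763.DB
open Pool.Agent.TH641.UM Pool.Agent.TH2.NU Pool.Agent.TH545.SD
open Pool.Agent.H932R3 (ExpDim)

/-- The number of values of `⌊√(v i)⌋`. -/
def clusters {k : ℕ} (v : Fin k → ℕ) : ℕ := (univ.image fun i => Nat.sqrt (v i)).card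

/-- Many points in few clusters. -/
def Many {k : ℕ} (v : Fin k → ℕ) : Prop :=
  (∀ i, 1 ≤ v i) ∧ ∃ μ r : ℕ, 1 ≤ μ ∧ 1 ≤ r ∧ (∀ i, v i ≤ μ) ∧ (clusters v ≤ r ∨ Nat.sqrt μ ≤ r) ∧
    10 ^ 17 * r * μ ^ 2 * (Nat.log 2 μ + 1) ^ 5 ≤ ∑ i, v i ^ 2

theorem Many.ge {k : ℕ} {v : Fin k → ℕ} (h : Many v) (d : ℕ) : GE d (ms v) := by
  classical
  obtain ⟨hpos, μ, r, hμ, hr1, hv, hr, hQ⟩ := h
  have hmem : ∀ a ∈ ms v, ∃ i, a = v i := by
    intro a ha
    rw [← ms_map, Multiset.mem_map] at ha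
    obtain ⟨i, -, hi⟩ := ha
    exact ⟨i, hi.symm⟩
  have hcard : Multiset.card (ms v) = k := by
    rw [← ms_map]
    simp
  have hcl : clusters v ≤ r := by
    rcases hr with hr | hr
    · exact hr
    · refine le_trans ?_ hr
      have : (univ.image fun i => Nat.sqrt (v i)) ⊆ Finset.Icc 1 (Nat.sqrt μ) := by
        intro x hx
        obtain ⟨i, -, rfl⟩ := mem_image.1 hx
        rw [Finset.mem_Icc]
        exact ⟨Nat.sqrt_pos.2 (hpos i), Nat.sqrt_le_sqrt (hv i)⟩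
      exact (card_le_card this).trans (by simp)
  rcases Nat.lt_or_ge k (25000 * (μ + 1) ^ 2) with hk | hk
  · refine main_num hμ hr1 ?_ ?_ ?_ (by rw [hcard]; exact hk) d
    · intro a ha
      obtain ⟨i, rfl⟩ := hmem a ha
      exact ⟨hpos i, hv i⟩
    · refine le_trans (card_le_card ?_) hcl
      intro x hx
      rw [Multiset.mem_toFinset, Multiset.mem_map] at hx
      obtain ⟨a, ha, rfl⟩ := hx
      obtain ⟨i, rfl⟩ := hmem a ha
      exact mem_image_of_mem _ (mem_univ i)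
    · unfold sq2
      rw [sum_map_ms v fun a => a ^ 2]
      exact hQ
  · obtain ⟨F, hF, hF'⟩ := Pool.Agent.Y205.AV.all_vectors v
    refine GE.of (GD_of_expDim ⟨F, hF, fun P hP => hF' P hP d μ hv ?_⟩)
    refine le_trans hk (le_trans ?_ (Nat.le_add_right _ _))
    calc k = ∑ _i : Fin k, 1 := by simp
      _ ≤ ∑ i, v i := sum_le_sum fun i _ => hpos i

/-- from all degrees to one open set -/
theorem exp_of_GE {n : ℕ} {w : Fin n → ℕ} (hpos : 0 < ∑ p, (w p + 1).choose 2)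
    (h : ∀ d, GE d (ms w)) :
    ∃ F : MvPolynomial (Fin n × Fin 2) ℚ, F ≠ 0 ∧ ∀ {L : Type} [Field L] [CharZero L]
      (P : Fin n → Fin 2 → L), MvPolynomial.aeval (fun ij : Fin n × Fin 2 => P ij.1 ij.2) F ≠ 0 →
      ∀ d, ExpDim L w P d :=
  Pool.Agent.Y205.MD.expDim_of_crit hpos fun d _ _ => (h d).out _ w rfl

theorem cond_pos {k : ℕ} {v : Fin k → ℕ} (i : Fin k) (hi : 1 ≤ v i) :
    0 < ∑ p, (v p + 1).choose 2 := by
  refine lt_of_lt_of_le (Nat.choose_pos (show 2 ≤ v i + 1 by omega))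
    (single_le_sum (f := fun p => (v p + 1).choose 2) (fun _ _ => Nat.zero_le _) (mem_univ i))

theorem Many.exists {k : ℕ} {v : Fin k → ℕ} (h : Many v) : ∃ i : Fin k, 1 ≤ v i := by
  obtain ⟨hpos, μ, r, hμ, hr1, hv, hr, hQ⟩ := h
  by_contra hcon
  push Not at hcon
  have h0 : 0 < ∑ i, v i ^ 2 := lt_of_lt_of_le (by positivity) hQ
  have h1 : ∑ i, v i ^ 2 = 0 := by
    refine sum_eq_zero fun i _ => ?_
    have := hcon i
    have := hpos i
    omega
  omega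

theorem Many.exp {k : ℕ} {v : Fin k → ℕ} (h : Many v) :
    ∃ F : MvPolynomial (Fin k × Fin 2) ℚ, F ≠ 0 ∧ ∀ {L : Type} [Field L] [CharZero L]
      (P : Fin k → Fin 2 → L), MvPolynomial.aeval (fun ij : Fin k × Fin 2 => P ij.1 ij.2) F ≠ 0 →
      ∀ d, ExpDim L v P d := by
  obtain ⟨i, hi⟩ := h.exists
  exact exp_of_GE (cond_pos i hi) h.ge

/-- The class `(d; w)`: at some of the points `w` is at most a vector `v` with many points in few
clusters, equal to it or with `χ (d; v) ≥ 0`, and `w` is at most `1` at the other points. -/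
def Good {n : ℕ} (d : ℕ) (w : Fin n → ℕ) : Prop :=
  ∃ (k : ℕ) (e : Fin k ↪ Fin n) (v : Fin k → ℕ), Many v ∧ (∀ i, i ∉ Set.range e → w i ≤ 1) ∧
    (∀ j, w (e j) ≤ v j) ∧ ((∀ j, w (e j) = v j) ∨ ∑ j, (v j + 1).choose 2 ≤ (d + 2).choose 2)

theorem good_exp {n d : ℕ} {w : Fin n → ℕ} (h : Good d w)
    {K : Type} [Field K] [CharZero K] {P : Fin n → Fin 2 → K}
    (hP : AlgebraicIndependent ℚ (fun ij : Fin n × Fin 2 => P ij.1 ij.2)) : ExpDim K w P d := by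
  obtain ⟨k, e, v, hr, h1, hle, h2⟩ := h
  obtain ⟨F, hF, hF'⟩ := hr.exp
  have h3 := Pool.Agent.TH885.CO.exp_plus e (w := w) (d := d)
    (fun i hi => h1 i fun ⟨a, ha⟩ => hi (Finset.mem_map.2 ⟨a, Finset.mem_univ _, ha⟩))
    ⟨F, hF, fun Q hQ => by
      rcases h2 with h2 | h2
      · have e1 : (fun j => w (e j)) = v := funext h2
        rw [e1]
        exact hF' Q hQ d
      · exact Pool.Agent.TH442.NF.exp_mono (hF' Q hQ d) h2 hle⟩ hP
  have h4 : Module.finrank K ↥(Pool.Agent.TH167.SHDefs.sys P d w) =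
      (d + 2).choose 2 - ∑ j, (w j + 1).choose 2 := by
    rw [Pool.Agent.TH885.CO.sys_eq]
    exact h3
  exact h4

/-- all degrees -/
theorem all_exp {n k : ℕ} {w : Fin n → ℕ} (e : Fin k ↪ Fin n) (h : Many fun j => w (e j))
    (h1 : ∀ i, i ∉ Set.range e → w i ≤ 1) :
    ∃ F : MvPolynomial (Fin n × Fin 2) ℚ, F ≠ 0 ∧ ∀ {L : Type} [Field L] [CharZero L]
      (P : Fin n → Fin 2 → L), MvPolynomial.aeval (fun ij : Fin n × Fin 2 => P ij.1 ij.2) F ≠ 0 →
      ∀ d, ExpDim L w P d := by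
  obtain ⟨j, hj⟩ := h.exists
  refine exp_of_GE (cond_pos (e j) hj) fun d => ?_
  obtain ⟨F, hF, hF'⟩ := Pool.Agent.TH442.NF.to_open (d := d) (w := w)
    (fun {K} _ _ {P} hP => good_exp ⟨k, e, _, h, h1, fun _ => le_rfl, Or.inl fun _ => rfl⟩ hP)
  exact GE.of (GD_of_expDim ⟨F, hF, fun P hP => hF' P hP⟩)

/-- The Weyl group orbit of a standard good class. -/
theorem orbit_good {n : ℕ} (hn : 4 ≤ n) {K : Type} [Field K] [CharZero K] {P : Fin n → Fin 2 → K}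
    (hP : AlgebraicIndependent ℚ (fun ij : Fin n × Fin 2 => P ij.1 ij.2)) {d : ℕ} {w : Fin n → ℕ}
    {d' : ℕ} {w' : Fin n → ℕ}
    (h : Pool.Agent.TH442.NF.Ch (Pool.Agent.TH442.NF.cls d w) (Pool.Agent.TH442.NF.cls d' w'))
    (hs : Pool.Agent.Y536.SH.Standard d' w') (hG : Good d' w') : ExpDim K w P d :=
  Pool.Agent.TH442.NF.up_enef hP h (Pool.Agent.TH442.NF.enef_of_std hn P hs) (good_exp hG hP)

end Pool.Agent.Helper65.Comp
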