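import Pool.Agent.Helper65.Comp.NineL
import Pool.Agent.Helper65.Comp.Gdc

/-! Sizes of groups; `9 ^ j` nearly equal multiplicities. -/

set_option autoImplicit false

namespace Pool.Agent.Helper65.Comp

open Finset Module Pool.Agent.TH176.Nag Pool.Agent.TH603.Sur Pool.Agent.TH763.DB
open Pool.Agent.TH641.UM Pool.Agent.TH2.NU Pool.Agent.TH545.SD

/-- the expected dimension in degree `d`, with explicit binders -/
structure GE (d : ℕ) (v : Multiset ℕ) : Prop where
  out : ∀ (ι : Type) [Fintype ι] (w : ι → ℕ), ms w = v →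
    ((d + 2).choose 2 ≤ TH603.Sur.cond w → Emp w (TZ d)) ∧
      (TH603.Sur.cond w ≤ (d + 2).choose 2 → Sur w (TZ d))

theorem GE.of {d : ℕ} {v : Multiset ℕ} (h : GD d v) : GE d v := ⟨fun _ _ w hw => h w hw⟩

theorem GE.gd {d : ℕ} {v : Multiset ℕ} (h : GE d v) : GD d v := fun w hw => h.out _ w hw

theorem GE.congr {d : ℕ} {v v' : Multiset ℕ} (h : GE d v) (e : v = v') : GE d v' := e ▸ h

/-- **Composition** for multisets of groups. -/
theorem composeM {d : ℕ} {Q : ℕ → Multiset ℕ → Prop} : ∀ (Gs : Multiset (Multiset ℕ))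
    (e : Multiset ℕ), (∀ W ∈ Gs, ∃ b, Sz b W ∧ Q b W ∧ Q (b + 1) W) →
    (∀ B : Multiset ℕ, Multiset.Rel Q B Gs → GE d (B + e)) → GE d (Gs.sum + e) := by
  intro Gs
  induction Gs using Multiset.induction_on with
  | empty =>
    intro e _ h
    have := h 0 (Multiset.rel_zero_left.2 rfl)
    rw [Multiset.sum_zero]
    exact this
  | cons W Gs ih =>
    intro e hG h
    obtain ⟨b, hb, hQ1, hQ2⟩ := hG W (Multiset.mem_cons_self _ _)
    have key : ∀ x, Q x W → GE d ({x} + (Gs.sum + e)) := by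
      intro x hx
      have h1 : GE d (Gs.sum + ({x} + e)) := ih ({x} + e)
        (fun V hV => hG V (Multiset.mem_cons_of_mem hV)) (fun B hB => by
          have h2 := h (x ::ₘ B) (Multiset.rel_cons_right.2 ⟨x, B, hx, hB, rfl⟩)
          refine h2.congr ?_
          rw [← Multiset.singleton_add]
          abel)
      refine h1.congr ?_
      abel
    have h3 : GD d (W + (Gs.sum + e)) :=
      GD.compose1 hb (@GE.gd _ _ (key b hQ1)) (@GE.gd _ _ (key (b + 1) hQ2))
    refine (GE.of (v := W + (Gs.sum + e)) @h3).congr ?_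
    rw [Multiset.sum_cons, add_assoc]

theorem exists_size (c : ℕ) (hc : 1 ≤ c) : ∃ b, 1 ≤ b ∧ (b + 1).choose 2 ≤ c ∧ c ≤ (b + 2).choose 2 := by
  induction c, hc using Nat.le_induction with
  | base => exact ⟨1, le_rfl, by decide, by decide⟩
  | succ c hc ih =>
    obtain ⟨b, h1, h2, h3⟩ := ih
    rcases Nat.lt_or_ge c ((b + 2).choose 2) with h | h
    · exact ⟨b, h1, by omega, h⟩
    · refine ⟨b + 1, by omega, by rw [show b + 1 + 1 = b + 2 from rfl]; omega, ?_⟩
      have h4 : (b + 1 + 2).choose 2 = (b + 2).choose 1 + (b + 2).choose 2 := by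
        rw [show b + 1 + 2 = (b + 2) + 1 from rfl, Nat.choose_succ_succ' (b + 2) 1]
      rw [h4, Nat.choose_one_right]
      omega

theorem two_co (v : Multiset ℕ) : 2 * co v = (v.map fun a => a * (a + 1)).sum := by
  unfold co
  rw [← Multiset.sum_map_mul_left]
  congr 1
  refine Multiset.map_congr rfl fun a _ => ?_
  exact Pool.Agent.TH2.NU.two_choose a

theorem co_lower {v : Multiset ℕ} {h : ℕ} (hv : ∀ a ∈ v, h ≤ a) :
    Multiset.card v * (h * (h + 1)) ≤ 2 * co v := by
  rw [two_co, ← smul_eq_mul]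
  have := Multiset.card_nsmul_le_sum (s := v.map fun a => a * (a + 1)) (a := h * (h + 1)) (by
    intro x hx
    obtain ⟨a, ha, rfl⟩ := Multiset.mem_map.1 hx
    have := hv a ha
    exact Nat.mul_le_mul this (by omega))
  rwa [Multiset.card_map] at this

theorem co_upper {v : Multiset ℕ} {h : ℕ} (hv : ∀ a ∈ v, a ≤ h) :
    2 * co v ≤ Multiset.card v * (h * (h + 1)) := by
  rw [two_co, ← smul_eq_mul]
  have := Multiset.sum_le_card_nsmul (v.map fun a => a * (a + 1)) (h * (h + 1)) (by
    intro x hx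
    obtain ⟨a, ha, rfl⟩ := Multiset.mem_map.1 hx
    have := hv a ha
    exact Nat.mul_le_mul this (by omega))
  rwa [Multiset.card_map] at this

theorem size_lower {b c L h : ℕ} (h1 : L ^ 2 * (h * (h + 1)) ≤ 2 * c) (h2 : c ≤ (b + 2).choose 2) :
    L * h ≤ b + 1 := by
  have h3 := Pool.Agent.TH2.NU.two_choose (b + 1)
  rw [show b + 1 + 1 = b + 2 from rfl] at h3
  by_contra hlt
  push Not at hlt
  have h4 : (b + 1) * (b + 2) < (L * h) * (L * h) :=
    Nat.mul_lt_mul_of_lt_of_le' hlt (by omega) (by omega)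
  nlinarith

theorem size_upper {b c L h : ℕ} (hL : 1 ≤ L) (h1 : 2 * c ≤ L ^ 2 * (h * (h + 1)))
    (h2 : (b + 1).choose 2 ≤ c) : b + 1 ≤ L * (h + 1) := by
  have h3 := Pool.Agent.TH2.NU.two_choose b
  by_contra hlt
  push Not at hlt
  have h4 : (L * (h + 1)) * (L * (h + 1)) ≤ b * b := Nat.mul_le_mul (by omega) (by omega)
  have h5 : 1 ≤ L * (h + 1) := Nat.mul_pos hL (by omega)
  nlinarith

/-- nine nearly equal multiplicities -/
theorem nine_multiset {B : Multiset ℕ} (hc : Multiset.card B = 9) {h K : ℕ}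
    (hB : ∀ x ∈ B, h ≤ x ∧ x ≤ h + K) (hK : 9 * K ^ 2 ≤ 4 * h + 3) (d : ℕ) : GE d B := by
  obtain ⟨s, u, hu⟩ := Pool.Agent.TH545.SD.exists_fam B
  have hs : s = 9 := by
    rw [← hc, ← hu, ← ms_map]
    simp
  subst hs
  have hmem : ∀ i, u i ∈ B := by
    intro i
    rw [← hu]
    exact mem_ms u i
  have h1 : ∑ i, ((u i : ℤ) - h) ^ 2 ≤ 4 * h + 3 := by
    have h2 : ∀ i, ((u i : ℤ) - h) ^ 2 ≤ (K : ℤ) ^ 2 := by
      intro i
      obtain ⟨g1, g2⟩ := hB _ (hmem i)
      have g3 : (h : ℤ) ≤ u i := by exact_mod_cast g1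
      have g4 : (u i : ℤ) ≤ h + K := by exact_mod_cast g2
      exact pow_le_pow_left₀ (by linarith) (by linarith) 2
    have h3 : ∑ i, ((u i : ℤ) - h) ^ 2 ≤ ∑ _i : Fin 9, (K : ℤ) ^ 2 := sum_le_sum fun i _ => h2 i
    rw [sum_const, card_univ, Fintype.card_fin, nsmul_eq_mul] at h3
    have h4 : (9 : ℤ) * K ^ 2 ≤ 4 * h + 3 := by exact_mod_cast hK
    push_cast at h3
    linarith
  rw [← hu]
  exact GE.of (nine_GD h1 d)

theorem exists_split (N k : ℕ) : ∀ v : Multiset ℕ, Multiset.card v = N * k →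
    ∃ Gs : Multiset (Multiset ℕ), Gs.sum = v ∧ Multiset.card Gs = N ∧
      ∀ W ∈ Gs, Multiset.card W = k := by
  induction N with
  | zero =>
    intro v hv
    rw [Nat.zero_mul, Multiset.card_eq_zero] at hv
    exact ⟨0, by rw [hv, Multiset.sum_zero], by simp, by simp⟩
  | succ N ih =>
    intro v hv
    obtain ⟨l, rfl⟩ := Quot.exists_rep v
    have hl : l.length = (N + 1) * k := hv
    obtain ⟨Gs, h1, h2, h3⟩ := ih (↑(l.drop k)) (by
      rw [Multiset.coe_card, List.length_drop, hl, Nat.add_mul, Nat.one_mul, Nat.add_sub_cancel])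
    refine ⟨(↑(l.take k) : Multiset ℕ) ::ₘ Gs, ?_, by rw [Multiset.card_cons, h2], ?_⟩
    · rw [Multiset.sum_cons, h1, Multiset.coe_add, List.take_append_drop]
      rfl
    · intro W hW
      rcases Multiset.mem_cons.1 hW with rfl | hW
      · rw [Multiset.coe_card, List.length_take, hl]
        apply Nat.min_eq_left
        exact Nat.le_mul_of_pos_left k (by omega)
      · exact h3 W hW

/-- **`9 ^ j` nearly equal multiplicities** have the expected dimension in all degrees. -/
theorem NE (j : ℕ) : ∀ (h K : ℕ) (v : Multiset ℕ), Multiset.card v = 9 ^ j →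
    (∀ a ∈ v, h ≤ a ∧ a ≤ h + K) → 3 ^ j * (K + 2) ^ 2 ≤ h → ∀ d, GE d v := by
  induction j with
  | zero =>
    intro h K v hv _ _ d
    rw [pow_zero, Multiset.card_eq_one] at hv
    obtain ⟨a, rfl⟩ := hv
    exact GE.of (GD.point d a)
  | succ j ih =>
    intro h K v hv hvh hK d
    obtain ⟨L, hL⟩ : ∃ L, L = 3 ^ j := ⟨_, rfl⟩
    have hL1 : 1 ≤ L := by rw [hL]; exact Nat.one_le_pow _ _ (by norm_num)
    have hL9 : 9 ^ j = L ^ 2 := by
      rw [hL, ← pow_mul, mul_comm, pow_mul]
      norm_num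
    rw [pow_succ, ← hL] at hK
    obtain ⟨Gs, h1, h2, h3⟩ := exists_split 9 (9 ^ j) v (by rw [hv, pow_succ, mul_comm])
    have hle : ∀ W ∈ Gs, W ≤ v := by
      intro W hW
      rw [← h1]
      obtain ⟨G', rfl⟩ := Multiset.exists_cons_of_mem hW
      rw [Multiset.sum_cons]
      exact Multiset.le_add_right _ _
    have key : GE d (Gs.sum + 0) := by
      apply composeM (Q := fun x _ => L * h ≤ x + 1 ∧ x ≤ L * (h + K + 1))
      · intro W hW
        have hWm : ∀ a ∈ W, h ≤ a ∧ a ≤ h + K := fun a ha => hvh a (Multiset.mem_of_le (hle W hW) ha)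
        have c1 := co_lower fun a ha => (hWm a ha).1
        have c2 := co_upper fun a ha => (hWm a ha).2
        rw [h3 W hW, hL9] at c1 c2
        have hh : 1 ≤ h := by
          have : 0 < L * 3 * (K + 2) ^ 2 := by positivity
          omega
        have hc1 : 1 ≤ co W := by
          have : 0 < L ^ 2 * (h * (h + 1)) := by positivity
          omega
        obtain ⟨b, b1, b2, b3⟩ := exists_size (co W) hc1
        have g1 := size_lower c1 b3
        have g2 := size_upper hL1 c2 b2
        have hN : ∀ d, GE d W := ih h K W (h3 W hW) hWm (by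
          rw [← hL]
          nlinarith)
        exact ⟨b, ⟨b1, b2, b3, @GE.gd _ _ (hN _), @GE.gd _ _ (hN _)⟩, ⟨g1, by omega⟩, ⟨by omega, g2⟩⟩
      · intro B hB
        have hcB : Multiset.card B = 9 := by rw [Multiset.card_eq_card_of_rel hB, h2]
        rw [add_zero]
        have hh : 1 ≤ L * h := by
          have : 0 < L * 3 * (K + 2) ^ 2 := by positivity
          have h5 : 1 ≤ h := by omega
          exact Nat.mul_pos hL1 h5
        refine nine_multiset hcB (h := L * h - 1) (K := L * (K + 1) + 1) ?_ ?_ d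
        · intro x hx
          obtain ⟨W, -, g1, g2⟩ := Multiset.exists_mem_of_rel_of_mem hB hx
          refine ⟨by omega, ?_⟩
          have : L * (h + K + 1) = L * h + L * (K + 1) := by ring
          omega
        · have e1 : 4 * (L * h - 1) + 3 = 4 * (L * h) - 1 := by omega
          have e2 : L * (K + 1) + 1 ≤ L * (K + 2) := by nlinarith
          have e3 : (L * (K + 1) + 1) ^ 2 ≤ (L * (K + 2)) ^ 2 := Nat.pow_le_pow_left e2 2
          have e4 : L * (L * 3 * (K + 2) ^ 2) ≤ L * h := Nat.mul_le_mul_left L hK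
          have e5 : L * (L * 3 * (K + 2) ^ 2) = 3 * (L * (K + 2)) ^ 2 := by ring
          have e6 : 1 ≤ (L * (K + 2)) ^ 2 := Nat.one_le_pow _ _ (Nat.mul_pos hL1 (by omega))
          rw [e1]
          omega
    rw [h1, add_zero] at key
    exact key

end Pool.Agent.Helper65.Comp
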