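import Pool.Agent.TH167.TT.Conv9
import Pool.Agent.TH442.NF.HH
import Pool.Agent.TH545.SD.Dh

/-! Nine nearly equal multiplicities. -/

set_option autoImplicit false

namespace Pool.Agent.Helper65.Comp

open Finset Module Pool.Agent.TH167 Pool.Agent.TH167.SHDefs

/-- numerical contradiction -/
theorem nine_num {K : Type} [Field K] {P : Fin 9 → Fin 2 → K} {d : ℕ} {w : Fin 9 → ℕ} {h : ℕ}
    (hδ : ∑ i, ((w i : ℤ) - h) ^ 2 ≤ 4 * h + 3) {d' : ℕ} {w' : Fin 9 → ℕ} {k : ℕ}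
    {G : Fin k → MvPolynomial (Fin 3) K} {e : Fin k → ℕ} {u : Fin k → Fin 9 → ℕ} {N : Fin k → ℕ}
    (hD : Decomp P d w d' w' G e u N) (hv : 0 ≤ virtdim d' w') {a : Fin k} (ha : 2 ≤ N a) :
    False := by
  have h1 := (hD.curve a).canonical
  have h2 := (hD.curve a).self
  unfold interK at h1
  unfold inter at h2
  -- the intersection number with the curve
  have h3 : (d : ℤ) * e a - ∑ i, (w i : ℤ) * u a i = -N a := by
    have h4 := hD.orthogonal a
    unfold inter at h4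
    have h5 : ∀ b, (N b : ℤ) * ((e b : ℤ) * e a - ∑ i, (u b i : ℤ) * u a i) =
        if b = a then -(N a : ℤ) else 0 := by
      intro b
      by_cases hb : b = a
      · subst hb
        rw [if_pos rfl, h2]
        ring
      · rw [if_neg hb]
        have := hD.disjoint b a hb
        unfold inter at this
        rw [this, mul_zero]
    have h6 : ∑ b, (N b : ℤ) * ((e b : ℤ) * e a - ∑ i, (u b i : ℤ) * u a i) = -(N a : ℤ) := by
      rw [sum_congr rfl fun b _ => h5 b, sum_ite_eq' univ a, if_pos (mem_univ a)]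
    have h7 : (d : ℤ) = d' + ∑ b, (N b : ℤ) * e b := by
      rw [hD.degree]
      push_cast
      rfl
    have h8 : ∀ i, (w i : ℤ) = w' i + ∑ b, (N b : ℤ) * u b i := by
      intro i
      rw [hD.mult i]
      push_cast
      rfl
    have h9 : ∑ i, (w i : ℤ) * u a i = ∑ i, (w' i : ℤ) * u a i +
        ∑ b, (N b : ℤ) * ∑ i, (u b i : ℤ) * u a i := by
      calc ∑ i, (w i : ℤ) * u a i = ∑ i, ((w' i : ℤ) * u a i + ∑ b, (N b : ℤ) * ((u b i : ℤ) * u a i)) := by
            refine sum_congr rfl fun i _ => ?_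
            rw [h8 i, add_mul, sum_mul]
            congr 1
            refine sum_congr rfl fun b _ => by ring
        _ = _ := by
            rw [sum_add_distrib, sum_comm]
            congr 1
            refine sum_congr rfl fun b _ => by rw [mul_sum]
    rw [h9, h7, ← h6, add_mul, sum_mul]
    have h10 : ∑ b, (N b : ℤ) * ((e b : ℤ) * e a - ∑ i, (u b i : ℤ) * u a i) =
        ∑ b, (N b : ℤ) * e b * e a - ∑ b, (N b : ℤ) * ∑ i, (u b i : ℤ) * u a i := by
      rw [← sum_sub_distrib]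
      refine sum_congr rfl fun b _ => by ring
    rw [h10]
    linarith
  -- the canonical degree
  have h4 : 3 * (d : ℤ) - ∑ i, (w i : ℤ) = 3 * (d' : ℤ) - ∑ i, (w' i : ℤ) + ∑ b, (N b : ℤ) := by
    have h5 : (d : ℤ) = d' + ∑ b, (N b : ℤ) * e b := by
      rw [hD.degree]
      push_cast
      rfl
    have h6 : ∑ i, (w i : ℤ) = ∑ i, (w' i : ℤ) + ∑ b, (N b : ℤ) * ∑ i, (u b i : ℤ) := by
      calc ∑ i, (w i : ℤ) = ∑ i, ((w' i : ℤ) + ∑ b, (N b : ℤ) * (u b i : ℤ)) := by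
            refine sum_congr rfl fun i _ => ?_
            rw [hD.mult i]
            push_cast
            rfl
        _ = _ := by
            rw [sum_add_distrib, sum_comm]
            congr 1
            refine sum_congr rfl fun b _ => by rw [mul_sum]
    have h7 : ∀ b, ∑ i, (u b i : ℤ) = 3 * e b - 1 := by
      intro b
      have := (hD.curve b).canonical
      unfold interK at this
      linarith
    have h8 : ∑ b, (N b : ℤ) * ∑ i, (u b i : ℤ) = 3 * ∑ b, (N b : ℤ) * e b - ∑ b, (N b : ℤ) := by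
      rw [mul_sum, ← sum_sub_distrib]
      refine sum_congr rfl fun b _ => ?_
      rw [h7 b]
      ring
    rw [h6, h5, h8]
    ring
  have h5 : 0 ≤ 3 * (d' : ℤ) - ∑ i, (w' i : ℤ) := by
    unfold virtdim at hv
    have c2 : ∀ x : ℕ, 2 * (((x + 1).choose 2 : ℕ) : ℤ) = (x : ℤ) ^ 2 + x := by
      intro x
      have : (x + 1).choose 2 * 2 = (x + 1) * x := by
        rw [Nat.choose_two_right]
        exact Nat.div_mul_cancel (Nat.even_mul_pred_self (x + 1)).two_dvd
      have h := congrArg (Nat.cast : ℕ → ℤ) this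
      push_cast at h
      linarith
    have h6 := c2 (d' + 1)
    have h7 : 2 * ∑ i, (((w' i + 1).choose 2 : ℕ) : ℤ) = ∑ i, (w' i : ℤ) ^ 2 + ∑ i, (w' i : ℤ) := by
      rw [mul_sum, ← sum_add_distrib]
      exact sum_congr rfl fun i _ => c2 (w' i)
    push_cast at h6
    have h8 : (∑ i, (w' i : ℤ)) ^ 2 ≤ 9 * ∑ i, (w' i : ℤ) ^ 2 := by
      have := sq_sum_le_card_mul_sum_sq (s := (univ : Finset (Fin 9))) (f := fun i => (w' i : ℤ))
      simpa using this
    have h6' : 2 * (((d' + 2).choose 2 : ℕ) : ℤ) = ((d' : ℤ) + 1) ^ 2 + (d' + 1) := h6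
    push_cast at hv h6' h7
    have h9 : 0 ≤ ∑ i, (w' i : ℤ) := sum_nonneg fun i _ => by positivity
    have h10 : (0 : ℤ) ≤ d' := by positivity
    by_contra hlt
    push Not at hlt
    nlinarith
  have h6 : (N a : ℤ) ≤ ∑ b, (N b : ℤ) :=
    single_le_sum (f := fun b => (N b : ℤ)) (fun b _ => by positivity) (mem_univ a)
  -- the quadratic form
  have h7 : ∑ i, (3 * (u a i : ℤ) - e a) ^ 2 = 9 + 6 * (e a : ℤ) := by
    have e1 : ∑ i, (3 * (u a i : ℤ) - e a) ^ 2 =
        9 * ∑ i, (u a i : ℤ) * u a i - 6 * e a * ∑ i, (u a i : ℤ) + 9 * (e a : ℤ) ^ 2 := by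
      have : ∑ _i : Fin 9, (e a : ℤ) ^ 2 = 9 * (e a : ℤ) ^ 2 := by simp
      rw [← this, mul_sum, mul_sum, ← sum_sub_distrib, ← sum_add_distrib]
      exact sum_congr rfl fun i _ => by ring
    have e2 : ∑ i, (u a i : ℤ) = 3 * e a - 1 := by linarith
    have e3 : ∑ i, (u a i : ℤ) * u a i = (e a : ℤ) * e a + 1 := by linarith
    rw [e1, e2, e3]
    ring
  have h8 : ∑ i, ((w i : ℤ) - h) * (3 * (u a i : ℤ) - e a) =
      (e a : ℤ) * (3 * d - ∑ i, (w i : ℤ)) + 3 * h + 3 * N a := by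
    have e1 : ∑ i, ((w i : ℤ) - h) * (3 * (u a i : ℤ) - e a) =
        3 * ∑ i, (w i : ℤ) * u a i - e a * ∑ i, (w i : ℤ) - 3 * h * ∑ i, (u a i : ℤ) +
          9 * (h * e a : ℤ) := by
      have : ∑ _i : Fin 9, (h * e a : ℤ) = 9 * (h * e a : ℤ) := by simp
      rw [← this, mul_sum, mul_sum, mul_sum, ← sum_sub_distrib, ← sum_sub_distrib, ← sum_add_distrib]
      exact sum_congr rfl fun i _ => by ring
    have e2 : ∑ i, (u a i : ℤ) = 3 * e a - 1 := by linarith
    have e3 : ∑ i, (w i : ℤ) * u a i = (d : ℤ) * e a + N a := by linarith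
    rw [e1, e2, e3]
    ring
  have h9 : 0 ≤ ∑ i, (3 * ((w i : ℤ) - h) - 2 * (3 * (u a i : ℤ) - e a)) ^ 2 :=
    sum_nonneg fun i _ => sq_nonneg _
  have h10 : ∑ i, (3 * ((w i : ℤ) - h) - 2 * (3 * (u a i : ℤ) - e a)) ^ 2 =
      9 * ∑ i, ((w i : ℤ) - h) ^ 2 - 12 * ∑ i, ((w i : ℤ) - h) * (3 * (u a i : ℤ) - e a) +
        4 * ∑ i, (3 * (u a i : ℤ) - e a) ^ 2 := by
    rw [mul_sum, mul_sum, mul_sum, ← sum_sub_distrib, ← sum_add_distrib]
    exact sum_congr rfl fun i _ => by ring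
  rw [h10, h8, h7] at h9
  have h11 : (2 : ℤ) ≤ 3 * d - ∑ i, (w i : ℤ) := by
    have : (2 : ℤ) ≤ N a := by exact_mod_cast ha
    linarith
  have h12 : (2 : ℤ) ≤ N a := by exact_mod_cast ha
  have h13 : (0 : ℤ) ≤ e a := by positivity
  nlinarith

/-- nine nearly equal multiplicities, generic points -/
theorem nine_gen {K : Type} [Field K] [CharZero K] {P : Fin 9 → Fin 2 → K}
    (hP : AlgebraicIndependent ℚ (fun ij : Fin 9 × Fin 2 => P ij.1 ij.2)) {w : Fin 9 → ℕ} {h : ℕ}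
    (hδ : ∑ i, ((w i : ℤ) - h) ^ 2 ≤ 4 * h + 3) (d : ℕ) : Pool.Agent.H932R3.ExpDim K w P d := by
  have h1 : ¬ SHDefs.Special P d w := by
    intro hs
    have h2 := (TT.hh9_gen (r := 5) hP d w (by
      refine (card_le_univ _).trans ?_
      simp)).1 hs
    obtain ⟨d', w', k, G, e, u, N, hD, hv, a, ha⟩ := h2
    exact nine_num hδ hD hv ha
  unfold SHDefs.Special at h1
  push Not at h1
  unfold SHDefs.dimL SHDefs.virtdim at h1
  have h2 : Module.finrank K ↥(SHDefs.sys P d w) = (d + 2).choose 2 - ∑ j, (w j + 1).choose 2 := by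
    have e : ∑ i, ((w i + 1).choose 2 : ℤ) = ((∑ i, (w i + 1).choose 2 : ℕ) : ℤ) := by
      push_cast
      rfl
    rw [e] at h1
    omega
  exact h2

theorem nine_GD {w : Fin 9 → ℕ} {h : ℕ} (hδ : ∑ i, ((w i : ℤ) - h) ^ 2 ≤ 4 * h + 3) (d : ℕ) :
    Pool.Agent.TH545.SD.GD d (Pool.Agent.TH641.UM.ms w) := by
  obtain ⟨F, hF, hF'⟩ := Pool.Agent.TH442.NF.to_open (d := d) (w := w)
    (fun {K} _ _ {P} hP => nine_gen hP hδ d)
  exact Pool.Agent.TH545.SD.GD_of_expDim ⟨F, hF, fun P hP => hF' P hP⟩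

end Pool.Agent.Helper65.Comp
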