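import Pool.Agent.Helper65.Comp.Dat
import Pool.Agent.Y205.MD.Main

/-! Scaling of one direction: from the monomial conditions to the leading forms of the clusters. -/

set_option autoImplicit false

namespace Pool.Agent.Helper65.Comp

open Finset Module Pool.Agent.TH176.Nag Pool.Agent.TH603.Sur Pool.Agent.TH763.DB
open Pool.Agent.TH641.UM Pool.Agent.TH2.NU

section
variable {K : Type} [Field K] [CharZero K]

open Polynomial in
/-- injectivity is an open condition in a parameter -/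
theorem inj_open {V : Type} [AddCommGroup V] [Module K V] [FiniteDimensional K V]
    {R : Type} [Finite R] (n : ℕ) (φ : R → ℕ → (V →ₗ[K] K))
    (h0 : ∀ v, (∀ r, φ r 0 v = 0) → v = 0) :
    ∃ σ : K, σ ≠ 0 ∧ ∀ v, (∀ r, ∑ t ∈ range (n + 1), σ ^ t * φ r t v = 0) → v = 0 := by
  classical
  obtain ⟨Φ, hΦ⟩ : ∃ Φ : ℕ → (V →ₗ[K] (R → K)), ∀ t v r, Φ t v r = φ r t v :=
    ⟨fun t => LinearMap.pi (fun r => φ r t), fun _ _ _ => rfl⟩
  have hker : LinearMap.ker (Φ 0) = ⊥ := by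
    rw [LinearMap.ker_eq_bot']
    intro v hv
    apply h0
    intro r
    rw [← hΦ, hv, Pi.zero_apply]
  obtain ⟨g, hg⟩ := LinearMap.exists_leftInverse_of_injective (Φ 0) hker
  obtain ⟨M, hM⟩ : ∃ M : ℕ → Matrix (Fin (finrank K V)) (Fin (finrank K V)) K,
      ∀ t, M t = LinearMap.toMatrix (finBasis K V) (finBasis K V) (g ∘ₗ Φ t) := ⟨_, fun _ => rfl⟩
  obtain ⟨P, hP⟩ : ∃ P : Matrix (Fin (finrank K V)) (Fin (finrank K V)) K[X],
      P = ∑ t ∈ range (n + 1), (X ^ t : K[X]) • (M t).map C := ⟨_, rfl⟩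
  have hPe : ∀ σ : K, P.map (evalRingHom σ) = ∑ t ∈ range (n + 1), σ ^ t • M t := by
    intro σ
    ext i j
    rw [hP, Matrix.map_apply, Matrix.sum_apply, Matrix.sum_apply, map_sum]
    refine sum_congr rfl fun t _ => ?_
    simp only [Matrix.smul_apply, Matrix.map_apply, smul_eq_mul, coe_evalRingHom, eval_mul, eval_pow,
      eval_X, eval_C]
  have hdet : ∀ σ : K, P.det.eval σ = (∑ t ∈ range (n + 1), σ ^ t • M t).det := by
    intro σ
    rw [← hPe, ← coe_evalRingHom, RingHom.map_det, RingHom.mapMatrix_apply]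
  have hM0 : M 0 = 1 := by
    rw [hM, hg]
    exact LinearMap.toMatrix_id _
  have h1 : P.det.eval 0 = 1 := by
    rw [hdet]
    have : ∑ t ∈ range (n + 1), (0 : K) ^ t • M t = 1 := by
      rw [sum_range_succ']
      simp [hM0]
    rw [this, Matrix.det_one]
  have h2 : (X : K[X]) * P.det ≠ 0 := by
    apply mul_ne_zero X_ne_zero
    intro h
    rw [h, eval_zero] at h1
    exact zero_ne_one h1
  obtain ⟨σ, hσ⟩ : ∃ σ : K, eval σ ((X : K[X]) * P.det) ≠ 0 := by
    by_contra hcon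
    push Not at hcon
    exact h2 (Polynomial.funext fun r => by rw [hcon r, eval_zero])
  rw [eval_mul, eval_X] at hσ
  refine ⟨σ, left_ne_zero_of_mul hσ, fun v hv => ?_⟩
  have h3 := right_ne_zero_of_mul hσ
  rw [hdet] at h3
  obtain ⟨Λ, hΛ⟩ : ∃ Λ : V →ₗ[K] V, Λ = ∑ t ∈ range (n + 1), σ ^ t • (g ∘ₗ Φ t) := ⟨_, rfl⟩
  have h4 : LinearMap.toMatrix (finBasis K V) (finBasis K V) Λ = ∑ t ∈ range (n + 1), σ ^ t • M t := by
    rw [hΛ, map_sum]
    refine sum_congr rfl fun t _ => ?_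
    rw [map_smul, hM]
  have h5 : LinearMap.det Λ ≠ 0 := by
    rw [← LinearMap.det_toMatrix (finBasis K V), h4]
    exact h3
  have h6 : Λ v = 0 := by
    rw [hΛ, LinearMap.sum_apply]
    have h7 : ∑ t ∈ range (n + 1), (σ ^ t • (g ∘ₗ Φ t)) v = g (∑ t ∈ range (n + 1), σ ^ t • Φ t v) := by
      rw [map_sum]
      refine sum_congr rfl fun t _ => ?_
      rw [LinearMap.smul_apply, LinearMap.comp_apply, map_smul]
    rw [h7]
    have h8 : ∑ t ∈ range (n + 1), σ ^ t • Φ t v = 0 := by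
      funext r
      rw [Finset.sum_apply, Pi.zero_apply, ← hv r]
      refine sum_congr rfl fun t _ => ?_
      rw [Pi.smul_apply, hΦ, smul_eq_mul]
    rw [h8, map_zero]
  have h9 : Function.Injective Λ := by
    have : IsUnit Λ := by
      rw [LinearMap.isUnit_iff_isUnit_det]
      exact isUnit_iff_ne_zero.2 h5
    exact ((Module.End.isUnit_iff Λ).1 this).1
  exact h9 (by rw [h6, map_zero])

/-- the pairing as a linear map in the Laurent polynomial -/
noncomputable def prl (x y : K) (P : K × K → K) : ((ℤ × ℤ) →₀ K) →ₗ[K] K where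
  toFun f := pr f x y P
  map_add' f g := pr_add_left' f g x y P
  map_smul' c f := by rw [pr_smul_left]; rfl

theorem pr_sum_right {α : Type} (s : Finset α) (f : (ℤ × ℤ) →₀ K) (x y : K) (a : α → K)
    (P : α → K × K → K) :
    pr f x y (fun u => ∑ i ∈ s, a i * P i u) = ∑ i ∈ s, a i * pr f x y (P i) := by
  have h : (fun u => ∑ i ∈ s, a i * P i u) = ∑ i ∈ s, a i • P i := by
    funext u
    rw [Finset.sum_apply]
    rfl
  rw [h]
  have h2 := map_sum (prL f x y) (fun i => a i • P i) s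
  have h3 : ∀ Q, prL f x y Q = pr f x y Q := fun _ => rfl
  rw [h3] at h2
  rw [h2]
  refine sum_congr rfl fun i _ => ?_
  rw [map_smul, h3, smul_eq_mul]

/-- the scaled direction -/
def sc (σ : K) (E : K × K) : K × K := (σ * E.1, σ * E.2)

theorem qq_sc (σ : K) (D E : K × K) (k l : ℕ) (u : K × K) :
    qq D (sc σ E) k l u = σ ^ l * qq D E k l u := by
  unfold qq lin sc
  have : σ * E.1 * u.1 + σ * E.2 * u.2 = σ * (E.1 * u.1 + E.2 * u.2) := by ring
  simp only [this, mul_pow]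
  ring

/-- the limit conditions contain the conditions of multiplicity `b` -/
theorem LimK_le_Mul {q : ℕ} {w : Fin q → ℕ} {b : ℕ} {I : Finset ℕ} {A B : Fin q → ℚ}
    (h : Cl w b I A B) (x y : K) {D E : K × K} (hdet : D.1 * E.2 - D.2 * E.1 ≠ 0) :
    LimK w (fun j => (A j : K)) (fun j => (B j : K)) x y D E ≤ Mul x y b := by
  classical
  intro f hf
  unfold LimK at hf
  simp only [Submodule.mem_iInf] at hf
  rw [mem_Mul]
  apply LM_of_qq hdet
  intro k l hkl
  obtain ⟨c, hc⟩ := h.low k l hkl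
  have h1 := hf (fun r => (c r : K)) (k + l) (by
    intro k' l' h'
    rw [Lam_cast, hc k' l' (by omega), if_neg (by omega)]
    simp)
  rw [mem_Ker] at h1
  rw [← h1]
  congr 1
  funext u
  rw [Finset.sum_eq_single (k, l)]
  · rw [Lam_cast, hc k l hkl, if_pos ⟨rfl, rfl⟩]
    simp
  · rintro ⟨k', l'⟩ hkl' hne
    rw [HasAntidiagonal.mem_antidiagonal] at hkl'
    simp only at hkl' ⊢
    rw [Lam_cast, hc k' l' (by omega), if_neg (by
      rintro ⟨rfl, rfl⟩
      exact hne rfl)]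
    simp
  · intro hn
    exact absurd (HasAntidiagonal.mem_antidiagonal.2 (by simp only)) hn

/-- the limit conditions of degree `b` -/
theorem LimK_top {q : ℕ} {w : Fin q → ℕ} {b k0 : ℕ} {A B : Fin q → ℚ} (hk0 : k0 ≤ b) {c : RR w → ℚ}
    (hc1 : ∀ k' l', k' + l' < b → Lam w A B c k' l' = 0)
    (hc3 : ∀ k', k0 < k' → k' ≤ b → Lam w A B c k' (b - k') = 0)
    {x y : K} {D E : K × K} {σ : K} (hσ : σ ≠ 0) {f : (ℤ × ℤ) →₀ K}
    (hf : f ∈ LimK w (fun j => (A j : K)) (fun j => (B j : K)) x y D (sc σ E)) :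
    ∑ t ∈ range (k0 + 1), σ ^ t * (((Lam w A B c (k0 - t) (b - (k0 - t)) : ℚ) : K) *
      pr f x y (qq D E (k0 - t) (b - (k0 - t)))) = 0 := by
  classical
  unfold LimK at hf
  simp only [Submodule.mem_iInf] at hf
  have h1 := hf (fun r => (c r : K)) b (by
    intro k' l' h'
    rw [Lam_cast, hc1 k' l' h']
    simp)
  rw [mem_Ker, pr_sum_right (antidiagonal b) f x y
    (fun kl => Lam w (fun j => (A j : K)) (fun j => (B j : K)) (fun r => (c r : K)) kl.1 kl.2)
    (fun kl => qq D (sc σ E) kl.1 kl.2)] at h1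
  have h2 : ∀ kl : ℕ × ℕ, pr f x y (qq D (sc σ E) kl.1 kl.2) =
      σ ^ kl.2 * pr f x y (qq D E kl.1 kl.2) := by
    intro kl
    rw [← pr_smul_right]
    congr 1
    funext u
    rw [qq_sc]
    rfl
  simp only [h2, Lam_cast] at h1
  rw [Finset.Nat.sum_antidiagonal_eq_sum_range_succ (fun k l => ((Lam w A B c k l : ℚ) : K) *
    (σ ^ l * pr f x y (qq D E k l)))] at h1
  have h3 : ∑ k ∈ range (k0 + 1), ((Lam w A B c k (b - k) : ℚ) : K) *
      (σ ^ (b - k) * pr f x y (qq D E k (b - k))) = 0 := by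
    rw [← h1]
    apply Finset.sum_subset
    · intro k hk
      rw [mem_range] at hk ⊢
      omega
    · intro k hk hk'
      rw [mem_range] at hk hk'
      rw [hc3 k (by omega) (by omega)]
      simp
  rw [← Finset.sum_range_reflect] at h3
  have h4 : σ ^ (b - k0) * ∑ t ∈ range (k0 + 1), σ ^ t * (((Lam w A B c (k0 - t) (b - (k0 - t)) : ℚ) : K) *
      pr f x y (qq D E (k0 - t) (b - (k0 - t)))) = 0 := by
    rw [← h3, mul_sum]
    refine sum_congr rfl fun t ht => ?_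
    rw [mem_range] at ht
    have e1 : k0 + 1 - 1 - t = k0 - t := by omega
    rw [e1]
    have e2 : σ ^ (b - (k0 - t)) = σ ^ (b - k0) * σ ^ t := by
      rw [← pow_add]
      congr 1
      omega
    rw [e2]
    ring
  exact (mul_eq_zero.1 h4).resolve_left (pow_ne_zero _ hσ)

end

/-- **From the cluster system to the composed system.** -/
theorem emp_of_CluB {N : ℕ} {κ : Type} {q : Fin N → ℕ} {w : ∀ i, Fin (q i) → ℕ} {e : κ → ℕ}
    {b : Fin N → ℕ} {I : Fin N → Finset ℕ} {A B : ∀ i, Fin (q i) → ℚ}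
    (hcl : ∀ i, Cl (w i) (b i) (I i) (A i) (B i)) {K : Type} [Field K] [CharZero K]
    {x y : Fin N → K} {x' y' : κ → K}
    (hx : ∀ i, x i ≠ 0) (hy : ∀ i, y i ≠ 0) (hx' : ∀ i, x' i ≠ 0) (hy' : ∀ i, y' i ≠ 0)
    {D E : Fin N → K × K} (hDE : ∀ i, (D i).1 * (E i).2 - (D i).2 * (E i).1 ≠ 0)
    {S : Finset (ℤ × ℤ)}
    (h : Sys S x' y' e ⊓ ⨅ i, CluB (x i) (y i) (D i) (E i) (b i) (I i) = ⊥) :
    Emp (Sum.elim (fun p : Σ i : Fin N, Fin (q i) => w p.1 p.2) e) (↑S : Set (ℤ × ℤ)) := by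
  classical
  have htop := fun i => (hcl i).top
  choose hkb c hc1 hc2 hc3 using htop
  obtain ⟨V, hV⟩ : ∃ V : Submodule K ((ℤ × ℤ) →₀ K), V = Sys S x' y' e ⊓ ⨅ i, Mul (x i) (y i) (b i) :=
    ⟨_, rfl⟩
  have hVS : V ≤ Finsupp.supported K K (↑S : Set (ℤ × ℤ)) := by
    rw [hV]
    exact inf_le_left.trans inf_le_left
  have hfd : FiniteDimensional K ↥V := by
    have := fd_supp (K := K) S
    exact Submodule.finiteDimensional_of_le hVS
  obtain ⟨n, hn⟩ : ∃ n : ℕ, ∀ i, b i ≤ n := ⟨∑ i, b i, fun i =>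
    Finset.single_le_sum (f := b) (fun _ _ => Nat.zero_le _) (mem_univ i)⟩
  obtain ⟨φ, hφ⟩ : ∃ φ : (Σ i : Fin N, {k // k ∈ I i}) → ℕ → (↥V →ₗ[K] K), ∀ r t v, φ r t v =
      if t ≤ r.2.1 then ((Lam (w r.1) (A r.1) (B r.1) (c r.1 r.2.1 r.2.2) (r.2.1 - t)
        (b r.1 - (r.2.1 - t)) : ℚ) : K) *
        pr v.1 (x r.1) (y r.1) (qq (D r.1) (E r.1) (r.2.1 - t) (b r.1 - (r.2.1 - t))) else 0 := by
    refine ⟨fun r t => if t ≤ r.2.1 then
      ((Lam (w r.1) (A r.1) (B r.1) (c r.1 r.2.1 r.2.2) (r.2.1 - t)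
        (b r.1 - (r.2.1 - t)) : ℚ) : K) •
        (prl (x r.1) (y r.1) (qq (D r.1) (E r.1) (r.2.1 - t) (b r.1 - (r.2.1 - t)))).comp V.subtype
      else 0, fun r t v => ?_⟩
    by_cases ht : t ≤ r.2.1
    · simp only [if_pos ht]
      rfl
    · simp only [if_neg ht]
      rfl
  obtain ⟨σ, hσ, hinj⟩ := inj_open (K := K) (V := ↥V) n φ (by
    intro v hv
    have h1 : v.1 ∈ Sys S x' y' e ⊓ ⨅ i, CluB (x i) (y i) (D i) (E i) (b i) (I i) := by
      have h2 : v.1 ∈ Sys S x' y' e ⊓ ⨅ i, Mul (x i) (y i) (b i) := by rw [← hV]; exact v.2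
      refine ⟨h2.1, ?_⟩
      have h3 := h2.2
      simp only [SetLike.mem_coe, Submodule.mem_iInf] at h3 ⊢
      intro i
      refine ⟨h3 i, ?_⟩
      unfold OdI
      simp only [SetLike.mem_coe, Submodule.mem_iInf]
      intro k hk
      have h4 := hv ⟨i, ⟨k, hk⟩⟩
      rw [hφ] at h4
      simp only [Nat.zero_le, if_true, Nat.sub_zero] at h4
      rw [hc2 i k hk] at h4
      rw [mem_Ker]
      simpa using h4
    rw [h] at h1
    exact Subtype.ext ((Submodule.mem_bot K).1 h1))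
  refine collideW (fun i j => (A i j : K)) (fun i j => (B i j : K)) x y x' y' hx hy hx' hy' D
    (fun i => sc σ (E i)) S ?_
  rw [eq_bot_iff]
  rintro f ⟨hf1, hf2⟩
  simp only [SetLike.mem_coe, Submodule.mem_iInf] at hf2
  have hfV : f ∈ V := by
    rw [hV]
    refine ⟨hf1, ?_⟩
    simp only [SetLike.mem_coe, Submodule.mem_iInf]
    intro i
    refine LimK_le_Mul (hcl i) (x i) (y i) ?_ (hf2 i)
    have : (D i).1 * (sc σ (E i)).2 - (D i).2 * (sc σ (E i)).1 =
        σ * ((D i).1 * (E i).2 - (D i).2 * (E i).1) := by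
      unfold sc
      ring
    rw [this]
    exact mul_ne_zero hσ (hDE i)
  have h1 := hinj ⟨f, hfV⟩ (by
    rintro ⟨i, ⟨k, hk⟩⟩
    have h2 := LimK_top (K := K) (hkb i k hk) (hc1 i k hk) (hc3 i k hk) (E := E i) hσ (hf2 i)
    rw [← h2]
    symm
    have h3 : ∀ t ∈ range (k + 1), σ ^ t * (((Lam (w i) (A i) (B i) (c i k hk) (k - t)
        (b i - (k - t)) : ℚ) : K) * pr f (x i) (y i) (qq (D i) (E i) (k - t) (b i - (k - t)))) =
        σ ^ t * φ ⟨i, ⟨k, hk⟩⟩ t ⟨f, hfV⟩ := by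
      intro t ht
      rw [mem_range] at ht
      rw [hφ, if_pos (by simp only; omega)]
    rw [sum_congr rfl h3]
    apply Finset.sum_subset
    · intro t ht
      rw [mem_range] at ht ⊢
      have := hkb i k hk
      have := hn i
      omega
    · intro t _ ht
      rw [mem_range] at ht
      rw [hφ, if_neg (by simp only; omega), mul_zero])
  have h2 := congrArg Subtype.val h1
  rw [Submodule.mem_bot]
  exact h2

end Pool.Agent.Helper65.Comp
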